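import Pool.Agent.Lib.H94L.Refl

/-!
# Chunk SEP: separation for predicates definable over `LL`

Let `φ` define `P` over `LL`, and let `m` be `φ.bd + 1`; only `v i`, `i < m`, matter.  By `LL_bound` and `reflect`
there is a limit `δ` with `a` and all `v i`, `i < m`, in `Lev δ` which reflects `φ`.  Replace `v i` by `∅` for
`i ≥ m`, and put `a` at the place `m`; apply `def_mem_Lev` to `z ∈ a ∧ φ`.
-/

set_option autoImplicit false

open Set Function

namespace Pool.Agent.H94L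

theorem LL_sep {P : (ℕ → ZFSet.{0}) → Prop} (hP : Dfn LL P) {v : ℕ → ZFSet.{0}}
    (hv : ∀ i, LL (v i)) {a : ZFSet.{0}} (ha : LL a) :
    ∃ b, LL b ∧ ∀ z, z ∈ b ↔ z ∈ a ∧ P (cons z v) := by
  obtain ⟨φ, hφ⟩ := hP
  obtain ⟨β, hβ⟩ := LL_bound (ι := Option (Fin φ.bd)) (fun o => o.elim a fun i => v i) (by
    intro o
    cases o with
    | none => exact ha
    | some i => exact hv i)
  have haβ : a ∈ Lev β := hβ none
  have hvβ : ∀ i < φ.bd, v i ∈ Lev β := fun i hi => hβ (some ⟨i, hi⟩)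
  obtain ⟨δ, hδβ, hδ, hr⟩ := reflect φ β
  let v' : ℕ → ZFSet.{0} := fun i => if i < φ.bd then v i else if i = φ.bd then a else ∅
  have hv' : ∀ i, v' i ∈ Lev δ := by
    intro i
    simp only [v']
    split_ifs with h1 h2
    · exact Lev_mono hδβ.le (hvβ i h1)
    · exact Lev_mono hδβ.le haβ
    · exact empty_mem_Lev δ
  obtain ⟨y, hy, hyz⟩ := def_mem_Lev hδ
    (Q := fun w => w 0 ∈ w (φ.bd + 1) ∧ SatL (cl (Lev δ)) φ w)
    ((Dfn.mem 0 (φ.bd + 1)).and (Dfn.sat φ)) hv'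
  refine ⟨y, ⟨δ + 1, hy⟩, fun z => ?_⟩
  rw [hyz]
  have hm : cons z v' (φ.bd + 1) = a := by
    change v' φ.bd = a
    simp only [v', lt_irrefl, if_false, if_true]
  have hP : z ∈ Lev δ → (SatL (cl (Lev δ)) φ (cons z v') ↔ P (cons z v)) := by
    intro hz
    rw [hr (cons z v') (cons_mem (A := cl (Lev δ)) hz hv'), hφ (cons z v)
      (cons_mem (A := LL) ⟨δ, hz⟩ hv)]
    refine SatL_congr LL φ _ _ fun i hi => ?_
    cases i with
    | zero => rfl
    | succ j =>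
      change v' j = v j
      simp only [v', if_pos (show j < φ.bd by omega)]
  constructor
  · rintro ⟨h1, h2, h3⟩
    rw [hm] at h2
    exact ⟨h2, (hP h1).mp h3⟩
  · rintro ⟨h1, h2⟩
    have hz : z ∈ Lev δ := Lev_trans (Lev_mono hδβ.le haβ) h1
    refine ⟨hz, ?_, (hP hz).mpr h2⟩
    rw [hm]
    exact h1

/-- the same with a bound instead of a set -/
theorem LL_sep' {P : (ℕ → ZFSet.{0}) → Prop} (hP : Dfn LL P) {v : ℕ → ZFSet.{0}}
    (hv : ∀ i, LL (v i)) (β : Ordinal.{0}) (hβ : ∀ z, LL z → P (cons z v) → z ∈ Lev β) :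
    ∃ b, LL b ∧ ∀ z, z ∈ b ↔ LL z ∧ P (cons z v) := by
  obtain ⟨b, hb, h⟩ := LL_sep hP hv (a := Lev β)
    ⟨β + 1, Lev_mem_of_lt (Order.lt_add_one_iff.mpr le_rfl)⟩
  refine ⟨b, hb, fun z => ?_⟩
  rw [h]
  exact ⟨fun h' => ⟨⟨β, h'.1⟩, h'.2⟩, fun h' => ⟨hβ z h'.1 h'.2, h'.2⟩⟩

end Pool.Agent.H94L
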