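import Pool.Agent.Lib.H94L.Small
import Pool.Agent.Lib.H94L.Sep

/-! # Chunk GC2 -/

set_option autoImplicit false

open Set Function

namespace Pool.Agent.H94L

theorem GC2_kpair {x : ZFSet.{0}}
    (hx1 : ∀ y z, y ∈ x → z ∈ x → ({y, z} : ZFSet.{0}) ∈ x) {y z : ZFSet.{0}} (hy : y ∈ x)
    (hz : z ∈ x) : ZFSet.pair y z ∈ x := by
  have h1 : ({y} : ZFSet.{0}) ∈ x := by
    have := hx1 y y hy hy
    rwa [ZFSet.pair_eq_singleton] at this
  exact hx1 _ _ h1 (hx1 y z hy hz)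

theorem GC2_nat {x : ZFSet.{0}} (hx2 : ∅ ∈ x) (hx3 : ∀ y ∈ x, insert y y ∈ x) (k : ℕ) :
    nat k ∈ x := by
  induction k with
  | zero => exact hx2
  | succ k ih => exact hx3 _ ih

theorem GC2_bound {γ : Ordinal.{0}} {b c : ZFSet.{0}} (hb : b ∈ Lev γ) (hc : c ∈ Lev γ) :
    ZFSet.pair b c ∈ Lev (γ + 1 + 1) := by
  have h1 : ({b} : ZFSet.{0}) ∈ Lev (γ + 1) := by
    have := pair_mem_Lev hb hb
    rwa [ZFSet.pair_eq_singleton] at this
  exact pair_mem_Lev h1 (pair_mem_Lev hb hc)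

/-- The definition of `f`. -/
def GC2P (w : ℕ → ZFSet.{0}) : Prop :=
  ∃ b ∈ w 2, ∃ c ∈ w 1, ∃ n ∈ w 1, ∃ p ∈ w 1, w 0 = ZFSet.pair b c ∧ c = ZFSet.pair n p ∧
    ∀ z ∈ w 2, (TT (w 2) n p (w 3) z ↔ z = b)

theorem GC2_dfn : Dfn LL GC2P := by
  have h : Dfn LL fun w => ∃ b ∈ w 2, ∃ c ∈ (cons b w) 2, ∃ n ∈ (cons c (cons b w)) 3,
      ∃ p ∈ (cons n (cons c (cons b w))) 4,
        (cons p (cons n (cons c (cons b w)))) 4 =
            ZFSet.pair ((cons p (cons n (cons c (cons b w)))) 3)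
              ((cons p (cons n (cons c (cons b w)))) 2) ∧
          (cons p (cons n (cons c (cons b w)))) 2 =
            ZFSet.pair ((cons p (cons n (cons c (cons b w)))) 1)
              ((cons p (cons n (cons c (cons b w)))) 0) ∧
          ∀ z ∈ (cons p (cons n (cons c (cons b w)))) 6,
            (TT ((cons z (cons p (cons n (cons c (cons b w))))) 7)
              ((cons z (cons p (cons n (cons c (cons b w))))) 2)
              ((cons z (cons p (cons n (cons c (cons b w))))) 1)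
              ((cons z (cons p (cons n (cons c (cons b w))))) 8)
              ((cons z (cons p (cons n (cons c (cons b w))))) 0) ↔
              (cons z (cons p (cons n (cons c (cons b w))))) 0 =
                (cons z (cons p (cons n (cons c (cons b w))))) 4) :=
    nice_LL.dfn_bex (nice_LL.dfn_bex (nice_LL.dfn_bex (nice_LL.dfn_bex
      ((nice_LL.dfn_pair 4 3 2).and ((nice_LL.dfn_pair 2 1 0).and
        (nice_LL.dfn_ball ((Dfn.tt 7 2 1 8 0).iff (Dfn.eq 0 4)) 6))) 4) 3) 2) 2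
  exact h

/-- Chunk GC2: the injection `f`.  For `γ` from `small_level`, `f` is the set of all `pair b c` with `b ∈ Lev γ`,
`c ∈ x` such that for some `n`, `p` in `x`, `c = pair n p` and `b` is the only `z ∈ Lev γ` with
`TT (Lev γ) n p (pair x a) z` (definable over `LL` with parameters `x`, `Lev γ`, `pair x a`; `LL_sep'`).
`nat k ∈ x` because `x` is inductive. -/
theorem exists_f (x a : ZFSet.{0}) (hxL : LL x) (haL : LL a)
    (hx0 : ∀ y ∈ x, ∀ z ∈ y, z ∈ x)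
    (hx1 : ∀ y z, y ∈ x → z ∈ x → ({y, z} : ZFSet.{0}) ∈ x) (hx2 : ∅ ∈ x)
    (hx3 : ∀ y ∈ x, insert y y ∈ x) (hax : ∀ z ∈ a, z ∈ x) :
    ∃ f, LL f ∧ (∀ b, WW b a → ∃ c ∈ x, ZFSet.pair b c ∈ f) ∧
      ∀ b b' c, ZFSet.pair b c ∈ f → ZFSet.pair b' c ∈ f → b = b' := by
  obtain ⟨γ, hγ, hx, ha, hq, hdef⟩ := small_level hxL haL hx0 hx1 hx2 hax
  have hLL : LL (Lev γ) := ⟨γ + 1, Lev_mem_of_lt (Order.lt_add_one_iff.2 le_rfl)⟩
  have hxL' : ∀ c ∈ x, c ∈ Lev γ := fun c hc => Lev_trans hx hc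
  obtain ⟨f, hf, hf'⟩ := LL_sep' GC2_dfn
    (v := cons x (cons (Lev γ) fun _ => ZFSet.pair x a))
    (fun i => cons_mem hxL (fun j => cons_mem hLL (fun _ => ⟨γ, hq⟩) j) i) (γ + 1 + 1) (by
      rintro t - ⟨b, hb, c, hc, n, -, p, -, ht, -, -⟩
      change t = ZFSet.pair b c at ht
      rw [ht]
      exact GC2_bound hb (hxL' c hc))
  have hmem : ∀ b c, ZFSet.pair b c ∈ f ↔ b ∈ Lev γ ∧ c ∈ x ∧ ∃ n ∈ x, ∃ p ∈ x,
      c = ZFSet.pair n p ∧ ∀ z ∈ Lev γ, (TT (Lev γ) n p (ZFSet.pair x a) z ↔ z = b) := by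
    intro b c
    rw [hf']
    constructor
    · rintro ⟨-, b', hb', c', hc', n, hn, p, hp, ht, hcp, hz⟩
      change ZFSet.pair b c = ZFSet.pair b' c' at ht
      obtain ⟨rfl, rfl⟩ := ZFSet.pair_inj.1 ht
      exact ⟨hb', hc', n, hn, p, hp, hcp, hz⟩
    · rintro ⟨hb, hc, n, hn, p, hp, hcp, hz⟩
      exact ⟨⟨_, GC2_bound hb (hxL' c hc)⟩, b, hb, c, hc, n, hn, p, hp, rfl, hcp, hz⟩
  refine ⟨f, hf, ?_, ?_⟩
  · intro b hb
    have hbγ : b ∈ Lev γ := by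
      obtain ⟨δ, δ', h, h', h3⟩ := (WW_iff b a).1 hb
      have h4 : δ' < γ := h'.lt ha hγ
      have h5 : δ ≤ δ' := by
        rcases h3 with h3 | h3
        · exact h3.le
        · exact h3.1.le
      exact h.mem_Lev (h5.trans_lt h4)
    obtain ⟨k, p, hp, hk⟩ := hdef b hbγ
    refine ⟨ZFSet.pair (nat k) p, GC2_kpair hx1 (GC2_nat hx2 hx3 k) hp, (hmem _ _).2 ?_⟩
    refine ⟨hbγ, GC2_kpair hx1 (GC2_nat hx2 hx3 k) hp, nat k, GC2_nat hx2 hx3 k, p, hp, rfl, ?_⟩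
    intro z hz
    rw [← hk z hz, TT_iff]
    constructor
    · rintro ⟨γ', k', h1, h2, h3, h4, h5⟩
      obtain rfl := Lev_inj h1
      obtain rfl := nat_inj h2
      rcases h5 with h5 | h5
      · exact absurd (h5 ▸ hz) (ZFSet.mem_irrefl _)
      · exact h5.2
    · intro h
      exact ⟨γ, k, rfl, rfl, hxL' p hp, hq, Or.inr ⟨hz, h⟩⟩
  · intro b b' c h h'
    obtain ⟨hb, -, n, -, p, -, hc, hz⟩ := (hmem b c).1 h
    obtain ⟨-, -, n', -, p', -, hc', hz'⟩ := (hmem b' c).1 h'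
    rw [hc] at hc'
    obtain ⟨rfl, rfl⟩ := ZFSet.pair_inj.1 hc'
    exact (hz' b hb).1 ((hz b hb).2 rfl)

end Pool.Agent.H94L
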