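import Pool.Agent.Lib.H94L.Nice

/-!
# Chunk WO: `WW` is a well-order of the constructible universe

Strong induction on `γ` (`WW_good`).  Assume the statement for all `γ' < γ`.
* For `γ' < γ` every `x` with a code at `γ'` has a least code (minimize `k`, then `p`, then `q`, with the
  well-foundedness of `WW` on `Lev γ'`), and by totality two least codes are equal.
* Elements of `Lev γ` (`γ > 0`) have stages `< γ` (`LL.exists_stage`, `HasStage.lt`); `Lev 0 = {∅}`.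
* Totality: compare stages; if equal compare the least codes; different elements have different codes.
* Well-foundedness: minimize the stage, then `k`, `p`, `q` of the least code.
-/

set_option autoImplicit false

open Set Function

namespace Pool.Agent.H94L

/-- `WW` is total and well-founded on `Lev γ`. -/
def Good (γ : Ordinal.{0}) : Prop :=
  (∀ x y, x ∈ Lev γ → y ∈ Lev γ → x ≠ y → WW x y ∨ WW y x) ∧
    ∀ S : ZFSet.{0} → Prop, (∃ x ∈ Lev γ, S x) → ∃ x ∈ Lev γ, S x ∧ ∀ y ∈ Lev γ, S y → ¬ WW y x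

theorem IsCode.ext {γ : Ordinal.{0}} {k : ℕ} {p q x y : ZFSet.{0}} (h : IsCode γ k p q x)
    (h' : IsCode γ k p q y) : x = y := by
  ext z
  rw [h.2.2, h'.2.2]

theorem Good.exists_least {γ : Ordinal.{0}} (h : Good γ) {x : ZFSet.{0}}
    (hx : ∃ k p q, IsCode γ k p q x) : ∃ k p q, LeastCode γ k p q x := by
  classical
  have hk := Nat.find_spec hx
  obtain ⟨p0, q0, h0⟩ := hk
  obtain ⟨p, hp, ⟨q1, hq1⟩, hpmin⟩ := h.2 (fun p => ∃ q, IsCode γ (Nat.find hx) p q x)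
    ⟨p0, h0.1, q0, h0⟩
  obtain ⟨q, hq, hc, hqmin⟩ := h.2 (fun q => IsCode γ (Nat.find hx) p q x) ⟨q1, hq1.2.1, hq1⟩
  refine ⟨Nat.find hx, p, q, hc, fun k' p' q' hc' hl => ?_⟩
  rcases hl with hl | ⟨rfl, hl | ⟨rfl, hl⟩⟩
  · exact Nat.find_min hx hl ⟨p', q', hc'⟩
  · exact hpmin p' hc'.1 ⟨q', hc'⟩ hl
  · exact hqmin q' hc'.2.1 hc' hl

theorem Good.least_unique {γ : Ordinal.{0}} (h : Good γ) {x : ZFSet.{0}} {k k' : ℕ}
    {p q p' q' : ZFSet.{0}} (hc : LeastCode γ k p q x) (hc' : LeastCode γ k' p' q' x) :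
    k = k' ∧ p = p' ∧ q = q' := by
  have h1 := hc.2 _ _ _ hc'.1
  have h2 := hc'.2 _ _ _ hc.1
  unfold lexlt at h1 h2
  have hk : k = k' := by
    rcases lt_trichotomy k k' with hl | hl | hl
    · exact absurd (Or.inl hl) h2
    · exact hl
    · exact absurd (Or.inl hl) h1
  have hp : p = p' := by
    by_contra hne
    rcases h.1 p p' hc.1.1 hc'.1.1 hne with hW | hW
    · exact h2 (Or.inr ⟨hk, Or.inl hW⟩)
    · exact h1 (Or.inr ⟨hk.symm, Or.inl hW⟩)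
  refine ⟨hk, hp, ?_⟩
  by_contra hne
  rcases h.1 q q' hc.1.2.1 hc'.1.2.1 hne with hW | hW
  · exact h2 (Or.inr ⟨hk, Or.inr ⟨hp, hW⟩⟩)
  · exact h1 (Or.inr ⟨hk.symm, Or.inr ⟨hp.symm, hW⟩⟩)

theorem WO_total_step {γ : Ordinal.{0}} (ih : ∀ δ < γ, Good δ) (hγ : 0 < γ) (x y : ZFSet.{0})
    (hx : x ∈ Lev γ) (hy : y ∈ Lev γ) (hne : x ≠ y) : WW x y ∨ WW y x := by
  obtain ⟨a, ha⟩ := LL.exists_stage ⟨γ, hx⟩
  obtain ⟨b, hb⟩ := LL.exists_stage ⟨γ, hy⟩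
  have haγ : a < γ := ha.lt hx hγ
  rw [WW_iff, WW_iff]
  rcases lt_trichotomy a b with hl | rfl | hl
  · exact Or.inl ⟨a, b, ha, hb, Or.inl hl⟩
  · obtain ⟨k, p, q, hc⟩ := (ih a haγ).exists_least ha.1
    obtain ⟨k', p', q', hc'⟩ := (ih a haγ).exists_least hb.1
    have htri : lexlt WW k p q k' p' q' ∨ lexlt WW k' p' q' k p q ∨
        (k = k' ∧ p = p' ∧ q = q') := by
      unfold lexlt
      rcases lt_trichotomy k k' with hk | hk | hk
      · exact Or.inl (Or.inl hk)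
      · by_cases hp : p = p'
        · by_cases hq : q = q'
          · exact Or.inr (Or.inr ⟨hk, hp, hq⟩)
          · rcases (ih a haγ).1 q q' hc.1.2.1 hc'.1.2.1 hq with hW | hW
            · exact Or.inl (Or.inr ⟨hk, Or.inr ⟨hp, hW⟩⟩)
            · exact Or.inr (Or.inl (Or.inr ⟨hk.symm, Or.inr ⟨hp.symm, hW⟩⟩))
        · rcases (ih a haγ).1 p p' hc.1.1 hc'.1.1 hp with hW | hW
          · exact Or.inl (Or.inr ⟨hk, Or.inl hW⟩)
          · exact Or.inr (Or.inl (Or.inr ⟨hk.symm, Or.inl hW⟩))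
      · exact Or.inr (Or.inl (Or.inl hk))
    rcases htri with h | h | ⟨rfl, rfl, rfl⟩
    · exact Or.inl ⟨a, a, ha, hb, Or.inr ⟨rfl, k, p, q, k', p', q', hc, hc', h⟩⟩
    · exact Or.inr ⟨a, a, hb, ha, Or.inr ⟨rfl, k', p', q', k, p, q, hc', hc, h⟩⟩
    · exact absurd (hc.1.ext hc'.1) hne
  · exact Or.inr ⟨b, a, hb, ha, Or.inl hl⟩

theorem WO_min_step {γ : Ordinal.{0}} (ih : ∀ δ < γ, Good δ) (hγ : 0 < γ) (S : ZFSet.{0} → Prop)
    (h : ∃ x ∈ Lev γ, S x) : ∃ x ∈ Lev γ, S x ∧ ∀ y ∈ Lev γ, S y → ¬ WW y x := by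
  classical
  have h1 : ∃ a, ∃ x, x ∈ Lev γ ∧ S x ∧ HasStage a x := by
    obtain ⟨x, hx, hS⟩ := h
    obtain ⟨a, ha⟩ := LL.exists_stage ⟨γ, hx⟩
    exact ⟨a, x, hx, hS, ha⟩
  obtain ⟨a, ⟨x0, hx0, hS0, ha0⟩, hamin⟩ := WellFounded.has_min (wellFounded_lt (α := Ordinal.{0}))
    {a | ∃ x, x ∈ Lev γ ∧ S x ∧ HasStage a x} h1
  have haγ : a < γ := ha0.lt hx0 hγ
  have hg := ih a haγ
  have hk : ∃ k, ∃ p q x, x ∈ Lev γ ∧ S x ∧ HasStage a x ∧ LeastCode a k p q x := by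
    obtain ⟨k, p, q, hc⟩ := hg.exists_least ha0.1
    exact ⟨k, p, q, x0, hx0, hS0, ha0, hc⟩
  obtain ⟨p0, q0, x1, h2⟩ := Nat.find_spec hk
  obtain ⟨p, hp, ⟨q1, x2, h3⟩, hpmin⟩ := hg.2 (fun p => ∃ q x, x ∈ Lev γ ∧ S x ∧ HasStage a x ∧
    LeastCode a (Nat.find hk) p q x) ⟨p0, h2.2.2.2.1.1, q0, x1, h2⟩
  obtain ⟨q, hq, ⟨x, h4⟩, hqmin⟩ := hg.2 (fun q => ∃ x, x ∈ Lev γ ∧ S x ∧ HasStage a x ∧
    LeastCode a (Nat.find hk) p q x) ⟨q1, h3.2.2.2.1.2.1, x2, h3⟩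
  refine ⟨x, h4.1, h4.2.1, fun y hy hSy hW => ?_⟩
  rw [WW_iff] at hW
  obtain ⟨b, c, hb, hc, hbc⟩ := hW
  have hca : c = a := hc.unique h4.2.2.1
  subst hca
  rcases hbc with hl | ⟨rfl, k1, p1, q1, k2, p2, q2, hc1, hc2, hl⟩
  · exact hamin b ⟨y, hy, hSy, hb⟩ hl
  · obtain ⟨rfl, rfl, rfl⟩ := hg.least_unique h4.2.2.2 hc2
    rcases hl with hl | ⟨hl1, hl | ⟨hl2, hl⟩⟩
    · exact Nat.find_min hk hl ⟨p1, q1, y, hy, hSy, hb, hc1⟩
    · rw [hl1] at hc1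
      exact hpmin p1 hc1.1.1 ⟨q1, y, hy, hSy, hb, hc1⟩ hl
    · rw [hl1, hl2] at hc1
      exact hqmin q1 hc1.1.2.1 ⟨y, hy, hSy, hb, hc1⟩ hl

theorem WW_good (γ : Ordinal.{0}) : Good γ := by
  induction γ using WellFoundedLT.induction with
  | ind γ ih =>
    rcases eq_or_ne γ 0 with rfl | h0
    · constructor
      · intro x y hx hy hne
        rw [mem_Lev_zero] at hx hy
        exact absurd (hx.trans hy.symm) hne
      · rintro S ⟨x, hx, hS⟩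
        refine ⟨x, hx, hS, fun y hy _ hW => ?_⟩
        rw [mem_Lev_zero] at hx hy
        rw [hx, hy] at hW
        exact WW_irrefl _ hW
    · have hγ : 0 < γ := pos_iff_ne_zero.2 h0
      exact ⟨WO_total_step ih hγ, WO_min_step ih hγ⟩

theorem WW_total {x y : ZFSet.{0}} (hx : LL x) (hy : LL y) (hne : x ≠ y) : WW x y ∨ WW y x := by
  obtain ⟨β, hβ⟩ := hx
  obtain ⟨γ, hγ⟩ := hy
  exact (WW_good (max β γ)).1 x y (Lev_mono (le_max_left _ _) hβ)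
    (Lev_mono (le_max_right _ _) hγ) hne

/-- predecessors of an element of a level are in the level -/
theorem WW_end {β : Ordinal.{0}} (hβ : 0 < β) {x y : ZFSet.{0}} (hx : x ∈ Lev β) (h : WW y x) :
    y ∈ Lev β := by
  rw [WW_iff] at h
  obtain ⟨γ, γ', h1, h2, h3⟩ := h
  have h4 : γ' < β := h2.lt hx hβ
  refine h1.mem_Lev ?_
  rcases h3 with h3 | ⟨rfl, -⟩
  · exact h3.trans h4
  · exact h4

/-- every nonempty class of constructible sets has a least element -/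
theorem WW_least (S : ZFSet.{0} → Prop) (h : ∃ x, LL x ∧ S x) :
    ∃ x, LL x ∧ S x ∧ ∀ y, LL y → S y → ¬ WW y x := by
  obtain ⟨x0, ⟨β, hβ⟩, h0⟩ := h
  obtain ⟨x, hx, hS, hmin⟩ := (WW_good (β + 1)).2 S
    ⟨x0, Lev_mono (by simp) hβ, h0⟩
  refine ⟨x, ⟨_, hx⟩, hS, fun y _ hSy hW => hmin y ?_ hSy hW⟩
  exact WW_end (by simp) hx hW

/-- least elements are unique -/
theorem WW_least_unique {S : ZFSet.{0} → Prop} {x y : ZFSet.{0}} (hx : LL x) (hy : LL y)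
    (h : S x ∧ ∀ z, LL z → S z → ¬ WW z x) (h' : S y ∧ ∀ z, LL z → S z → ¬ WW z y) : x = y := by
  by_contra hne
  rcases WW_total hx hy hne with hW | hW
  · exact h'.2 x hx h.1 hW
  · exact h.2 y hy h'.1 hW

end Pool.Agent.H94L
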