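import Pool.Agent.Lib.H94L.Sep
import Pool.Agent.Lib.H94L.WO

/-!
# Chunk ZF0: the structure of constructible sets, translation of pure formulas
-/

set_option autoImplicit false

open Set Function

namespace Pool.Agent.H94L

open Pool.Agent.H5Z (Fml Sat Rel IsPair IsInd)

/-- the constructible sets -/
def ML : Type 1 := {x : ZFSet.{0} // LL x}

/-- membership of constructible sets -/
def EL (x y : ML) : Prop := x.1 ∈ y.1

theorem ML.ext {x y : ML} (h : x.1 = y.1) : x = y := Subtype.ext h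

/-- pure formulas as formulas with predicates -/
def toLF : Fml → LF
  | Fml.mem i j => LF.mem i j
  | Fml.eq i j => LF.eq i j
  | Fml.bot => LF.bot
  | Fml.imp φ ψ => LF.imp (toLF φ) (toLF ψ)
  | Fml.all i φ => LF.all i (toLF φ)

theorem sat_toLF (φ : Fml) (v : ℕ → ML) :
    Sat EL φ v ↔ SatL LL (toLF φ) fun i => (v i).1 := by
  induction φ generalizing v with
  | mem i j => exact Iff.rfl
  | eq i j => exact Subtype.ext_iff
  | bot => exact Iff.rfl
  | imp φ ψ ih ih' => exact imp_congr (ih v) (ih' v)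
  | all i φ ih =>
    have h1 : ∀ a : ML, (fun j => (update v i a j).1) = update (fun j => (v j).1) i a.1 := by
      intro a
      funext j
      by_cases h : j = i
      · subst h; rw [update_self, update_self]
      · rw [update_of_ne h, update_of_ne h]
    constructor
    · intro h a ha
      have h2 := (ih (update v i ⟨a, ha⟩)).1 (h ⟨a, ha⟩)
      rw [h1] at h2
      exact h2
    · intro h a
      rw [ih, h1]
      exact h a.1 a.2

theorem ZF0_mem {x : ML} {z : ZFSet.{0}} (hz : z ∈ x.1) : LL z := nice_LL.trans x.1 z x.2 hz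

theorem ZF0_single (z x : ML) : (∀ u : ML, EL u z ↔ u = x) ↔ z.1 = {x.1} := by
  constructor
  · intro h
    ext u
    rw [ZFSet.mem_singleton]
    constructor
    · intro hu
      exact congrArg Subtype.val ((h ⟨u, ZF0_mem hu⟩).1 hu)
    · rintro rfl
      exact (h x).2 rfl
  · intro h u
    unfold EL
    rw [h, ZFSet.mem_singleton]
    exact Subtype.ext_iff.symm

theorem ZF0_pair (z x y : ML) :
    (∀ u : ML, EL u z ↔ u = x ∨ u = y) ↔ z.1 = ({x.1, y.1} : ZFSet.{0}) := by
  constructor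
  · intro h
    ext u
    rw [ZFSet.mem_pair]
    constructor
    · intro hu
      rcases (h ⟨u, ZF0_mem hu⟩).1 hu with h1 | h1
      · exact Or.inl (congrArg Subtype.val h1)
      · exact Or.inr (congrArg Subtype.val h1)
    · rintro (rfl | rfl)
      · exact (h x).2 (Or.inl rfl)
      · exact (h y).2 (Or.inr rfl)
  · intro h u
    unfold EL
    rw [h, ZFSet.mem_pair]
    exact or_congr Subtype.ext_iff.symm Subtype.ext_iff.symm

theorem isPair_EL (p x y : ML) : IsPair EL p x y ↔ p.1 = ZFSet.pair x.1 y.1 := by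
  unfold IsPair
  simp only [ZF0_single, ZF0_pair]
  have hs : LL ({x.1} : ZFSet.{0}) := by
    have := nice_LL.pair x.1 x.1 x.2 x.2
    rwa [ZFSet.pair_eq_singleton] at this
  have hp : LL ({x.1, y.1} : ZFSet.{0}) := nice_LL.pair x.1 y.1 x.2 y.2
  constructor
  · intro h
    ext z
    rw [ZFSet.pair, ZFSet.mem_pair]
    constructor
    · intro hz
      exact (h ⟨z, ZF0_mem hz⟩).1 hz
    · rintro (rfl | rfl)
      · exact (h ⟨_, hs⟩).2 (Or.inl rfl)
      · exact (h ⟨_, hp⟩).2 (Or.inr rfl)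
  · intro h z
    unfold EL
    rw [h, ZFSet.pair, ZFSet.mem_pair]

theorem rel_EL (x y r : ML) : Rel EL x y r ↔ ZFSet.pair x.1 y.1 ∈ r.1 := by
  unfold Pool.Agent.H5Z.Rel
  constructor
  · rintro ⟨p, hp, hr⟩
    rw [isPair_EL] at hp
    rw [← hp]
    exact hr
  · intro h
    exact ⟨⟨ZFSet.pair x.1 y.1, ZF0_mem h⟩, (isPair_EL _ _ _).2 rfl, h⟩

theorem isInd_EL (x : ML) (h : IsInd EL x) : ∅ ∈ x.1 ∧ ∀ y ∈ x.1, insert y y ∈ x.1 := by
  obtain ⟨⟨e, he, he'⟩, h2⟩ := h
  constructor
  · have h0 : e.1 = ∅ := by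
      rw [ZFSet.eq_empty]
      intro z hz
      exact he' ⟨z, ZF0_mem hz⟩ hz
    rw [← h0]
    exact he
  · intro y hy
    obtain ⟨s, hs, hs'⟩ := h2 ⟨y, ZF0_mem hy⟩ hy
    have h1 : s.1 = insert y y := by
      ext z
      rw [ZFSet.mem_insert_iff]
      constructor
      · intro hz
        rcases (hs' ⟨z, ZF0_mem hz⟩).1 hz with h3 | h3
        · exact Or.inr h3
        · exact Or.inl (congrArg Subtype.val h3)
      · rintro (rfl | hz)
        · exact (hs' ⟨_, ZF0_mem hy⟩).2 (Or.inr rfl)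
        · exact (hs' ⟨z, ZF0_mem (x := ⟨y, ZF0_mem hy⟩) hz⟩).2 (Or.inl hz)
    rw [← h1]
    exact hs

end Pool.Agent.H94L
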