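import Pool.Agent.Lib.H94L.GC1
import Pool.Agent.Lib.H94L.GC2
import Pool.Agent.Lib.H94L.ZFBase

/-! # Chunk GC3 -/

set_option autoImplicit false

open Set Function

namespace Pool.Agent.H94L

open Pool.Agent.H5Z (Rel IsPair IsInd)

/-- Chunk GC3: GCH in the constructible universe, from `exists_w`, `exists_f`, `rel_EL`, `isInd_EL`. -/
theorem gchIn_LL : GCHIn EL := by
  intro x htr hp hind
  obtain ⟨h0, hs⟩ := isInd_EL x hind
  have hLL : ∀ {a : ML} {z : ZFSet.{0}}, z ∈ a.1 → LL z :=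
    fun {a z} hz => nice_LL.trans _ _ a.2 hz
  have hsub : ∀ {a : ML}, (∀ u, EL u a → EL u x) → a.1 ⊆ x.1 :=
    fun {a} h z hz => h ⟨z, hLL hz⟩ hz
  obtain ⟨w, hw, hwab⟩ := exists_w x.1 x.2
  refine ⟨⟨w, hw⟩, ?_, ?_⟩
  · intro a b ha hb hne
    have hne' : a.1 ≠ b.1 := fun h => hne (ML.ext h)
    rcases WW_total a.2 b.2 hne' with h | h
    · left
      rw [rel_EL]
      exact (hwab _ _ a.2 b.2).2 ⟨hsub ha, hsub hb, h⟩
    · right
      rw [rel_EL]
      exact (hwab _ _ b.2 a.2).2 ⟨hsub hb, hsub ha, h⟩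
  · intro a ha
    obtain ⟨f, hf, hf1, hf2⟩ := exists_f x.1 a.1 x.2 a.2
      (fun y hy z hz => htr ⟨y, hLL hy⟩ ⟨z, nice_LL.trans _ _ (hLL hy) hz⟩ hy hz)
      (fun y z hy hz => hp ⟨y, hLL hy⟩ ⟨z, hLL hz⟩
        ⟨{y, z}, nice_LL.pair _ _ (hLL hy) (hLL hz)⟩ hy hz (by
          intro u
          show u.1 ∈ ({y, z} : ZFSet.{0}) ↔ _
          rw [ZFSet.mem_pair]
          constructor
          · rintro (h | h)
            · exact Or.inl (ML.ext h)
            · exact Or.inr (ML.ext h)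
          · rintro (h | h)
            · exact Or.inl (congrArg Subtype.val h)
            · exact Or.inr (congrArg Subtype.val h)))
      h0 hs (fun z hz => hsub ha hz)
    refine ⟨⟨f, hf⟩, ?_, ?_⟩
    · intro b hb hrel
      rw [rel_EL] at hrel
      obtain ⟨c, hc, hbc⟩ := hf1 b.1 ((hwab _ _ b.2 a.2).1 hrel).2.2
      refine ⟨⟨c, hLL hc⟩, hc, ?_⟩
      rw [rel_EL]
      exact hbc
    · intro b b' c h h'
      rw [rel_EL] at h h'
      exact ML.ext (hf2 _ _ _ h h')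

end Pool.Agent.H94L
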