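import Mathlib

/-!
# Chunk TR2A

A set `P` with a total relation `R` (for `a ≠ b`: `R a b` or `R b a`) all of whose sets
`{b | R b a}` have cardinality at most `μ` (`μ` infinite) has cardinality at most `succ μ`: otherwise take
`A ⊆ P` with `#A = succ μ`; the union of `A` and all `{b | R b a}`, `a ∈ A`, has cardinality `succ μ`, so there
is `b` outside; then `R a b` for all `a ∈ A`, so `A` is contained in `{a | R a b}`.
-/

set_option autoImplicit false

open Set Function Cardinal

namespace Pool.Agent.H94L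

theorem small_in_nbhd {P : Type 1} (R : P → P → Prop) (hR : ∀ a b, a ≠ b → R a b ∨ R b a)
    (μ : Cardinal.{1}) (hμ : ℵ₀ ≤ μ) (hs : ∀ a, #{b | R b a} ≤ μ) : #P ≤ Order.succ μ := by
  by_contra hlt
  rw [not_le] at hlt
  obtain ⟨A, hA⟩ := Cardinal.le_mk_iff_exists_set.1 hlt.le
  have hμs : ℵ₀ ≤ Order.succ μ := hμ.trans (Order.le_succ μ)
  have hU : #(A ∪ ⋃ a ∈ A, {b | R b a} : Set P) ≤ Order.succ μ := by
    refine (Cardinal.mk_union_le _ _).trans ?_
    have h1 : #(⋃ a ∈ A, {b | R b a} : Set P) ≤ Order.succ μ := by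
      refine (Cardinal.mk_biUnion_le _ _).trans ?_
      have h2 : (⨆ x : A, #{b | R b x.1}) ≤ μ := ciSup_le' fun x => hs x.1
      rw [hA]
      calc Order.succ μ * (⨆ x : A, #{b | R b x.1}) ≤ Order.succ μ * Order.succ μ :=
            mul_le_mul' le_rfl (h2.trans (Order.le_succ μ))
        _ = Order.succ μ := Cardinal.mul_eq_self hμs
    calc #A + #(⋃ a ∈ A, {b | R b a} : Set P) ≤ Order.succ μ + Order.succ μ :=
          add_le_add hA.le h1
      _ = Order.succ μ := Cardinal.add_eq_self hμs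
  have hne : (A ∪ ⋃ a ∈ A, {b | R b a} : Set P) ≠ Set.univ := by
    intro h
    rw [h, Cardinal.mk_univ] at hU
    exact absurd hU (not_le.2 hlt)
  obtain ⟨b, hb⟩ := (Set.ne_univ_iff_exists_notMem _).1 hne
  have hbA : b ∉ A := fun h => hb (Or.inl h)
  have hbR : ∀ a ∈ A, ¬ R b a := by
    intro a ha h
    exact hb (Or.inr (Set.mem_biUnion ha h))
  have hsub : A ⊆ {a | R a b} := by
    intro a ha
    have hab : a ≠ b := fun h => hbA (h ▸ ha)
    exact (hR a b hab).resolve_right (hbR a ha)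
  have h3 : Order.succ μ ≤ μ := by
    rw [← hA]
    exact (Cardinal.mk_le_mk_of_subset hsub).trans (hs b)
  exact absurd (Order.lt_succ μ) (not_lt.2 h3)

end Pool.Agent.H94L
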