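import Pool.Agent.Lib.H94L.TR1
import Pool.Agent.Lib.H94L.TR2a

/-!
# Chunk TR2B: the sentence `GCHIn` for the universe of sets implies GCH

Apply `small_in_nbhd` to the subsets of the set `x` of `exists_closed_set`; `Rel` and `IsPair` in `ZFSet`
are the Kuratowski pairs; `ZFSet.card_powerset`.  `2 ^ μ ≥ succ μ` is Cantor.
-/

set_option autoImplicit false

open Set Function Cardinal

namespace Pool.Agent.H94L

open Pool.Agent.H5Z (Rel IsPair IsInd)

theorem rel_ZFSet (x y r : ZFSet.{0}) :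
    Rel (fun x y : ZFSet.{0} => x ∈ y) x y r ↔ ZFSet.pair x y ∈ r := by
  have hp : ∀ p : ZFSet.{0}, IsPair (fun x y : ZFSet.{0} => x ∈ y) p x y ↔ p = ZFSet.pair x y := by
    intro p
    have h1 : ∀ z : ZFSet.{0}, (∀ u, u ∈ z ↔ u = x) ↔ z = {x} := by
      intro z
      rw [ZFSet.ext_iff]
      simp
    have h2 : ∀ z : ZFSet.{0}, (∀ u, u ∈ z ↔ u = x ∨ u = y) ↔ z = {x, y} := by
      intro z
      rw [ZFSet.ext_iff]
      simp
    unfold IsPair
    rw [ZFSet.ext_iff]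
    simp only [h1, h2, ZFSet.pair, ZFSet.mem_pair]
  unfold Pool.Agent.H5Z.Rel
  simp only [hp]
  constructor
  · rintro ⟨p, rfl, h⟩
    exact h
  · intro h
    exact ⟨_, rfl, h⟩

theorem gch_of_gchIn (h : GCHIn (fun x y : ZFSet.{0} => x ∈ y)) (μ : Cardinal.{0})
    (hμ : ℵ₀ ≤ μ) : (2 : Cardinal.{0}) ^ μ = Order.succ μ := by
  apply le_antisymm _ (Order.succ_le_of_lt (Cardinal.cantor μ))
  obtain ⟨x, hx0, hx1, hx2, hx3, hx4⟩ := exists_closed_set μ hμ
  have hpair : ∀ y z p : ZFSet.{0}, y ∈ x → z ∈ x → (∀ u, u ∈ p ↔ u = y ∨ u = z) → p ∈ x := by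
    intro y z p hy hz hp
    have : p = {y, z} := by
      ext u
      rw [hp, ZFSet.mem_pair]
    rw [this]
    exact hx1 y z hy hz
  have hind : IsInd (fun x y : ZFSet.{0} => x ∈ y) x := by
    refine ⟨⟨∅, hx2, fun z => ZFSet.notMem_empty z⟩, fun y hy => ⟨insert y y, hx3 y hy, ?_⟩⟩
    intro z
    show z ∈ (insert y y : ZFSet.{0}) ↔ z ∈ y ∨ z = y
    rw [ZFSet.mem_insert_iff, or_comm]
  obtain ⟨w, hw1, hw2⟩ := h x (fun y z hy hz => hx0 y hy z hz) hpair hind
  simp only [rel_ZFSet] at hw1 hw2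
  -- the type of subsets of `x`
  have key := small_in_nbhd (P := {a : ZFSet.{0} // a ⊆ x})
    (fun a b => ZFSet.pair a.1 b.1 ∈ w)
    (by
      intro a b hab
      exact hw1 a.1 b.1 (fun u hu => a.2 hu) (fun u hu => b.2 hu) fun e => hab (Subtype.ext e))
    (Cardinal.lift.{1} μ) (by rwa [Cardinal.aleph0_le_lift])
    (by
      intro a
      obtain ⟨f, hf1, hf2⟩ := hw2 a.1 (fun u hu => a.2 hu)
      have hc : ∀ b : {b : {a : ZFSet.{0} // a ⊆ x} | ZFSet.pair b.1 a.1 ∈ w},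
          ∃ c, c ∈ x ∧ ZFSet.pair b.1.1 c ∈ f := fun b => hf1 b.1.1 (fun u hu => b.1.2 hu) b.2
      choose c hc1 hc2 using hc
      have hinj : Injective (fun b => (⟨c b, hc1 b⟩ : {z : ZFSet.{0} // z ∈ x})) := by
        intro b b' hbb
        have e : c b = c b' := congrArg Subtype.val hbb
        have h2 := hc2 b'
        rw [← e] at h2
        exact Subtype.ext (Subtype.ext (hf2 _ _ _ (hc2 b) h2))
      have h3 := Cardinal.mk_le_of_injective hinj
      have h4 : #{z : ZFSet.{0} // z ∈ x} = Cardinal.lift.{1} μ := by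
        rw [← hx4]
        exact ZFSet.cardinalMk_coe_sort
      exact h3.trans h4.le)
  have h5 : #{a : ZFSet.{0} // a ⊆ x} = Cardinal.lift.{1} (2 ^ μ) := by
    rw [← hx4, ← ZFSet.card_powerset, ← ZFSet.cardinalMk_coe_sort]
    exact Cardinal.mk_congr (Equiv.subtypeEquivRight fun a => ZFSet.mem_powerset.symm)
  rw [h5, ← Cardinal.lift_succ] at key
  exact Cardinal.lift_le.1 key

end Pool.Agent.H94L
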