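import Pool.Agent.Lib.H94L.ZFBase

/-!
# Chunk ZFB: separation and replacement schemes

`sep`: `sat_toLF` and `LL_sep` for the predicate `SatL LL (toLF φ)` composed with `0 ↦ 0`,
`n + 1 ↦ n + 2` (so that `cons z v` becomes `update v 0 z`).
`repl`: choose for every `x ∈ a` the value `y x`; they are in one level by `LL_bound_set` (for the
set `a`, or `LL_bound` for its shrunken type); `LL_sep'` for the predicate
`∃ x, LL x ∧ x ∈ a ∧ φ(x, z)` (`Dfn.ex`, `Dfn.and`, `Dfn.comp`), `a` is placed at a large index or in front.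
-/

set_option autoImplicit false

open Set Function

namespace Pool.Agent.H94L

open Pool.Agent.H5Z (Fml Sat)

/-- `0 ↦ 0`, `n + 1 ↦ n + 2` -/
def ZFB_f : ℕ → ℕ
  | 0 => 0
  | n + 1 => n + 2

/-- `0 ↦ 0`, `1 ↦ 1`, `n + 2 ↦ n + 5` -/
def ZFB_g : ℕ → ℕ
  | 0 => 0
  | 1 => 1
  | n + 2 => n + 5

theorem ZFB_val (v : ℕ → ML) (i : ℕ) (z : ML) :
    (fun j => (update v i z j).1) = update (fun j => (v j).1) i z.1 := by
  funext j
  by_cases h : j = i
  · subst h; rw [update_self, update_self]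
  · rw [update_of_ne h, update_of_ne h]

theorem ZFB_cons_f (w : ℕ → ZFSet.{0}) (z : ZFSet.{0}) : cons z w ∘ ZFB_f = update w 0 z := by
  funext j
  cases j with
  | zero => rw [update_self]; rfl
  | succ j => rw [update_of_ne (Nat.succ_ne_zero j)]; rfl

theorem ZFB_cons_g (w : ℕ → ZFSet.{0}) (x y a : ZFSet.{0}) :
    cons x (cons y (cons a w)) ∘ ZFB_g = update (update w 0 x) 1 y := by
  funext j
  match j with
  | 0 => rw [update_of_ne (by norm_num), update_self]; rfl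
  | 1 => rw [update_self]; rfl
  | n + 2 => rw [update_of_ne (by omega), update_of_ne (by omega)]; rfl

theorem zl_sep (φ : Fml) (v : ℕ → ML) (a : ML) :
    ∃ b, ∀ z, EL z b ↔ EL z a ∧ Sat EL φ (update v 0 z) := by
  have hP : Dfn LL fun u => SatL LL (toLF φ) (u ∘ ZFB_f) := (Dfn.sat (toLF φ)).comp ZFB_f
  obtain ⟨b, hb, h⟩ := LL_sep hP (v := fun i => (v i).1) (fun i => (v i).2) a.2
  refine ⟨⟨b, hb⟩, fun z => ?_⟩
  rw [sat_toLF, ZFB_val, ← ZFB_cons_f]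
  exact h z.1

theorem zl_repl (φ : Fml) (v : ℕ → ML) (a : ML)
    (h : ∀ x, EL x a → ∃! y, Sat EL φ (update (update v 0 x) 1 y)) :
    ∃ b, ∀ y, EL y b ↔ ∃ x, EL x a ∧ Sat EL φ (update (update v 0 x) 1 y) := by
  have hP : Dfn LL fun u => ∃ x, LL x ∧ (fun t : ℕ → ZFSet.{0} => t 0 ∈ t 2 ∧
      SatL LL (toLF φ) (t ∘ ZFB_g)) (cons x u) :=
    Dfn.ex ((Dfn.mem 0 2).and ((Dfn.sat (toLF φ)).comp ZFB_g))
  have hLx : ∀ x : {x : ZFSet.{0} // x ∈ a.1}, LL x.1 := fun x => ZF0_mem x.2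
  have h1 : ∀ x : {x : ZFSet.{0} // x ∈ a.1},
      ∃ y : ML, Sat EL φ (update (update v 0 ⟨x.1, hLx x⟩) 1 y) := fun x =>
    (h ⟨x.1, hLx x⟩ x.2).exists
  choose F hF using h1
  have : Small.{0} {x : ZFSet.{0} // x ∈ a.1} := ZFSet.small_coe a.1
  obtain ⟨β, hβ⟩ := LL_bound_set (ZFSet.range fun x : {x : ZFSet.{0} // x ∈ a.1} => (F x).1)
    (fun _ => True) (by
      intro x hx _
      rw [ZFSet.mem_range] at hx
      obtain ⟨y, rfl⟩ := hx
      exact (F y).2)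
  have key : ∀ x y : ML, SatL LL (toLF φ) (cons x.1 (cons y.1 (cons a.1 fun i => (v i).1)) ∘ ZFB_g) ↔
      Sat EL φ (update (update v 0 x) 1 y) := by
    intro x y
    rw [sat_toLF, ZFB_val, ZFB_val, ZFB_cons_g]
  obtain ⟨b, hb, h2⟩ := LL_sep' hP (v := cons a.1 fun i => (v i).1)
    (cons_mem a.2 fun i => (v i).2) β (by
      rintro z hz ⟨x, hx, hxa, hs⟩
      have hs' := (key ⟨x, hx⟩ ⟨z, hz⟩).1 hs
      have he : (⟨z, hz⟩ : ML) = F ⟨x, hxa⟩ := (h ⟨x, hx⟩ hxa).unique hs' (hF ⟨x, hxa⟩)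
      refine hβ z ?_ trivial
      rw [ZFSet.mem_range]
      exact ⟨⟨x, hxa⟩, (congrArg Subtype.val he).symm⟩)
  refine ⟨⟨b, hb⟩, fun y => ?_⟩
  refine (h2 y.1).trans ?_
  constructor
  · rintro ⟨-, x, hx, hxa, hs⟩
    exact ⟨⟨x, hx⟩, hxa, (key ⟨x, hx⟩ y).1 hs⟩
  · rintro ⟨x, hxa, hs⟩
    exact ⟨y.2, x.1, x.2, hxa, (key x y).2 hs⟩

end Pool.Agent.H94L
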