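import Pool.Agent.Lib.H94L.ZFa
import Pool.Agent.Lib.H94L.ZFb
import Pool.Agent.Lib.H94L.GC
import Pool.Agent.Lib.H94L.TR2

/-!
# A model of ZFC in which the generalized continuum hypothesis holds
-/

set_option autoImplicit false

open Set Function Cardinal

namespace Pool.Agent.H94L

open Pool.Agent.H5Z (ModelsZFC)

theorem modelsZFC_LL : ModelsZFC EL where
  ext := zl_ext
  found := zl_found
  pair := zl_pair
  union := zl_union
  power := zl_power
  inf := zl_inf
  sep := zl_sep
  repl := zl_repl
  choice := zl_choice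

/-- There is a model of ZFC + GCH. -/
theorem exists_model_gch : ∃ (M : Type 1) (E : M → M → Prop), ModelsZFC E ∧ GCHIn E :=
  ⟨ML, EL, modelsZFC_LL, gchIn_LL⟩

/-- If the sentence holds in the universe of sets then GCH holds. -/
theorem gch (h : GCHIn (fun x y : ZFSet.{0} => x ∈ y)) :
    ∀ μ : Cardinal.{0}, ℵ₀ ≤ μ → (2 : Cardinal.{0}) ^ μ = Order.succ μ :=
  gch_of_gchIn h

end Pool.Agent.H94L
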