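import Pool.Agent.Lib.H94L.Defs

/-!
# The constructible hierarchy with its truth predicate and its well-order

`LF`: formulas of the language with a binary symbol for membership, a 5-ary symbol `tr` and a binary
symbol `wo`.  `stg β` is the stage `β` of the hierarchy.
-/

set_option autoImplicit false

open Set Function

namespace Pool.Agent.H94L

/-- Formulas with the extra predicates `tr` (5-ary) and `wo` (binary). -/
inductive LF : Type
  | mem (i j : ℕ) : LF
  | eq (i j : ℕ) : LF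
  | tr (i j k l m : ℕ) : LF
  | wo (i j : ℕ) : LF
  | bot : LF
  | imp (φ ψ : LF) : LF
  | all (i : ℕ) (φ : LF) : LF
  deriving Countable

instance : Nonempty LF := ⟨LF.bot⟩

/-- an enumeration of all formulas -/
noncomputable def enumF : ℕ → LF := Classical.choose (exists_surjective_nat LF)

theorem enumF_surj (φ : LF) : ∃ k, enumF k = φ := Classical.choose_spec (exists_surjective_nat LF) φ

/-- Satisfaction with quantifiers relativized to the class `A`, and with the predicates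
`T`, `W`. -/
def RSat (T : ZFSet.{0} → ZFSet.{0} → ZFSet.{0} → ZFSet.{0} → ZFSet.{0} → Prop)
    (W : ZFSet.{0} → ZFSet.{0} → Prop) (A : ZFSet.{0} → Prop) : LF → (ℕ → ZFSet.{0}) → Prop
  | LF.mem i j, v => v i ∈ v j
  | LF.eq i j, v => v i = v j
  | LF.tr i j k l m, v => T (v i) (v j) (v k) (v l) (v m)
  | LF.wo i j, v => W (v i) (v j)
  | LF.bot, _ => False
  | LF.imp φ ψ, v => RSat T W A φ v → RSat T W A ψ v
  | LF.all i φ, v => ∀ a, A a → RSat T W A φ (update v i a)

/-- the assignment `0 ↦ z`, `1 ↦ p`, `i ↦ q` for `i ≥ 2` -/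
def asg (z p q : ZFSet.{0}) : ℕ → ZFSet.{0} := fun i => if i = 0 then z else if i = 1 then p else q

/-- the von Neumann natural numbers -/
def nat : ℕ → ZFSet.{0}
  | 0 => ∅
  | k + 1 => insert (nat k) (nat k)

/-- lexicographic order of the triples `(k, p, q)` -/
def lexlt (W : ZFSet.{0} → ZFSet.{0} → Prop) (k : ℕ) (p q : ZFSet.{0}) (k' : ℕ)
    (p' q' : ZFSet.{0}) : Prop :=
  k < k' ∨ k = k' ∧ (W p p' ∨ p = p' ∧ W q q')

/-- a stage: the set, the truth predicate (formula number, two parameters, argument), the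
well-order -/
structure Stg where
  lev : ZFSet.{0}
  tr : ℕ → ZFSet.{0} → ZFSet.{0} → ZFSet.{0} → Prop
  wo : ZFSet.{0} → ZFSet.{0} → Prop

/-- `x` is the subset of the stage `s` with code `(k, p, q)` -/
def Stg.IsCode (s : Stg) (k : ℕ) (p q x : ZFSet.{0}) : Prop :=
  p ∈ s.lev ∧ q ∈ s.lev ∧ ∀ z, z ∈ x ↔ z ∈ s.lev ∧ s.tr k p q z

/-- the set of all subsets of the stage `s` which have a code -/
noncomputable def Stg.defs (s : Stg) : ZFSet.{0} :=
  ZFSet.sep (fun x => ∃ k p q, s.IsCode k p q x) (ZFSet.powerset s.lev)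

/-- `(k, p, q)` is the least code of `x` -/
def Stg.LeastCode (s : Stg) (k : ℕ) (p q x : ZFSet.{0}) : Prop :=
  s.IsCode k p q x ∧ ∀ k' p' q', s.IsCode k' p' q' x → ¬ lexlt s.wo k' p' q' k p q

section Mk

variable (β : Ordinal.{0}) (F : Set.Iio β → Stg)

/-- the set of stage `β` -/
noncomputable def mkLev : ZFSet.{0} := {∅} ∪ ZFSet.iUnion fun γ : Set.Iio β => (F γ).defs

/-- the truth predicate for the stages below `β`; `z = u` marks the legal `(u, n, p, q)` -/
def mkT (u n p q z : ZFSet.{0}) : Prop :=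
  ∃ γ : Set.Iio β, u = (F γ).lev ∧ ∃ k, n = nat k ∧ p ∈ u ∧ q ∈ u ∧
    (z = u ∨ z ∈ u ∧ (F γ).tr k p q z)

/-- `x` first appears as an element of `defs` at stage `γ` -/
def mkStage (γ : Set.Iio β) (x : ZFSet.{0}) : Prop :=
  (∃ k p q, (F γ).IsCode k p q x) ∧ ∀ γ' : Set.Iio β, γ' < γ → ¬ ∃ k p q, (F γ').IsCode k p q x

/-- the well-order of stage `β` -/
def mkW (x y : ZFSet.{0}) : Prop :=
  ∃ γ γ' : Set.Iio β, mkStage β F γ x ∧ mkStage β F γ' y ∧
    (γ < γ' ∨ γ = γ' ∧ ∃ k p q k' p' q', (F γ).LeastCode k p q x ∧ (F γ).LeastCode k' p' q' y ∧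
      lexlt (F γ).wo k p q k' p' q')

/-- the stage `β` from the previous stages -/
noncomputable def mkStg : Stg where
  lev := mkLev β F
  tr := fun k p q z => RSat (mkT β F) (mkW β F) (fun y => y ∈ mkLev β F) (enumF k) (asg z p q)
  wo := mkW β F

end Mk

/-- the stages -/
noncomputable def stg (β : Ordinal.{0}) : Stg := mkStg β fun γ => stg γ.1
termination_by β
decreasing_by exact γ.2

theorem stg_eq (β : Ordinal.{0}) : stg β = mkStg β fun γ => stg γ.1 := by
  rw [stg]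

/-- The constructible hierarchy. -/
noncomputable def Lev (β : Ordinal.{0}) : ZFSet.{0} := (stg β).lev

/-- The truth predicate of the hierarchy. -/
def TT (u n p q z : ZFSet.{0}) : Prop :=
  ∃ γ : Ordinal.{0}, u = Lev γ ∧ ∃ k, n = nat k ∧ p ∈ u ∧ q ∈ u ∧
    (z = u ∨ z ∈ u ∧ (stg γ).tr k p q z)

/-- The well-order of the constructible universe. -/
def WW (x y : ZFSet.{0}) : Prop :=
  ∃ γ γ' : Ordinal.{0},
    ((∃ k p q, (stg γ).IsCode k p q x) ∧ ∀ δ < γ, ¬ ∃ k p q, (stg δ).IsCode k p q x) ∧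
    ((∃ k p q, (stg γ').IsCode k p q y) ∧ ∀ δ < γ', ¬ ∃ k p q, (stg δ).IsCode k p q y) ∧
    (γ < γ' ∨ γ = γ' ∧ ∃ k p q k' p' q', (stg γ).LeastCode k p q x ∧
      (stg γ).LeastCode k' p' q' y ∧ lexlt (stg γ).wo k p q k' p' q')

/-- The constructible universe. -/
def LL (x : ZFSet.{0}) : Prop := ∃ β : Ordinal.{0}, x ∈ Lev β

/-- Satisfaction in the class `A` with the predicates `TT`, `WW`. -/
def SatL (A : ZFSet.{0} → Prop) (φ : LF) (v : ℕ → ZFSet.{0}) : Prop := RSat TT WW A φ v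

/-- membership in a set, as a class -/
def cl (u : ZFSet.{0}) : ZFSet.{0} → Prop := fun y => y ∈ u

/-- `x` is the subset of `Lev γ` with code `(k, p, q)` -/
def IsCode (γ : Ordinal.{0}) (k : ℕ) (p q x : ZFSet.{0}) : Prop :=
  p ∈ Lev γ ∧ q ∈ Lev γ ∧ ∀ z, z ∈ x ↔ z ∈ Lev γ ∧ SatL (cl (Lev γ)) (enumF k) (asg z p q)

/-- `γ` is the stage of `x` -/
def HasStage (γ : Ordinal.{0}) (x : ZFSet.{0}) : Prop :=
  (∃ k p q, IsCode γ k p q x) ∧ ∀ δ < γ, ¬ ∃ k p q, IsCode δ k p q x

/-- `(k, p, q)` is the least code of `x` at stage `γ` -/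
def LeastCode (γ : Ordinal.{0}) (k : ℕ) (p q x : ZFSet.{0}) : Prop :=
  IsCode γ k p q x ∧ ∀ k' p' q', IsCode γ k' p' q' x → ¬ lexlt WW k' p' q' k p q

end Pool.Agent.H94L
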