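import Pool.Agent.Lib.H94L.PR

/-!
# Chunk CL: definable subsets of a limit level are in the next level

From `param_red` with `C = cl (Lev δ)`, `q = ∅`; the set is `ZFSet.sep _ (Lev δ)`.
-/

set_option autoImplicit false

open Set Function

namespace Pool.Agent.H94L

theorem def_mem_Lev {δ : Ordinal.{0}} (hδ : Lim δ) {Q : (ℕ → ZFSet.{0}) → Prop}
    (hQ : Dfn (cl (Lev δ)) Q) {v : ℕ → ZFSet.{0}} (hv : ∀ i, v i ∈ Lev δ) :
    ∃ y ∈ Lev (δ + 1), ∀ z, z ∈ y ↔ z ∈ Lev δ ∧ Q (cons z v) := by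
  obtain ⟨k, p, hp, h⟩ := param_red hδ (C := cl (Lev δ)) (fun x hx => hx)
    (fun x y hx hy => (nice_Lev hδ).kpair hx hy) ⟨∅, empty_mem_Lev δ⟩ (empty_mem_Lev δ) hQ
    (fun i => Or.inl (hv i))
  refine ⟨ZFSet.sep (fun z => Q (cons z v)) (Lev δ), ?_, fun z => ZFSet.mem_sep⟩
  rw [mem_Lev]
  refine Or.inr ⟨δ, Order.lt_add_one_iff.mpr le_rfl, k, p, ∅, hp, empty_mem_Lev δ, fun z => ?_⟩
  rw [ZFSet.mem_sep]
  exact and_congr_right fun hz => h z hz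

end Pool.Agent.H94L
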