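import Pool.Agent.Lib.H94L.DfnS
import Pool.Agent.Lib.H94L.WO

/-!
# Chunk CODE1: codes, stages and least codes in terms of `TT` and `WW`, and their definability

`CodeS`, `StageS`, `LeastS` are the set versions of `IsCode`, `HasStage`, `LeastCode`.  The marker
`TT u n p q u` says that `u` is a level, `n` a natural number, `p, q ∈ u`.  Over `Lev δ` (`δ` limit) all
witnesses are in `Lev δ`, so the predicates are definable (`Dfn.congr`, `Nice.natMem`).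
-/

set_option autoImplicit false

open Set Function

namespace Pool.Agent.H94L

/-- `y` has the code `(n, p, q)` at the level `u` -/
def CodeS (u n p q y : ZFSet.{0}) : Prop :=
  TT u n p q u ∧ ∀ z, z ∈ y ↔ z ∈ u ∧ TT u n p q z

/-- `u` is the level where `y` gets its first code -/
def StageS (u y : ZFSet.{0}) : Prop :=
  (∃ n p q, CodeS u n p q y) ∧ ∀ u' ∈ u, ¬ ∃ n p q, CodeS u' n p q y

/-- `(n, p, q)` is the least code of `y` at the level `u` -/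
def LeastS (u n p q y : ZFSet.{0}) : Prop :=
  CodeS u n p q y ∧ ∀ n' p' q', CodeS u n' p' q' y →
    ¬ (n' ∈ n ∨ n' = n ∧ (WW p' p ∨ p' = p ∧ WW q' q))

/-- the truth predicate at a level -/
theorem CODE1_tt {γ : Ordinal.{0}} {k : ℕ} {p q z : ZFSet.{0}} (hz : z ∈ Lev γ) :
    TT (Lev γ) (nat k) p q z ↔ p ∈ Lev γ ∧ q ∈ Lev γ ∧
      SatL (cl (Lev γ)) (enumF k) (asg z p q) := by
  rw [TT_iff]
  constructor
  · rintro ⟨γ', k', h1, h2, h3, h4, h5⟩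
    have e1 := Lev_inj h1
    have e2 := nat_inj h2
    subst e1
    subst e2
    refine ⟨h3, h4, ?_⟩
    rcases h5 with h5 | h5
    · rw [h5] at hz
      exact absurd hz (ZFSet.mem_irrefl _)
    · exact h5.2
  · rintro ⟨h3, h4, h5⟩
    exact ⟨γ, k, rfl, rfl, h3, h4, Or.inr ⟨hz, h5⟩⟩

theorem codeS_iff (u n p q y : ZFSet.{0}) :
    CodeS u n p q y ↔ ∃ γ k, u = Lev γ ∧ n = nat k ∧ IsCode γ k p q y := by
  constructor
  · rintro ⟨h1, h2⟩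
    rw [TT_iff] at h1
    obtain ⟨γ, k, rfl, rfl, h3, h4, _⟩ := h1
    refine ⟨γ, k, rfl, rfl, h3, h4, fun z => ?_⟩
    rw [h2 z]
    exact and_congr_right fun hz => (CODE1_tt hz).trans ⟨fun h => h.2.2, fun h => ⟨h3, h4, h⟩⟩
  · rintro ⟨γ, k, rfl, rfl, h3, h4, h5⟩
    refine ⟨?_, fun z => ?_⟩
    · rw [TT_iff]
      exact ⟨γ, k, rfl, rfl, h3, h4, Or.inl rfl⟩
    · rw [h5 z]
      exact and_congr_right fun hz => ((CODE1_tt hz).trans ⟨fun h => h.2.2, fun h => ⟨h3, h4, h⟩⟩).symm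

theorem stageS_iff (u y : ZFSet.{0}) : StageS u y ↔ ∃ γ, u = Lev γ ∧ HasStage γ y := by
  constructor
  · rintro ⟨⟨n, p, q, h1⟩, h2⟩
    obtain ⟨γ, k, rfl, rfl, h3⟩ := (codeS_iff _ _ _ _ _).1 h1
    refine ⟨γ, rfl, ⟨k, p, q, h3⟩, ?_⟩
    rintro δ hδ ⟨k', p', q', h4⟩
    exact h2 (Lev δ) (Lev_mem_Lev.2 hδ) ⟨nat k', p', q',
      (codeS_iff _ _ _ _ _).2 ⟨δ, k', rfl, rfl, h4⟩⟩
  · rintro ⟨γ, rfl, ⟨k, p, q, h1⟩, h2⟩
    refine ⟨⟨nat k, p, q, (codeS_iff _ _ _ _ _).2 ⟨γ, k, rfl, rfl, h1⟩⟩, ?_⟩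
    rintro u' hu' ⟨n', p', q', h3⟩
    obtain ⟨δ, k', rfl, rfl, h4⟩ := (codeS_iff _ _ _ _ _).1 h3
    exact h2 δ (Lev_mem_Lev.1 hu') ⟨k', p', q', h4⟩

theorem leastS_iff (u n p q y : ZFSet.{0}) :
    LeastS u n p q y ↔ ∃ γ k, u = Lev γ ∧ n = nat k ∧ LeastCode γ k p q y := by
  constructor
  · rintro ⟨h1, h2⟩
    obtain ⟨γ, k, rfl, rfl, h3⟩ := (codeS_iff _ _ _ _ _).1 h1
    refine ⟨γ, k, rfl, rfl, h3, ?_⟩
    intro k' p' q' h4 h5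
    refine h2 (nat k') p' q' ((codeS_iff _ _ _ _ _).2 ⟨γ, k', rfl, rfl, h4⟩) ?_
    rcases h5 with h5 | ⟨rfl, h5⟩
    · exact Or.inl (nat_mem_nat.2 h5)
    · exact Or.inr ⟨rfl, h5⟩
  · rintro ⟨γ, k, rfl, rfl, h1, h2⟩
    refine ⟨(codeS_iff _ _ _ _ _).2 ⟨γ, k, rfl, rfl, h1⟩, ?_⟩
    intro n' p' q' h3 h4
    obtain ⟨γ', k', h5, rfl, h6⟩ := (codeS_iff _ _ _ _ _).1 h3
    have e1 := Lev_inj h5
    subst e1
    refine h2 k' p' q' h6 ?_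
    rcases h4 with h4 | ⟨h4, h7⟩
    · exact Or.inl (nat_mem_nat.1 h4)
    · exact Or.inr ⟨nat_inj h4, h7⟩

theorem CODE1_LL {x y : ZFSet.{0}} (h : WW x y) : LL x ∧ LL y := by
  rw [WW_iff] at h
  obtain ⟨γ, γ', h1, h2, _⟩ := h
  exact ⟨⟨γ + 1, h1.mem_Lev (by simp)⟩, ⟨γ' + 1, h2.mem_Lev (by simp)⟩⟩

theorem WW_asymm {x y : ZFSet.{0}} (h : WW x y) (h' : WW y x) : False := by
  obtain ⟨hx, hy⟩ := CODE1_LL h
  obtain ⟨m, _, hm, hmin⟩ := WW_least (fun z => z = x ∨ z = y) ⟨x, hx, Or.inl rfl⟩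
  rcases hm with rfl | rfl
  · exact hmin y hy (Or.inr rfl) h'
  · exact hmin x hx (Or.inl rfl) h

end Pool.Agent.H94L
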