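import Pool.Agent.Lib.H94L.Code

/-!
# Chunk CODE2: definability of codes, stages, least codes over limit levels

Over `Lev δ` (`δ` limit) all witnesses are in `Lev δ` (`Nice.natMem`, `codeS_iff`), so the unbounded
quantifiers can be replaced by quantifiers over `Lev δ` (`Dfn.congr`).
-/

set_option autoImplicit false

open Set Function

namespace Pool.Agent.H94L

theorem dfn_codeS {δ : Ordinal.{0}} (hδ : Lim δ) :
    Dfn (cl (Lev δ)) fun v => CodeS (v 0) (v 1) (v 2) (v 3) (v 4) := by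
  have hA := nice_Lev hδ
  refine ((Dfn.tt 0 1 2 3 0).and (Dfn.all ((Dfn.mem 0 5).iff
    ((Dfn.mem 0 1).and (Dfn.tt 1 2 3 4 0))))).congr ?_
  intro v hv
  refine and_congr_right fun _ => ?_
  constructor
  · intro h z _
    exact h z
  · intro h z
    by_cases hz : cl (Lev δ) z
    · exact h z hz
    · constructor
      · intro hz'
        exact absurd (hA.trans _ _ (hv 4) hz') hz
      · intro hz'
        exact absurd (hA.trans _ _ (hv 0) hz'.1) hz

theorem code2_mem {δ : Ordinal.{0}} (hδ : Lim δ) {u n p q y : ZFSet.{0}} (hu : u ∈ Lev δ)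
    (h : CodeS u n p q y) : n ∈ Lev δ ∧ p ∈ Lev δ ∧ q ∈ Lev δ := by
  have hA := nice_Lev hδ
  rw [codeS_iff] at h
  obtain ⟨γ, k, rfl, rfl, h⟩ := h
  exact ⟨hA.natMem k, hA.trans _ _ hu h.1, hA.trans _ _ hu h.2.1⟩

theorem code2_ex {δ : Ordinal.{0}} (hδ : Lim δ) :
    Dfn (cl (Lev δ)) fun v => ∃ n p q, CodeS (v 0) n p q (v 1) := by
  refine (Dfn.ex (Dfn.ex (Dfn.ex ((dfn_codeS hδ).comp5 3 2 1 0 4)))).congr ?_
  intro v hv
  constructor
  · rintro ⟨n, p, q, h⟩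
    obtain ⟨h1, h2, h3⟩ := code2_mem hδ (hv 0) h
    exact ⟨n, h1, p, h2, q, h3, h⟩
  · rintro ⟨n, _, p, _, q, _, h⟩
    exact ⟨n, p, q, h⟩

theorem dfn_stageS {δ : Ordinal.{0}} (hδ : Lim δ) :
    Dfn (cl (Lev δ)) fun v => StageS (v 0) (v 1) := by
  have hA := nice_Lev hδ
  exact (code2_ex hδ).and (hA.dfn_ball (P := fun v => ¬ ∃ n p q, CodeS (v 0) n p q (v 2))
    (Dfn.comp2 (R := fun u y => ∃ n p q, CodeS u n p q y) (code2_ex hδ) 0 2).not 0)

theorem dfn_leastS {δ : Ordinal.{0}} (hδ : Lim δ) :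
    Dfn (cl (Lev δ)) fun v => LeastS (v 0) (v 1) (v 2) (v 3) (v 4) := by
  refine ((dfn_codeS hδ).and (Dfn.all (Dfn.all (Dfn.all
    (((dfn_codeS hδ).comp5 3 2 1 0 7).imp
      ((Dfn.mem 2 4).or ((Dfn.eq 2 4).and
        ((Dfn.ww 1 5).or ((Dfn.eq 1 5).and (Dfn.ww 0 6))))).not))))).congr ?_
  intro v hv
  refine and_congr_right fun _ => ?_
  constructor
  · intro h n' _ p' _ q' _ hc
    exact h n' p' q' hc
  · intro h n' p' q' hc
    obtain ⟨h1, h2, h3⟩ := code2_mem hδ (hv 0) hc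
    exact h n' h1 p' h2 q' h3 hc

end Pool.Agent.H94L
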