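import Pool.Agent.Lib.H94L.CondD

/-! # Chunk COND6 -/

set_option autoImplicit false

open Set Function

namespace Pool.Agent.H94L

variable {δ : Ordinal.{0}} {N : ZFSet.{0} → Prop}

theorem cond6_stage (h : TV δ N) (hδ : Lim δ) {y : ZFSet.{0}} (hy : N y) {β : Ordinal.{0}}
    (hs : HasStage β y) : β < δ ∧ N (Lev β) := by
  obtain ⟨β', k, p, q, h1, h2, hs', -⟩ := h.stage hδ hy
  obtain rfl : β = β' := hs.unique hs'
  exact ⟨h1, h2⟩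

theorem cond6_least (h : TV δ N) (hδ : Lim δ) {y : ZFSet.{0}} (hy : N y) {β : Ordinal.{0}}
    {k : ℕ} {p q : ZFSet.{0}} (hs : HasStage β y) (hc : LeastCode β k p q y) : N p ∧ N q := by
  obtain ⟨β', k', p', q', h1, h2, hs', hc', hp', hq'⟩ := h.stage hδ hy
  obtain rfl : β = β' := hs.unique hs'
  obtain ⟨-, rfl, rfl⟩ := (WW_good β).least_unique hc hc'
  exact ⟨hp', hq'⟩

theorem cond6_fwd (h : TV δ N) (hδ : Lim δ) {α : Ordinal.{0}} (hI : IH N α)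
    {y z : ZFSet.{0}} (hy : N y) (hz : N z) (hyα : y ∈ Lev α) (hzα : z ∈ Lev α)
    (hW : WW y z) : WW (coll N y) (coll N z) := by
  rcases eq_or_ne α 0 with rfl | h0
  · rw [mem_Lev_zero] at hyα hzα
    rw [hyα, hzα] at hW
    exact absurd hW (WW_irrefl _)
  have hα0 : 0 < α := pos_iff_ne_zero.2 h0
  obtain ⟨β, β', hs, hs', h3⟩ := (WW_iff _ _).1 hW
  obtain ⟨hβδ, hNβ⟩ := cond6_stage h hδ hy hs
  obtain ⟨hβδ', hNβ'⟩ := cond6_stage h hδ hz hs'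
  obtain ⟨ε, hK, -⟩ := hI β (hs.lt hyα hα0) hNβ
  obtain ⟨ε', hK', -⟩ := hI β' (hs'.lt hzα hα0) hNβ'
  rw [WW_iff]
  rcases h3 with h3 | ⟨rfl, k, p, q, k', p', q', hc, hc', hl⟩
  · exact ⟨ε, ε', hK.stage h hδ hβδ hNβ hy hs, hK'.stage h hδ hβδ' hNβ' hz hs',
      Or.inl (KK.lt h hNβ h3 hK hK')⟩
  · obtain ⟨hp, hq⟩ := cond6_least h hδ hy hs hc
    obtain ⟨hp', hq'⟩ := cond6_least h hδ hz hs' hc'
    refine ⟨ε, ε, hK.stage h hδ hβδ hNβ hy hs, hK.stage h hδ hβδ hNβ hz hs', Or.inr ⟨rfl, k,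
      coll N p, coll N q, k', coll N p', coll N q', hK.least h hδ hβδ hNβ hy hp hq hc,
      hK.least h hδ hβδ hNβ hz hp' hq' hc', ?_⟩⟩
    rcases hl with hl | ⟨hk, hl | ⟨rfl, hl⟩⟩
    · exact Or.inl hl
    · exact Or.inr ⟨hk, Or.inl ((hK.ww p p' hp hp' hc.1.1 hc'.1.1).1 hl)⟩
    · exact Or.inr ⟨hk, Or.inr ⟨rfl, (hK.ww q q' hq hq' hc.1.2.1 hc'.1.2.1).1 hl⟩⟩

/-- Chunk COND6 (a): `WW` is preserved.  `→`: by `WW_iff` and `TV.stage`, `KK.stage`, `KK.least`, `KK.lt`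
(if `α = 0` then `y = z = ∅`, and `WW_irrefl`).  `←`: otherwise `y = z` or `WW z y` (`WW_total`), then
`WW_irrefl`, `WW_asymm`. -/
theorem image_ww (h : TV δ N) (hδ : Lim δ) {α : Ordinal.{0}} (hα : α ≤ δ) (hI : IH N α)
    (y z : ZFSet.{0}) (hy : N y) (hz : N z) (hyα : y ∈ Lev α) (hzα : z ∈ Lev α) :
    WW y z ↔ WW (coll N y) (coll N z) := by
  refine ⟨cond6_fwd h hδ hI hy hz hyα hzα, fun hW => ?_⟩
  by_cases he : y = z
  · rw [he] at hW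
    exact absurd hW (WW_irrefl _)
  · rcases WW_total ⟨α, hyα⟩ ⟨α, hzα⟩ he with h1 | h1
    · exact h1
    · exact (WW_asymm hW (cond6_fwd h hδ hI hz hy hzα hyα h1)).elim

end Pool.Agent.H94L
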