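import Pool.Agent.Lib.H94L.CondD

/-! # Chunk COND7 -/

set_option autoImplicit false

open Set Function

namespace Pool.Agent.H94L

variable {δ : Ordinal.{0}} {N : ZFSet.{0} → Prop}

/-- transfer of satisfaction of `enumF k` at `(z, p, q)` -/
theorem cond7_sat (h : TV δ N) (hδ : Lim δ) {β ε : Ordinal.{0}} (hβ : β < δ) (hNβ : N (Lev β))
    (hK : KK N β ε) (k : ℕ) {z p q : ZFSet.{0}} (hz : N z) (hp : N p) (hq : N q)
    (hzβ : z ∈ Lev β) (hpβ : p ∈ Lev β) (hqβ : q ∈ Lev β) :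
    SatL (cl (Lev β)) (enumF k) (asg z p q) ↔
      SatL (cl (Lev ε)) (enumF k) (asg (coll N z) (coll N p) (coll N q)) := by
  rw [← cond3_asg]
  refine KK.sat h hδ hβ hNβ hK (enumF k) (asg z p q) fun i => ?_
  exact asg_mem (A := fun x => N x ∧ x ∈ Lev β) ⟨hz, hzβ⟩ ⟨hp, hpβ⟩ ⟨hq, hqβ⟩ i

/-- Chunk COND7: `TT` is preserved.  By `TT_iff`; `→`: `u = Lev β` with `β < α` and `KK.sat`.
`←`: `coll N u = Lev ε'` is in `Lev ε`, so `ε' < ε` and `ε' = ε β` for some `β < α`, so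
`coll N u = coll N (Lev β)` and `u = Lev β` (`TV.coll_inj`); `n = nat k` by `TV.coll_nat`;
`coll N ∘ asg z p q = asg (coll N z) (coll N p) (coll N q)`. -/
theorem image_tt (h : TV δ N) (hδ : Lim δ) {α : Ordinal.{0}} (hα : α ≤ δ) (hI : IH N α)
    {ε : Ordinal.{0}} (hε : ∀ w, w ∈ Lev ε ↔ ∃ y, N y ∧ y ∈ Lev α ∧ w = coll N y)
    (hε' : ∀ ε' < ε, ∃ β < α, N (Lev β) ∧ KK N β ε')
    (u n p q z : ZFSet.{0}) (hu : N u) (hn : N n) (hp : N p) (hq : N q) (hz : N z)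
    (hu' : u ∈ Lev α) (hn' : n ∈ Lev α) (hp' : p ∈ Lev α) (hq' : q ∈ Lev α) (hz' : z ∈ Lev α) :
    TT u n p q z ↔ TT (coll N u) (coll N n) (coll N p) (coll N q) (coll N z) := by
  rw [TT_iff, TT_iff]
  constructor
  · rintro ⟨β, k, rfl, rfl, hpβ, hqβ, hs⟩
    have hβα : β < α := lt_of_Lev_mem hu'
    have hβ : β < δ := hβα.trans_le hα
    obtain ⟨ε1, hK, -⟩ := hI β hβα hu
    refine ⟨ε1, k, hK.coll_Lev, h.coll_nat hδ k, (hK.onto _).2 ⟨p, hp, hpβ, rfl⟩,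
      (hK.onto _).2 ⟨q, hq, hqβ, rfl⟩, ?_⟩
    rcases hs with rfl | ⟨hzβ, hs⟩
    · exact Or.inl hK.coll_Lev
    · exact Or.inr ⟨(hK.onto _).2 ⟨z, hz, hzβ, rfl⟩,
        (cond7_sat h hδ hβ hu hK k hz hp hq hzβ hpβ hqβ).1 hs⟩
  · rintro ⟨ε1, k, e1, e2, hpe, hqe, hs⟩
    have h1 : Lev ε1 ∈ Lev ε := by
      rw [← e1, hε]
      exact ⟨u, hu, hu', rfl⟩
    obtain ⟨β, hβα, hNβ, hK⟩ := hε' ε1 (lt_of_Lev_mem h1)
    have hβ : β < δ := hβα.trans_le hα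
    obtain rfl : u = Lev β := h.coll_inj hu hNβ (e1.trans hK.coll_Lev.symm)
    obtain rfl : n = nat k := h.coll_inj hn (h.natN hδ k) (e2.trans (h.coll_nat hδ k).symm)
    have hpβ : p ∈ Lev β := (hK.mem_iff h hp).1 hpe
    have hqβ : q ∈ Lev β := (hK.mem_iff h hq).1 hqe
    refine ⟨β, k, rfl, rfl, hpβ, hqβ, ?_⟩
    rcases hs with hs | ⟨hze, hs⟩
    · exact Or.inl (h.coll_inj hz hNβ (hs.trans hK.coll_Lev.symm))
    · have hzβ : z ∈ Lev β := (hK.mem_iff h hz).1 hze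
      exact Or.inr ⟨hzβ, (cond7_sat h hδ hβ hNβ hK k hz hp hq hzβ hpβ hqβ).2 hs⟩

end Pool.Agent.H94L
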