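import Pool.Agent.Lib.H94L.CondE
import Pool.Agent.Lib.H94L.CondF
import Pool.Agent.Lib.H94L.CondG

/-! # Condensation -/

set_option autoImplicit false

open Set Function

namespace Pool.Agent.H94L

variable {δ : Ordinal.{0}} {N : ZFSet.{0} → Prop}

/-- the inductive step -/
theorem exists_KK (h : TV δ N) (hδ : Lim δ) {α : Ordinal.{0}} (hα : α ≤ δ) (hI : IH N α) :
    ∃ ε, KK N α ε ∧ ∀ ε' < ε, ∃ β < α, N (Lev β) ∧ KK N β ε' := by
  obtain ⟨ε, h1, h2⟩ := exists_image h hδ hα hI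
  exact ⟨ε, ⟨h1, fun y z => image_ww h hδ hα hI y z,
    fun u n p q z => image_tt h hδ hα hI h1 h2 u n p q z⟩, h2⟩

theorem ih_all (h : TV δ N) (hδ : Lim δ) : IH N δ := by
  intro α
  induction α using WellFoundedLT.induction with
  | ind α ih =>
    intro hα _
    exact exists_KK h hδ hα.le fun β hβ hN => ih β hβ (hβ.trans hα) hN

/-- **Condensation.** -/
theorem condensation (hδ : Lim δ) (h : TV δ N) :
    ∃ γ, (∀ w, w ∈ Lev γ ↔ ∃ y, N y ∧ w = coll N y) ∧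
      ∀ (φ : LF) (v : ℕ → ZFSet.{0}), (∀ i, N (v i)) →
        (SatL (cl (Lev γ)) φ (coll N ∘ v) ↔ SatL (cl (Lev δ)) φ v) := by
  obtain ⟨γ, hK, -⟩ := exists_KK h hδ le_rfl (ih_all h hδ)
  have h1 : ∀ w, w ∈ Lev γ ↔ ∃ y, N y ∧ w = coll N y := by
    intro w
    rw [hK.onto]
    exact ⟨fun ⟨y, hy, _, hw⟩ => ⟨y, hy, hw⟩, fun ⟨y, hy, hw⟩ => ⟨y, hy, h.sub y hy, hw⟩⟩
  refine ⟨γ, h1, fun φ v hv => ?_⟩
  rw [← h.elem φ v hv]
  refine (SatL_iso (A := N) (B := cl (Lev γ)) (coll N) ?_ ?_ ?_ ?_ ?_ ?_ φ v hv).symm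
  · intro x hx
    exact (h1 _).2 ⟨x, hx, rfl⟩
  · intro y hy
    exact (h1 y).1 hy
  · intro x y hx hy he
    exact h.coll_inj hx hy he
  · intro x y hx hy
    exact (h.coll_mem hx hy).symm
  · intro x y hx hy
    exact hK.ww x y hx hy (h.sub x hx) (h.sub y hy)
  · intro u n p q z hu hn hp hq hz
    exact hK.tt u n p q z hu hn hp hq hz (h.sub u hu) (h.sub n hn) (h.sub p hp) (h.sub q hq)
      (h.sub z hz)

end Pool.Agent.H94L
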