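import Pool.Agent.Lib.H94L.Dfn

/-!
# Chunk ISO: isomorphic classes satisfy the same formulas

Induction on the formula.  `π ∘ update v i a = update (π ∘ v) i (π a)` is `Function.comp_update`.
-/

set_option autoImplicit false

open Set Function

namespace Pool.Agent.H94L

theorem SatL_iso {A B : ZFSet.{0} → Prop} (π : ZFSet.{0} → ZFSet.{0})
    (hAB : ∀ x, A x → B (π x)) (hsurj : ∀ y, B y → ∃ x, A x ∧ y = π x)
    (hinj : ∀ x y, A x → A y → π x = π y → x = y)
    (hmem : ∀ x y, A x → A y → (x ∈ y ↔ π x ∈ π y))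
    (hW : ∀ x y, A x → A y → (WW x y ↔ WW (π x) (π y)))
    (hT : ∀ u n p q z, A u → A n → A p → A q → A z →
      (TT u n p q z ↔ TT (π u) (π n) (π p) (π q) (π z)))
    (φ : LF) (v : ℕ → ZFSet.{0}) (hv : ∀ i, A (v i)) : SatL A φ v ↔ SatL B φ (π ∘ v) := by
  unfold SatL
  induction φ generalizing v with
  | mem i j => exact hmem _ _ (hv i) (hv j)
  | eq i j => exact ⟨fun h => congrArg π h, fun h => hinj _ _ (hv i) (hv j) h⟩
  | tr i j k l m => exact hT _ _ _ _ _ (hv i) (hv j) (hv k) (hv l) (hv m)
  | wo i j => exact hW _ _ (hv i) (hv j)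
  | bot => exact Iff.rfl
  | imp φ ψ ih ih' => exact imp_congr (ih v hv) (ih' v hv)
  | all i φ ih =>
    have key : ∀ a, A a →
        (RSat TT WW A φ (update v i a) ↔ RSat TT WW B φ (update (π ∘ v) i (π a))) := by
      intro a ha
      have h1 : ∀ j, A (update v i a j) := by
        intro j
        by_cases h : j = i
        · rw [h, update_self]; exact ha
        · rw [update_of_ne h]; exact hv j
      have h2 := ih _ h1
      rwa [Function.comp_update] at h2
    constructor
    · intro h b hb
      obtain ⟨a, ha, rfl⟩ := hsurj b hb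
      exact (key a ha).1 (h a ha)
    · intro h a ha
      exact (key a ha).2 (h (π a) (hAB a ha))

end Pool.Agent.H94L
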