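import Pool.Agent.Lib.H94L.TV

/-!
# Chunk CO2: the Mostowski collapse of a Tarski-Vaught substructure
-/

set_option autoImplicit false

open Set Function

namespace Pool.Agent.H94L

variable {δ : Ordinal.{0}} {N : ZFSet.{0} → Prop}

/-- extensionality of `N` -/
theorem TV.ext (h : TV δ N) {x y : ZFSet.{0}} (hx : N x) (hy : N y)
    (hz : ∀ z, N z → (z ∈ x ↔ z ∈ y)) : x = y := by
  by_contra hne
  have h1 : ∃ z, ¬ (z ∈ x ↔ z ∈ y) := by
    by_contra hc
    push Not at hc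
    exact hne (ZFSet.ext fun z => by by_contra hz'; exact absurd (hc z) (by tauto))
  obtain ⟨z, hz1⟩ := h1
  have hzδ : z ∈ Lev δ := by
    by_cases hzx : z ∈ x
    · exact Lev_trans (h.sub x hx) hzx
    · have hzy : z ∈ y := by tauto
      exact Lev_trans (h.sub y hy) hzy
  obtain ⟨a, ha, hna⟩ := h.wit (fun w => ¬ (w 0 ∈ w 1 ↔ w 0 ∈ w 2))
    (((Dfn.mem 0 1).iff (Dfn.mem 0 2)).not) (cons x fun _ => y) (cons_mem hx fun _ => hy)
    ⟨z, hzδ, hz1⟩
  exact hna (hz a ha)

theorem TV.coll_inj (h : TV δ N) {x y : ZFSet.{0}} (hx : N x) (hy : N y)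
    (he : coll N x = coll N y) : x = y := by
  induction x using ZFSet.inductionOn generalizing y with
  | _ x ih =>
    refine h.ext hx hy fun z hz => ?_
    constructor
    · intro hzx
      have h1 : coll N z ∈ coll N y := by
        rw [← he]
        exact mem_coll.2 ⟨z, hzx, hz, rfl⟩
      obtain ⟨z', h2, h3, h4⟩ := mem_coll.1 h1
      rw [ih z hzx hz h3 h4]
      exact h2
    · intro hzy
      have h1 : coll N z ∈ coll N x := by
        rw [he]
        exact mem_coll.2 ⟨z, hzy, hz, rfl⟩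
      obtain ⟨z', h2, h3, h4⟩ := mem_coll.1 h1
      rw [← ih z' h2 h3 hz h4.symm]
      exact h2

theorem TV.coll_mem (h : TV δ N) {x y : ZFSet.{0}} (hx : N x) (hy : N y) :
    coll N x ∈ coll N y ↔ x ∈ y := by
  constructor
  · intro h1
    obtain ⟨z, h2, h3, h4⟩ := mem_coll.1 h1
    rw [h.coll_inj hx h3 h4]
    exact h2
  · intro h1
    exact mem_coll.2 ⟨x, h1, hx, rfl⟩

/-- the collapse is the identity on the subsets of a transitive set contained in `N` -/
theorem coll_eq_self {c : ZFSet.{0}} (hc : ∀ y ∈ c, ∀ z ∈ y, z ∈ c) (hcN : ∀ z ∈ c, N z)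
    {a : ZFSet.{0}} (ha : ∀ z ∈ a, z ∈ c) : coll N a = a := by
  induction a using ZFSet.inductionOn with
  | _ a ih =>
    ext w
    rw [mem_coll]
    constructor
    · rintro ⟨z, h1, -, rfl⟩
      rw [ih z h1 (hc z (ha z h1))]
      exact h1
    · intro hw
      exact ⟨w, hw, hcN w (ha w hw), (ih w hw (hc w (ha w hw))).symm⟩

theorem co2_mem_nat {k : ℕ} {y : ZFSet.{0}} (hy : y ∈ nat k) : ∃ l, l < k ∧ y = nat l := by
  induction k with
  | zero => exact absurd hy (ZFSet.notMem_empty y)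
  | succ k ih =>
    have hy' : y ∈ insert (nat k) (nat k) := hy
    rw [ZFSet.mem_insert_iff] at hy'
    rcases hy' with rfl | hy'
    · exact ⟨k, Nat.lt_succ_self k, rfl⟩
    · obtain ⟨l, hl, e⟩ := ih hy'
      exact ⟨l, hl.trans (Nat.lt_succ_self k), e⟩

theorem TV.coll_nat (h : TV δ N) (hδ : Lim δ) (k : ℕ) : coll N (nat k) = nat k := by
  refine coll_eq_self (c := nat k) ?_ ?_ (fun z hz => hz)
  · intro y hy z hz
    obtain ⟨l, hl, rfl⟩ := co2_mem_nat hy
    obtain ⟨j, hj, rfl⟩ := co2_mem_nat hz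
    exact nat_mem_nat.2 (hj.trans hl)
  · intro z hz
    obtain ⟨l, hl, rfl⟩ := co2_mem_nat hz
    exact h.natN hδ l

theorem TV.coll_upair (h : TV δ N) {x y : ZFSet.{0}} (hx : N x) (hy : N y) :
    coll N {x, y} = {coll N x, coll N y} := by
  ext w
  rw [mem_coll, ZFSet.mem_pair]
  constructor
  · rintro ⟨z, h1, -, rfl⟩
    rw [ZFSet.mem_pair] at h1
    rcases h1 with rfl | rfl
    · exact Or.inl rfl
    · exact Or.inr rfl
  · rintro (rfl | rfl)
    · exact ⟨x, ZFSet.mem_pair.2 (Or.inl rfl), hx, rfl⟩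
    · exact ⟨y, ZFSet.mem_pair.2 (Or.inr rfl), hy, rfl⟩

theorem TV.coll_pair (h : TV δ N) (hδ : Lim δ) {x y : ZFSet.{0}} (hx : N x) (hy : N y) :
    coll N (ZFSet.pair x y) = ZFSet.pair (coll N x) (coll N y) := by
  have e : ∀ a : ZFSet.{0}, ({a} : ZFSet.{0}) = {a, a} := fun a => (ZFSet.pair_eq_singleton a).symm
  have hxx : N {x} := by
    rw [e]
    exact h.upair hδ hx hx
  unfold ZFSet.pair
  rw [h.coll_upair hxx (h.upair hδ hx hy), h.coll_upair hx hy]
  congr 1
  rw [e, h.coll_upair hx hx, ← e]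

end Pool.Agent.H94L
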