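import Pool.Agent.Lib.H94L.CodeD
import Pool.Agent.Lib.H94L.Iso
import Pool.Agent.Lib.H94L.TVc

/-!
# Condensation: definition of `KK`, chunk COND1

`N` is a Tarski-Vaught substructure of `Lev δ`, `δ` limit, `coll N` its collapse.
`KK N α ε`: the collapse maps `N ∩ Lev α` onto `Lev ε` and preserves `WW` and `TT` there.
-/

set_option autoImplicit false

open Set Function

namespace Pool.Agent.H94L

/-- The collapse maps `N ∩ Lev α` isomorphically onto `Lev ε`. -/
structure KK (N : ZFSet.{0} → Prop) (α ε : Ordinal.{0}) : Prop where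
  onto : ∀ w, w ∈ Lev ε ↔ ∃ y, N y ∧ y ∈ Lev α ∧ w = coll N y
  ww : ∀ y z, N y → N z → y ∈ Lev α → z ∈ Lev α → (WW y z ↔ WW (coll N y) (coll N z))
  tt : ∀ u n p q z, N u → N n → N p → N q → N z → u ∈ Lev α → n ∈ Lev α → p ∈ Lev α →
    q ∈ Lev α → z ∈ Lev α →
      (TT u n p q z ↔ TT (coll N u) (coll N n) (coll N p) (coll N q) (coll N z))

variable {δ : Ordinal.{0}} {N : ZFSet.{0} → Prop}

/-- Chunk COND1.  Every element `y` of `N` has its stage and its least code in `N`.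
`y ∈ Lev δ` has a stage `β < δ` (`LL.exists_stage`, `HasStage.lt`) and a least code (`WW_good`,
`Good.exists_least`).  `Lev β` is the unique `u ∈ Lev δ` with `StageS u y`, so `N (Lev β)` by `TV.uniq` and
`dfn_stageS`; then `p`, then `q` are unique with `LeastS` (`Good.least_unique`), `nat k` is in `N` by
`TV.natN`. -/
theorem TV.stage (h : TV δ N) (hδ : Lim δ) {y : ZFSet.{0}} (hy : N y) :
    ∃ β k p q, β < δ ∧ N (Lev β) ∧ HasStage β y ∧ LeastCode β k p q y ∧ N p ∧ N q := by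
  have hyδ : y ∈ Lev δ := h.sub y hy
  obtain ⟨β, hst⟩ := LL.exists_stage ⟨δ, hyδ⟩
  have hβ : β < δ := hst.lt hyδ hδ.1
  have hNβ : N (Lev β) := by
    refine h.uniq (Q := fun w => StageS (w 0) (w 1)) (dfn_stageS hδ) (v := fun _ => y)
      (fun _ => hy) (Lev_mem_Lev.2 hβ) ((stageS_iff _ _).2 ⟨β, rfl, hst⟩) ?_
    intro b _ hb
    obtain ⟨γ, rfl, hγ⟩ := (stageS_iff _ _).1 hb
    rw [show γ = β from hγ.unique hst]
  obtain ⟨k, p, q, hlc⟩ := (WW_good β).exists_least hst.1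
  have hk : N (nat k) := h.natN hδ k
  have hpδ : p ∈ Lev δ := Lev_mono hβ.le hlc.1.1
  have hqδ : q ∈ Lev δ := Lev_mono hβ.le hlc.1.2.1
  have huniq : ∀ p' q', LeastS (Lev β) (nat k) p' q' y → p' = p ∧ q' = q := by
    intro p' q' hl
    obtain ⟨γ, k', e1, e2, hl'⟩ := (leastS_iff _ _ _ _ _).1 hl
    obtain rfl := Lev_inj e1
    obtain rfl := nat_inj e2
    have := (WW_good β).least_unique hl' hlc
    exact this.2
  have hls : LeastS (Lev β) (nat k) p q y := (leastS_iff _ _ _ _ _).2 ⟨β, k, rfl, rfl, hlc⟩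
  have hNp : N p := by
    refine h.uniq (Q := fun w => ∃ a, cl (Lev δ) a ∧
        (fun w' : ℕ → ZFSet.{0} => LeastS (w' 2) (w' 3) (w' 1) (w' 0) (w' 4)) (cons a w))
      (Dfn.ex ((dfn_leastS hδ).comp5 2 3 1 0 4))
      (v := cons (Lev β) (cons (nat k) fun _ => y))
      (cons_mem hNβ (cons_mem hk fun _ => hy)) hpδ ⟨q, hqδ, hls⟩ ?_
    rintro b _ ⟨a, _, hb⟩
    exact (huniq b a hb).1
  have hNq : N q := by
    refine h.uniq (Q := fun w => LeastS (w 1) (w 2) (w 3) (w 0) (w 4))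
      ((dfn_leastS hδ).comp5 1 2 3 0 4)
      (v := cons (Lev β) (cons (nat k) (cons p fun _ => y)))
      (cons_mem hNβ (cons_mem hk (cons_mem hNp fun _ => hy))) hqδ hls ?_
    intro b _ hb
    exact (huniq p b hb).2
  exact ⟨β, k, p, q, hβ, hNβ, hst, hlc, hNp, hNq⟩

end Pool.Agent.H94L
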