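import Pool.Agent.Lib.H94L.CondA

/-! # Chunk COND2 -/

set_option autoImplicit false

open Set Function

namespace Pool.Agent.H94L

variable {δ : Ordinal.{0}} {N : ZFSet.{0} → Prop}

/-- Chunk COND2 (a).  A set with a code in `N` is in `N` (`TV.uniq`, `dfn_codeS`, `codeS_iff`). -/
theorem TV.mem_of_code (h : TV δ N) (hδ : Lim δ) {β : Ordinal.{0}} (hβ : β < δ)
    (hNβ : N (Lev β)) {k : ℕ} {p q y : ZFSet.{0}} (hp : N p) (hq : N q)
    (hc : IsCode β k p q y) : N y := by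
  refine h.uniq (Q := fun w => CodeS (w 1) (w 2) (w 3) (w 4) (w 0))
    ((dfn_codeS hδ).comp5 1 2 3 4 0)
    (v := cons (Lev β) (cons (nat k) (cons p fun _ => q)))
    (cons_mem hNβ (cons_mem (h.natN hδ k) (cons_mem hp fun _ => hq))) (hc.mem_Lev hβ)
    ((codeS_iff _ _ _ _ _).2 ⟨β, k, rfl, rfl, hc⟩) ?_
  intro b _ hb
  obtain ⟨γ, k', e1, e2, hc'⟩ := (codeS_iff _ _ _ _ _).1 hb
  obtain rfl := Lev_inj e1
  obtain rfl := nat_inj e2
  exact hc'.ext hc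

/-- Chunk COND2 (b). -/
theorem KK.coll_Lev {β ε : Ordinal.{0}} (hK : KK N β ε) : coll N (Lev β) = Lev ε := by
  ext w
  rw [mem_coll, hK.onto]
  constructor
  · rintro ⟨z, h1, h2, h3⟩
    exact ⟨z, h2, h1, h3⟩
  · rintro ⟨z, h1, h2, h3⟩
    exact ⟨z, h2, h1, h3⟩

/-- Chunk COND2 (c): `KK` transfers satisfaction (`TV.satIn`, `SatL_iso`). -/
theorem KK.sat (h : TV δ N) (hδ : Lim δ) {β ε : Ordinal.{0}} (hβ : β < δ) (hNβ : N (Lev β))
    (hK : KK N β ε) (φ : LF) (v : ℕ → ZFSet.{0}) (hv : ∀ i, N (v i) ∧ v i ∈ Lev β) :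
    SatL (cl (Lev β)) φ v ↔ SatL (cl (Lev ε)) φ (coll N ∘ v) := by
  refine (h.satIn hδ hNβ φ v hv).trans ?_
  refine SatL_iso (A := fun y => N y ∧ y ∈ Lev β) (B := cl (Lev ε)) (coll N) ?_ ?_ ?_ ?_ ?_ ?_ φ v hv
  · intro x hx
    exact (hK.onto _).2 ⟨x, hx.1, hx.2, rfl⟩
  · intro y hy
    obtain ⟨x, h1, h2, h3⟩ := (hK.onto y).1 hy
    exact ⟨x, ⟨h1, h2⟩, h3⟩
  · intro x y hx hy he
    exact h.coll_inj hx.1 hy.1 he
  · intro x y hx hy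
    exact (h.coll_mem hx.1 hy.1).symm
  · intro x y hx hy
    exact hK.ww x y hx.1 hy.1 hx.2 hy.2
  · intro u n p q z hu hn hp hq hz
    exact hK.tt u n p q z hu.1 hn.1 hp.1 hq.1 hz.1 hu.2 hn.2 hp.2 hq.2 hz.2

/-- Chunk COND2 (d): elements of `N` whose collapse is in `Lev ε` are in `Lev β`. -/
theorem KK.mem_iff (h : TV δ N) {β ε : Ordinal.{0}} (hK : KK N β ε) {y : ZFSet.{0}} (hy : N y) :
    coll N y ∈ Lev ε ↔ y ∈ Lev β := by
  constructor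
  · intro h1
    obtain ⟨y', h2, h3, h4⟩ := (hK.onto _).1 h1
    rw [h.coll_inj hy h2 h4]
    exact h3
  · intro h1
    exact (hK.onto _).2 ⟨y, hy, h1, rfl⟩

end Pool.Agent.H94L
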