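import Pool.Agent.Lib.H94L.CondB

/-! # Chunk COND3 -/

set_option autoImplicit false

open Set Function

namespace Pool.Agent.H94L

variable {δ : Ordinal.{0}} {N : ZFSet.{0} → Prop}

theorem cond3_asg (N : ZFSet.{0} → Prop) (z p q : ZFSet.{0}) :
    coll N ∘ asg z p q = asg (coll N z) (coll N p) (coll N q) := by
  funext i
  simp only [Function.comp_apply, asg]
  split_ifs <;> rfl

theorem cond3_fwd (h : TV δ N) (hδ : Lim δ) {β ε : Ordinal.{0}} (hβ : β < δ) (hNβ : N (Lev β))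
    (hK : KK N β ε) {k : ℕ} {p q y : ZFSet.{0}} (hp : N p) (hq : N q)
    (hpβ : p ∈ Lev β) (hqβ : q ∈ Lev β) (hc : IsCode β k p q y) :
    IsCode ε k (coll N p) (coll N q) (coll N y) := by
  have key : ∀ z, N z → z ∈ Lev β → (SatL (cl (Lev β)) (enumF k) (asg z p q) ↔
      SatL (cl (Lev ε)) (enumF k) (asg (coll N z) (coll N p) (coll N q))) := by
    intro z hz hzβ
    rw [← cond3_asg]
    refine KK.sat h hδ hβ hNβ hK (enumF k) (asg z p q) fun i => ?_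
    exact asg_mem (A := fun x => N x ∧ x ∈ Lev β) ⟨hz, hzβ⟩ ⟨hp, hpβ⟩ ⟨hq, hqβ⟩ i
  refine ⟨(hK.onto _).2 ⟨p, hp, hpβ, rfl⟩, (hK.onto _).2 ⟨q, hq, hqβ, rfl⟩, fun w => ?_⟩
  rw [mem_coll]
  constructor
  · rintro ⟨z, hzy, hz, rfl⟩
    obtain ⟨hzβ, hs⟩ := (hc.2.2 z).1 hzy
    exact ⟨(hK.onto _).2 ⟨z, hz, hzβ, rfl⟩, (key z hz hzβ).1 hs⟩
  · rintro ⟨hw, hs⟩
    obtain ⟨z, hz, hzβ, rfl⟩ := (hK.onto w).1 hw
    exact ⟨z, (hc.2.2 z).2 ⟨hzβ, (key z hz hzβ).2 hs⟩, hz, rfl⟩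

/-- Chunk COND3: transfer of codes.  For `←` the set with code `(k, p, q)` at `Lev β` is in `N` and has
the same elements in `N` as `y` (`TV.ext`). -/
theorem KK.code (h : TV δ N) (hδ : Lim δ) {β ε : Ordinal.{0}} (hβ : β < δ) (hNβ : N (Lev β))
    (hK : KK N β ε) {k : ℕ} {p q y : ZFSet.{0}} (hy : N y) (hp : N p) (hq : N q)
    (hpβ : p ∈ Lev β) (hqβ : q ∈ Lev β) :
    IsCode β k p q y ↔ IsCode ε k (coll N p) (coll N q) (coll N y) := by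
  refine ⟨cond3_fwd h hδ hβ hNβ hK hp hq hpβ hqβ, fun hc => ?_⟩
  let y' : ZFSet.{0} := ZFSet.sep (fun z => SatL (cl (Lev β)) (enumF k) (asg z p q)) (Lev β)
  have hy' : IsCode β k p q y' := ⟨hpβ, hqβ, fun z => ZFSet.mem_sep⟩
  have hN' : N y' := h.mem_of_code hδ hβ hNβ hp hq hy'
  have hc' := cond3_fwd h hδ hβ hNβ hK hp hq hpβ hqβ hy'
  have he : coll N y = coll N y' := by
    ext w
    rw [hc.2.2 w, hc'.2.2 w]
  rw [h.coll_inj hy hN' he]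
  exact hy'

end Pool.Agent.H94L
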