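import Pool.Agent.Lib.H94L.CondC

/-! # Chunk COND4 -/

set_option autoImplicit false

open Set Function

namespace Pool.Agent.H94L

variable {δ : Ordinal.{0}} {N : ZFSet.{0} → Prop}

/-- Chunk COND4 (a): transfer of the stage.  If `coll N y` had a code at `ε' < ε` it would be in `Lev ε`,
so `y ∈ Lev β`, so `y = ∅` and `β = 0` (`mem_Lev`); then `Lev ε = {∅}`, so `ε = 0`. -/
theorem KK.stage (h : TV δ N) (hδ : Lim δ) {β ε : Ordinal.{0}} (hβ : β < δ) (hNβ : N (Lev β))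
    (hK : KK N β ε) {y : ZFSet.{0}} (hy : N y) (hs : HasStage β y) :
    HasStage ε (coll N y) := by
  obtain ⟨β', k, p, q, -, -, hs', hc, hp, hq⟩ := h.stage hδ hy
  obtain rfl : β = β' := hs.unique hs'
  refine ⟨⟨k, coll N p, coll N q,
    (hK.code h hδ hβ hNβ hy hp hq hc.1.1 hc.1.2.1).1 hc.1⟩, ?_⟩
  rintro γ hγ ⟨k', p', q', hc'⟩
  have h1 : coll N y ∈ Lev ε := hc'.mem_Lev hγ
  rw [hK.mem_iff h hy, mem_Lev] at h1
  rcases h1 with rfl | ⟨γ', hγ', hc2⟩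
  · rcases eq_or_ne β 0 with rfl | h0
    · have h2 : Lev γ ∈ Lev ε := Lev_mem_Lev.2 hγ
      rw [hK.onto] at h2
      obtain ⟨z, -, hz0, hzw⟩ := h2
      rw [mem_Lev_zero] at hz0
      subst hz0
      have h3 : ∅ ∈ coll N ∅ := hzw ▸ empty_mem_Lev γ
      rw [mem_coll] at h3
      obtain ⟨z, hz, -⟩ := h3
      exact ZFSet.notMem_empty z hz
    · obtain ⟨k2, hk2⟩ := exists_code_empty 0
      exact hs.2 0 (pos_iff_ne_zero.2 h0) ⟨k2, ∅, ∅, (stg_isCode _ _ _ _ _).1 hk2⟩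
  · exact hs.2 γ' hγ' hc2

/-- Chunk COND4 (b): transfer of the least code. -/
theorem KK.least (h : TV δ N) (hδ : Lim δ) {β ε : Ordinal.{0}} (hβ : β < δ) (hNβ : N (Lev β))
    (hK : KK N β ε) {k : ℕ} {p q y : ZFSet.{0}} (hy : N y) (hp : N p) (hq : N q)
    (hc : LeastCode β k p q y) : LeastCode ε k (coll N p) (coll N q) (coll N y) := by
  have hpβ := hc.1.1
  have hqβ := hc.1.2.1
  refine ⟨(hK.code h hδ hβ hNβ hy hp hq hpβ hqβ).1 hc.1, ?_⟩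
  intro k' p' q' hc' hl
  obtain ⟨p1, hp1, hp1β, rfl⟩ := (hK.onto _).1 hc'.1
  obtain ⟨q1, hq1, hq1β, rfl⟩ := (hK.onto _).1 hc'.2.1
  refine hc.2 k' p1 q1 ((hK.code h hδ hβ hNβ hy hp1 hq1 hp1β hq1β).2 hc') ?_
  rcases hl with hl | ⟨hk, hl⟩
  · exact Or.inl hl
  · refine Or.inr ⟨hk, ?_⟩
    rcases hl with hl | ⟨hpe, hl⟩
    · exact Or.inl ((hK.ww p1 p hp1 hp hp1β hpβ).2 hl)
    · exact Or.inr ⟨h.coll_inj hp1 hp hpe, (hK.ww q1 q hq1 hq hq1β hqβ).2 hl⟩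

/-- Chunk COND4 (c): monotonicity. -/
theorem KK.lt {β β' ε ε' : Ordinal.{0}} (h : TV δ N) (hNβ : N (Lev β)) (hlt : β < β')
    (hK : KK N β ε) (hK' : KK N β' ε') : ε < ε' := by
  rw [← Lev_mem_Lev, hK'.onto]
  exact ⟨Lev β, hNβ, Lev_mem_Lev.2 hlt, hK.coll_Lev.symm⟩

/-- The induction hypothesis below `α`: every level in `N` below `α` is mapped to a level, and the
levels below its image are images of levels in `N`. -/
def IH (N : ZFSet.{0} → Prop) (α : Ordinal.{0}) : Prop :=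
  ∀ β < α, N (Lev β) → ∃ ε, KK N β ε ∧ ∀ ε' < ε, ∃ β' < β, N (Lev β') ∧ KK N β' ε'

end Pool.Agent.H94L
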