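import Pool.Agent.Lib.H94L.CondD

/-! # Chunk COND5 -/

set_option autoImplicit false

open Set Function

namespace Pool.Agent.H94L

variable {δ : Ordinal.{0}} {N : ZFSet.{0} → Prop}

/-- the images of the levels below `α` are bounded -/
theorem cond5_bdd (N : ZFSet.{0} → Prop) (α : Ordinal.{0}) :
    ∃ e : Ordinal.{0}, ∀ β < α, ∀ ε₀, KK N β ε₀ → ε₀ < e := by
  classical
  let g : Set.Iio α → Ordinal.{0} := fun β =>
    if h : ∃ ε₀, KK N β.1 ε₀ then Classical.choose h else 0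
  obtain ⟨B, hB⟩ : BddAbove (Set.range g) := Ordinal.bddAbove_of_small
  refine ⟨Order.succ B, fun β hβ ε₀ hK => ?_⟩
  have h1 : ∃ ε₀, KK N β ε₀ := ⟨ε₀, hK⟩
  have h2 : g ⟨β, hβ⟩ = ε₀ := by
    have h3 : KK N β (g ⟨β, hβ⟩) := by
      simp only [g, dif_pos h1]
      exact Classical.choose_spec h1
    exact Lev_inj (h3.coll_Lev.symm.trans hK.coll_Lev)
  exact Order.lt_succ_iff.2 (h2 ▸ hB ⟨⟨β, hβ⟩, rfl⟩)

/-- Chunk COND5: the image of `N ∩ Lev α`.  Let `ε` be the least ordinal above all `ε β`, `β < α`,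
`N (Lev β)`.  Every `ε' < ε` is an `ε β`: `ε' ≤ ε β` for some `β`, use the second part of `IH`.
`⊆`: `y ∈ N ∩ Lev α` is `∅` or has its stage `β < α` in `N` and then `coll N y` has a code at `ε β < ε`
(`TV.stage`, `KK.least`).  `⊇`: `w ∈ Lev ε` is `∅` or has a code `(k, p', q')` at some `ε' = ε β`; `p' = coll N p`,
`q' = coll N q`; the set `y` with code `(k, p, q)` at `Lev β` is in `N`, in `Lev α`, and `coll N y = w`. -/
theorem exists_image (h : TV δ N) (hδ : Lim δ) {α : Ordinal.{0}} (hα : α ≤ δ) (hI : IH N α) :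
    ∃ ε, (∀ w, w ∈ Lev ε ↔ ∃ y, N y ∧ y ∈ Lev α ∧ w = coll N y) ∧
      ∀ ε' < ε, ∃ β < α, N (Lev β) ∧ KK N β ε' := by
  have hne : ({e : Ordinal.{0} | ∀ β < α, N (Lev β) → ∀ ε₀, KK N β ε₀ → ε₀ < e}).Nonempty := by
    obtain ⟨e, he⟩ := cond5_bdd N α
    exact ⟨e, fun β hβ _ => he β hβ⟩
  obtain ⟨ε, hε, hmin⟩ := WellFounded.has_min (wellFounded_lt (α := Ordinal.{0})) _ hne
  have hsnd : ∀ ε' < ε, ∃ β < α, N (Lev β) ∧ KK N β ε' := by
    intro ε' hε'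
    have h1 : ¬ ∀ β < α, N (Lev β) → ∀ ε₀, KK N β ε₀ → ε₀ < ε' := fun hh => hmin ε' hh hε'
    push Not at h1
    obtain ⟨β, hβ, hNβ, ε₀, hK, hle⟩ := h1
    rcases hle.eq_or_lt with rfl | hlt
    · exact ⟨β, hβ, hNβ, hK⟩
    · obtain ⟨ε₁, hK₁, h2⟩ := hI β hβ hNβ
      obtain rfl : ε₁ = ε₀ := Lev_inj (hK₁.coll_Lev.symm.trans hK.coll_Lev)
      obtain ⟨β', hβ', hN', hK'⟩ := h2 ε' hlt
      exact ⟨β', hβ'.trans hβ, hN', hK'⟩
  have hcoll0 : coll N ∅ = ∅ := by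
    ext w
    rw [mem_coll]
    constructor
    · rintro ⟨z, hz, -⟩
      exact absurd hz (ZFSet.notMem_empty z)
    · intro hw
      exact absurd hw (ZFSet.notMem_empty w)
  refine ⟨ε, fun w => ⟨fun hw => ?_, ?_⟩, hsnd⟩
  · rw [mem_Lev] at hw
    rcases hw with rfl | ⟨ε', hε', k, p', q', hc⟩
    · exact ⟨∅, h.natN hδ 0, empty_mem_Lev α, hcoll0.symm⟩
    · obtain ⟨β, hβ, hNβ, hK⟩ := hsnd ε' hε'
      obtain ⟨p, hp, hpβ, rfl⟩ := (hK.onto p').1 hc.1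
      obtain ⟨q, hq, hqβ, rfl⟩ := (hK.onto q').1 hc.2.1
      have hβδ : β < δ := hβ.trans_le hα
      let y : ZFSet.{0} := ZFSet.sep (fun z => SatL (cl (Lev β)) (enumF k) (asg z p q)) (Lev β)
      have hy : IsCode β k p q y := ⟨hpβ, hqβ, fun z => ZFSet.mem_sep⟩
      have hNy : N y := h.mem_of_code hδ hβδ hNβ hp hq hy
      refine ⟨y, hNy, hy.mem_Lev hβ, ?_⟩
      exact hc.ext ((hK.code h hδ hβδ hNβ hNy hp hq hpβ hqβ).1 hy)
  · rintro ⟨y, hNy, hyα, rfl⟩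
    rcases eq_or_ne α 0 with rfl | h0
    · rw [mem_Lev_zero] at hyα
      rw [hyα, hcoll0]
      exact empty_mem_Lev ε
    · obtain ⟨β, k, p, q, hβδ, hNβ, hst, hlc, hp, hq⟩ := h.stage hδ hNy
      have hβ : β < α := hst.lt hyα (pos_iff_ne_zero.2 h0)
      obtain ⟨ε₀, hK, -⟩ := hI β hβ hNβ
      have hc := (hK.code h hδ hβδ hNβ hNy hp hq hlc.1.1 hlc.1.2.1).1 hlc.1
      exact hc.mem_Lev (hε β hβ hNβ ε₀ hK)

end Pool.Agent.H94L
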