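import Pool.Agent.Lib.H5Z.Defs

/-!
# The generalized continuum hypothesis as a first-order sentence
-/

set_option autoImplicit false

open Set Function

namespace Pool.Agent.H94L

open Pool.Agent.H5Z (Rel IsPair IsInd)

/-- The generalized continuum hypothesis in the structure `(M, E)`, in Sierpinski's form: for every
transitive inductive set `x` which is closed under unordered pairs (all infinite cardinals are
cardinalities of such sets) there is a set `w` of pairs such that for any two different subsets
`a`, `b` of `x` one of `(a, b)`, `(b, a)` is in `w`, and for every subset `a` of `x` the subsets `b`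
of `x` with `(b, a) ∈ w` can be mapped injectively into `x`. -/
def GCHIn {M : Type*} (E : M → M → Prop) : Prop :=
  ∀ x : M,
    (∀ y z, E y x → E z y → E z x) →
    (∀ y z p, E y x → E z x → (∀ u, E u p ↔ u = y ∨ u = z) → E p x) →
    IsInd E x →
    ∃ w : M,
      (∀ a b, (∀ u, E u a → E u x) → (∀ u, E u b → E u x) → a ≠ b →
        Rel E a b w ∨ Rel E b a w) ∧
      ∀ a, (∀ u, E u a → E u x) → ∃ f : M,
        (∀ b, (∀ u, E u b → E u x) → Rel E b a w → ∃ c, E c x ∧ Rel E b c f) ∧
        ∀ b b' c, Rel E b c f → Rel E b' c f → b = b'

end Pool.Agent.H94L
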