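import Pool.Agent.Lib.H94L.Face

/-!
# Chunk DFN1: finite dependence and substitution

`SatL_congr`: a formula depends only on the variables below `bd`.  Induction on the formula.

`SatL_sub`: capture avoiding substitution of variables by variables.  In the case `all i φ` the bound
variable becomes `fresh f φ.bd`, a number larger than all `f j` for `j < φ.bd`, so that
`(update v (fresh ..) a) ∘ (update f i (fresh ..))` and `update (v ∘ f) i a` agree below `φ.bd`;
use `SatL_congr`.
-/

set_option autoImplicit false

open Set Function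

namespace Pool.Agent.H94L

/-- all free and bound variables of the formula are smaller than `bd` -/
def LF.bd : LF → ℕ
  | LF.mem i j => max i j + 1
  | LF.eq i j => max i j + 1
  | LF.tr i j k l m => max (max (max i j) (max k l)) m + 1
  | LF.wo i j => max i j + 1
  | LF.bot => 0
  | LF.imp φ ψ => max φ.bd ψ.bd
  | LF.all i φ => max (i + 1) φ.bd

theorem SatL_congr (A : ZFSet.{0} → Prop) (φ : LF) (v v' : ℕ → ZFSet.{0})
    (h : ∀ i < φ.bd, v i = v' i) : SatL A φ v ↔ SatL A φ v' := by
  induction φ generalizing v v' with
  | mem i j =>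
    have hi : v i = v' i := h i (by simp only [LF.bd]; omega)
    have hj : v j = v' j := h j (by simp only [LF.bd]; omega)
    simp only [SatL, RSat, hi, hj]
  | eq i j =>
    have hi : v i = v' i := h i (by simp only [LF.bd]; omega)
    have hj : v j = v' j := h j (by simp only [LF.bd]; omega)
    simp only [SatL, RSat, hi, hj]
  | tr i j k l m =>
    have hi : v i = v' i := h i (by simp only [LF.bd]; omega)
    have hj : v j = v' j := h j (by simp only [LF.bd]; omega)
    have hk : v k = v' k := h k (by simp only [LF.bd]; omega)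
    have hl : v l = v' l := h l (by simp only [LF.bd]; omega)
    have hm : v m = v' m := h m (by simp only [LF.bd]; omega)
    simp only [SatL, RSat, hi, hj, hk, hl, hm]
  | wo i j =>
    have hi : v i = v' i := h i (by simp only [LF.bd]; omega)
    have hj : v j = v' j := h j (by simp only [LF.bd]; omega)
    simp only [SatL, RSat, hi, hj]
  | bot => exact Iff.rfl
  | imp φ ψ ih ih' =>
    refine imp_congr (ih v v' fun i hi => h i ?_) (ih' v v' fun i hi => h i ?_)
    · exact lt_of_lt_of_le hi (le_max_left _ _)
    · exact lt_of_lt_of_le hi (le_max_right _ _)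
  | all i φ ih =>
    refine forall_congr' fun a => imp_congr_right fun _ => ih _ _ fun j hj => ?_
    by_cases hji : j = i
    · rw [hji, update_self, update_self]
    · rw [update_of_ne hji, update_of_ne hji]
      exact h j (lt_of_lt_of_le hj (le_max_right _ _))

/-- a number larger than `f j` for all `j < n` -/
def fresh (f : ℕ → ℕ) : ℕ → ℕ
  | 0 => 0
  | n + 1 => max (fresh f n) (f n + 1)

theorem dfn1_lt_fresh (f : ℕ → ℕ) (n j : ℕ) (h : j < n) : f j < fresh f n := by
  induction n with
  | zero => exact absurd h (Nat.not_lt_zero j)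
  | succ n ih =>
    rcases Nat.lt_succ_iff_lt_or_eq.1 h with h | h
    · exact lt_of_lt_of_le (ih h) (le_max_left _ _)
    · rw [h]
      exact lt_of_lt_of_le (Nat.lt_succ_self _) (le_max_right _ _)

/-- substitution of variables -/
def LF.sub : LF → (ℕ → ℕ) → LF
  | LF.mem i j, f => LF.mem (f i) (f j)
  | LF.eq i j, f => LF.eq (f i) (f j)
  | LF.tr i j k l m, f => LF.tr (f i) (f j) (f k) (f l) (f m)
  | LF.wo i j, f => LF.wo (f i) (f j)
  | LF.bot, _ => LF.bot
  | LF.imp φ ψ, f => LF.imp (φ.sub f) (ψ.sub f)
  | LF.all i φ, f => LF.all (fresh f φ.bd) (φ.sub (update f i (fresh f φ.bd)))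

theorem SatL_sub (A : ZFSet.{0} → Prop) (φ : LF) (f : ℕ → ℕ) (v : ℕ → ZFSet.{0}) :
    SatL A (φ.sub f) v ↔ SatL A φ (v ∘ f) := by
  induction φ generalizing f v with
  | mem i j => exact Iff.rfl
  | eq i j => exact Iff.rfl
  | tr i j k l m => exact Iff.rfl
  | wo i j => exact Iff.rfl
  | bot => exact Iff.rfl
  | imp φ ψ ih ih' => exact imp_congr (ih f v) (ih' f v)
  | all i φ ih =>
    refine forall_congr' fun a => imp_congr_right fun _ => ?_
    refine (ih _ _).trans (SatL_congr A φ _ _ fun j hj => ?_)
    by_cases hji : j = i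
    · subst hji
      simp only [comp_apply, update_self]
    · simp only [comp_apply, update_of_ne hji]
      rw [update_of_ne (dfn1_lt_fresh f _ j hj).ne]

end Pool.Agent.H94L
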