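import Pool.Agent.Lib.H94L.Dfn

/-!
# Chunk DFN2: definable predicates and their closure properties

`Dfn A P`: the predicate `P` on assignments is defined over `(A, ∈, TT, WW)` by a formula.
Quantifiers are in de Bruijn style: `cons a v` is `0 ↦ a`, `n + 1 ↦ v n`.  For a literal such as `3`,
`cons a v 3` is `v 2` by definition, so concrete instances are proved by terms like
`Dfn.ex ((Dfn.mem 0 4).and (Dfn.eq 0 1))`.

Proofs: `all`: let `φ` define `P`, let `m` be larger than `φ.bd`; then `fun v => ∀ a, A a → P (cons a v)`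
is defined by `LF.all m (φ.sub g)` with `g 0 = m`, `g (n + 1) = n` (use `SatL_sub`, `SatL_congr`: the
assignment `(update v m a) ∘ g` agrees with `cons a v` below `m`).  `ex` from `all` and `not`.
`comp` is `SatL_sub`.
-/

set_option autoImplicit false

open Set Function

namespace Pool.Agent.H94L

/-- `0 ↦ a`, `n + 1 ↦ v n` -/
def cons (a : ZFSet.{0}) (v : ℕ → ZFSet.{0}) : ℕ → ZFSet.{0}
  | 0 => a
  | n + 1 => v n

theorem asg_eq (z p q : ZFSet.{0}) : asg z p q = cons z (cons p fun _ => q) := by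
  funext i
  match i with
  | 0 => rfl
  | 1 => rfl
  | n + 2 => rfl

theorem cons_mem {A : ZFSet.{0} → Prop} {a : ZFSet.{0}} {v : ℕ → ZFSet.{0}} (ha : A a)
    (hv : ∀ i, A (v i)) (i : ℕ) : A (cons a v i) := by
  cases i with
  | zero => exact ha
  | succ n => exact hv n

/-- `P` is definable over `(A, ∈, TT, WW)` without parameters -/
def Dfn (A : ZFSet.{0} → Prop) (P : (ℕ → ZFSet.{0}) → Prop) : Prop :=
  ∃ φ : LF, ∀ v, (∀ i, A (v i)) → (P v ↔ SatL A φ v)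

section

variable {A : ZFSet.{0} → Prop} {P Q : (ℕ → ZFSet.{0}) → Prop}

theorem Dfn.congr (hQ : Dfn A Q) (h : ∀ v, (∀ i, A (v i)) → (P v ↔ Q v)) : Dfn A P := by
  obtain ⟨φ, hφ⟩ := hQ
  exact ⟨φ, fun v hv => (h v hv).trans (hφ v hv)⟩

theorem Dfn.sat (φ : LF) : Dfn A (SatL A φ) := ⟨φ, fun _ _ => Iff.rfl⟩

theorem Dfn.mem (i j : ℕ) : Dfn A fun v => v i ∈ v j := ⟨LF.mem i j, fun _ _ => Iff.rfl⟩

theorem Dfn.eq (i j : ℕ) : Dfn A fun v => v i = v j := ⟨LF.eq i j, fun _ _ => Iff.rfl⟩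

theorem Dfn.tt (i j k l m : ℕ) : Dfn A fun v => TT (v i) (v j) (v k) (v l) (v m) :=
  ⟨LF.tr i j k l m, fun _ _ => Iff.rfl⟩

theorem Dfn.ww (i j : ℕ) : Dfn A fun v => WW (v i) (v j) := ⟨LF.wo i j, fun _ _ => Iff.rfl⟩

theorem Dfn.imp (hP : Dfn A P) (hQ : Dfn A Q) : Dfn A fun v => P v → Q v := by
  obtain ⟨φ, hφ⟩ := hP
  obtain ⟨ψ, hψ⟩ := hQ
  exact ⟨LF.imp φ ψ, fun v hv => imp_congr (hφ v hv) (hψ v hv)⟩

theorem Dfn.const (p : Prop) : Dfn A fun _ => p := by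
  by_cases hp : p
  · exact ⟨LF.imp LF.bot LF.bot, fun v _ => ⟨fun _ h => h, fun _ => hp⟩⟩
  · exact ⟨LF.bot, fun v _ => ⟨fun h => hp h, fun h => h.elim⟩⟩

theorem Dfn.not (hP : Dfn A P) : Dfn A fun v => ¬ P v :=
  (hP.imp (Dfn.const False)).congr fun _ _ => Iff.rfl

theorem Dfn.and (hP : Dfn A P) (hQ : Dfn A Q) : Dfn A fun v => P v ∧ Q v :=
  (hP.imp hQ.not).not.congr fun v _ => by tauto

theorem Dfn.or (hP : Dfn A P) (hQ : Dfn A Q) : Dfn A fun v => P v ∨ Q v :=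
  (hP.not.imp hQ).congr fun v _ => by tauto

theorem Dfn.iff (hP : Dfn A P) (hQ : Dfn A Q) : Dfn A fun v => (P v ↔ Q v) :=
  ((hP.imp hQ).and (hQ.imp hP)).congr fun v _ => by tauto

theorem Dfn.all (hP : Dfn A P) : Dfn A fun v => ∀ a, A a → P (cons a v) := by
  obtain ⟨φ, hφ⟩ := hP
  set g : ℕ → ℕ := fun n => if n = 0 then φ.bd else n - 1 with hg
  refine ⟨LF.all φ.bd (φ.sub g), fun v hv => ?_⟩
  refine forall_congr' fun a => imp_congr_right fun ha => ?_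
  rw [hφ _ (cons_mem ha hv)]
  refine ((SatL_sub A φ g _).trans (SatL_congr A φ _ _ fun j hj => ?_)).symm
  cases j with
  | zero => simp [hg, cons]
  | succ n =>
    have h1 : g (n + 1) = n := by simp [hg]
    rw [comp_apply, h1, update_of_ne (by omega)]
    rfl

theorem Dfn.ex (hP : Dfn A P) : Dfn A fun v => ∃ a, A a ∧ P (cons a v) :=
  hP.not.all.not.congr fun v _ => by
    constructor
    · rintro ⟨a, ha, h⟩ h'
      exact h' a ha h
    · intro h
      by_contra hc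
      exact h fun a ha h' => hc ⟨a, ha, h'⟩

theorem Dfn.comp (hP : Dfn A P) (f : ℕ → ℕ) : Dfn A fun v => P (v ∘ f) := by
  obtain ⟨φ, hφ⟩ := hP
  exact ⟨φ.sub f, fun v hv => (hφ _ fun i => hv (f i)).trans (SatL_sub A φ f v).symm⟩

theorem Dfn.comp1 {R : ZFSet.{0} → Prop} (h : Dfn A fun v => R (v 0)) (i : ℕ) :
    Dfn A fun v => R (v i) := h.comp fun _ => i

theorem Dfn.comp2 {R : ZFSet.{0} → ZFSet.{0} → Prop} (h : Dfn A fun v => R (v 0) (v 1))
    (i j : ℕ) : Dfn A fun v => R (v i) (v j) :=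
  h.comp fun n => match n with
    | 0 => i
    | _ => j

theorem Dfn.comp3 {R : ZFSet.{0} → ZFSet.{0} → ZFSet.{0} → Prop}
    (h : Dfn A fun v => R (v 0) (v 1) (v 2)) (i j k : ℕ) :
    Dfn A fun v => R (v i) (v j) (v k) :=
  h.comp fun n => match n with
    | 0 => i
    | 1 => j
    | _ => k

theorem Dfn.comp4 {R : ZFSet.{0} → ZFSet.{0} → ZFSet.{0} → ZFSet.{0} → Prop}
    (h : Dfn A fun v => R (v 0) (v 1) (v 2) (v 3)) (i j k l : ℕ) :
    Dfn A fun v => R (v i) (v j) (v k) (v l) :=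
  h.comp fun n => match n with
    | 0 => i
    | 1 => j
    | 2 => k
    | _ => l

theorem Dfn.comp5 {R : ZFSet.{0} → ZFSet.{0} → ZFSet.{0} → ZFSet.{0} → ZFSet.{0} → Prop}
    (h : Dfn A fun v => R (v 0) (v 1) (v 2) (v 3) (v 4)) (i j k l m : ℕ) :
    Dfn A fun v => R (v i) (v j) (v k) (v l) (v m) :=
  h.comp fun n => match n with
    | 0 => i
    | 1 => j
    | 2 => k
    | 3 => l
    | _ => m

/-- finite dependence -/
theorem Dfn.finite (hP : Dfn A P) : ∃ m, ∀ v v', (∀ i, A (v i)) → (∀ i, A (v' i)) →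
    (∀ i < m, v i = v' i) → (P v ↔ P v') := by
  obtain ⟨φ, hφ⟩ := hP
  exact ⟨φ.bd, fun v w hv hw h => (hφ v hv).trans ((SatL_congr A φ v w h).trans (hφ w hw).symm)⟩

/-- test of the de Bruijn style -/
theorem Dfn.sub : Dfn A fun v => ∀ a, A a → a ∈ v 0 → a ∈ v 1 :=
  Dfn.all ((Dfn.mem 0 1).imp (Dfn.mem 0 2))

end

end Pool.Agent.H94L
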