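import Pool.Agent.Lib.H94L.Nice

/-!
# Chunk DFN3: definability of elementary notions over nice classes

All are bounded statements about transitive classes closed under pairs and successors; use
`Dfn.congr` and the closure properties, e.g. `v 0 = {v 1, v 2}` iff
`∀ z, A z → (z ∈ v 0 ↔ z = v 1 ∨ z = v 2)`.
-/

set_option autoImplicit false

open Set Function

namespace Pool.Agent.H94L

variable {A : ZFSet.{0} → Prop}

theorem Nice.dfn_sub (hA : Nice A) (i j : ℕ) : Dfn A fun v => v i ⊆ v j := by
  refine (Dfn.all ((Dfn.mem 0 (i + 1)).imp (Dfn.mem 0 (j + 1)))).congr ?_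
  intro v hv
  constructor
  · intro h a _ ha
    exact h ha
  · intro h a ha
    exact h a (hA.trans _ _ (hv i) ha) ha

theorem Nice.dfn_empty (hA : Nice A) (i : ℕ) : Dfn A fun v => v i = ∅ := by
  refine (Dfn.all (Dfn.mem 0 (i + 1)).not).congr ?_
  intro v hv
  constructor
  · intro h a _ ha
    have ha' : a ∈ v i := ha
    rw [h] at ha'
    exact ZFSet.notMem_empty _ ha'
  · intro h
    rw [ZFSet.eq_empty]
    intro a ha
    exact h a (hA.trans _ _ (hv i) ha) ha

theorem Nice.dfn_upair (hA : Nice A) (i j k : ℕ) :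
    Dfn A fun v => v i = ({v j, v k} : ZFSet.{0}) := by
  refine (Dfn.all ((Dfn.mem 0 (i + 1)).iff ((Dfn.eq 0 (j + 1)).or (Dfn.eq 0 (k + 1))))).congr ?_
  intro v hv
  constructor
  · intro h a _
    show a ∈ v i ↔ a = v j ∨ a = v k
    rw [h, ZFSet.mem_pair]
  · intro h
    ext a
    rw [ZFSet.mem_pair]
    constructor
    · intro ha
      exact (h a (hA.trans _ _ (hv i) ha)).1 ha
    · intro ha
      refine (h a ?_).2 ha
      rcases ha with rfl | rfl
      · exact hv j
      · exact hv k

theorem Nice.dfn_pair (hA : Nice A) (i j k : ℕ) : Dfn A fun v => v i = ZFSet.pair (v j) (v k) := by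
  refine (Dfn.ex ((hA.dfn_upair 0 (j + 1) (j + 1)).and (Dfn.ex
    ((hA.dfn_upair 0 (j + 2) (k + 2)).and (hA.dfn_upair (i + 2) 1 0))))).congr ?_
  intro v hv
  have hs : ∀ x : ZFSet.{0}, ({x, x} : ZFSet.{0}) = {x} := by
    intro x
    ext z
    simp
  constructor
  · intro h
    refine ⟨{v j, v j}, hA.pair _ _ (hv j) (hv j), rfl, {v j, v k}, hA.pair _ _ (hv j) (hv k),
      rfl, ?_⟩
    show v i = ({{v j, v j}, {v j, v k}} : ZFSet.{0})
    rw [h, hs, ZFSet.pair]
  · rintro ⟨a, ha, h1, b, hb, h2, h3⟩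
    have h1' : a = ({v j, v j} : ZFSet.{0}) := h1
    have h2' : b = ({v j, v k} : ZFSet.{0}) := h2
    have h3' : v i = ({a, b} : ZFSet.{0}) := h3
    show v i = ZFSet.pair (v j) (v k)
    rw [h3', h1', h2', hs, ZFSet.pair]

theorem Nice.dfn_pair_mem (hA : Nice A) (i j k : ℕ) :
    Dfn A fun v => ZFSet.pair (v i) (v j) ∈ v k := by
  refine (Dfn.ex ((hA.dfn_pair 0 (i + 1) (j + 1)).and (Dfn.mem 0 (k + 1)))).congr ?_
  intro v hv
  constructor
  · intro h
    exact ⟨_, hA.trans _ _ (hv k) h, rfl, h⟩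
  · rintro ⟨a, ha, h1, h2⟩
    have h1' : a = ZFSet.pair (v i) (v j) := h1
    have h2' : a ∈ v k := h2
    rw [h1'] at h2'
    exact h2'

theorem Nice.dfn_succ (hA : Nice A) (i j : ℕ) : Dfn A fun v => v i = insert (v j) (v j) := by
  refine (Dfn.all ((Dfn.mem 0 (i + 1)).iff ((Dfn.eq 0 (j + 1)).or (Dfn.mem 0 (j + 1))))).congr ?_
  intro v hv
  constructor
  · intro h a _
    show a ∈ v i ↔ a = v j ∨ a ∈ v j
    rw [h, ZFSet.mem_insert_iff]
  · intro h
    ext a
    rw [ZFSet.mem_insert_iff]
    constructor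
    · intro ha
      exact (h a (hA.trans _ _ (hv i) ha)).1 ha
    · intro ha
      refine (h a ?_).2 ha
      rcases ha with rfl | ha
      · exact hv j
      · exact hA.trans _ _ (hv j) ha

theorem Nice.dfn_nat (hA : Nice A) (i k : ℕ) : Dfn A fun v => v i = nat k := by
  induction k generalizing i with
  | zero => exact hA.dfn_empty i
  | succ k ih =>
    refine (Dfn.ex ((ih 0).and (hA.dfn_succ (i + 1) 0))).congr ?_
    intro v hv
    constructor
    · intro h
      exact ⟨nat k, hA.natMem k, rfl, h⟩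
    · rintro ⟨a, ha, h1, h2⟩
      have h1' : a = nat k := h1
      have h2' : v i = insert a a := h2
      rw [h1'] at h2'
      exact h2'

/-- bounded universal quantifier -/
theorem Nice.dfn_ball (hA : Nice A) {P : (ℕ → ZFSet.{0}) → Prop} (hP : Dfn A P) (i : ℕ) :
    Dfn A fun v => ∀ a ∈ v i, P (cons a v) := by
  refine (Dfn.all ((Dfn.mem 0 (i + 1)).imp hP)).congr ?_
  intro v hv
  constructor
  · intro h a _ ha
    exact h a ha
  · intro h a ha
    exact h a (hA.trans _ _ (hv i) ha) ha

/-- bounded existential quantifier -/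
theorem Nice.dfn_bex (hA : Nice A) {P : (ℕ → ZFSet.{0}) → Prop} (hP : Dfn A P) (i : ℕ) :
    Dfn A fun v => ∃ a ∈ v i, P (cons a v) := by
  refine (Dfn.ex ((Dfn.mem 0 (i + 1)).and hP)).congr ?_
  intro v hv
  constructor
  · rintro ⟨a, ha, h⟩
    exact ⟨a, hA.trans _ _ (hv i) ha, ha, h⟩
  · rintro ⟨a, _, ha, h⟩
    exact ⟨a, ha, h⟩

/-- Satisfaction in an element of the class is definable: for every formula `φ` with
`φ.bd ≤ m`, satisfaction of `φ` in the set `v m` is definable over `A`.
Induction on `φ` (relativization of the quantifiers to `v m`); the statement is for all `m ≥ φ.bd`. -/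
theorem Nice.dfn_satIn (hA : Nice A) (φ : LF) (m : ℕ) (hm : φ.bd ≤ m) :
    Dfn A fun v => SatL (cl (v m)) φ v := by
  induction φ with
  | mem i j => exact Dfn.mem i j
  | eq i j => exact Dfn.eq i j
  | tr i j k l n => exact Dfn.tt i j k l n
  | wo i j => exact Dfn.ww i j
  | bot => exact Dfn.const False
  | imp φ ψ ih ih' =>
    have h1 : φ.bd ≤ m := le_trans (le_max_left _ _) hm
    have h2 : ψ.bd ≤ m := le_trans (le_max_right _ _) hm
    exact (ih h1).imp (ih' h2)
  | all i φ ih =>
    have h1 : φ.bd ≤ m := le_trans (le_max_right _ _) hm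
    have h2 : i + 1 ≤ m := le_trans (le_max_left _ _) hm
    refine (hA.dfn_ball ((ih h1).comp fun j => if j = i then 0 else j + 1) m).congr ?_
    intro v hv
    have key : ∀ a : ZFSet.{0}, (cons a v ∘ fun j => if j = i then 0 else j + 1) =
        update v i a := by
      intro a
      funext j
      show cons a v (if j = i then 0 else j + 1) = update v i a j
      by_cases h : j = i
      · rw [if_pos h, h, update_self]
        rfl
      · rw [if_neg h, update_of_ne h]
        rfl
    have hmi : m ≠ i := by omega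
    show (∀ a, cl (v m) a → SatL (cl (v m)) φ (update v i a)) ↔
      ∀ a ∈ v m, SatL (cl ((cons a v ∘ fun j => if j = i then 0 else j + 1) m)) φ
        (cons a v ∘ fun j => if j = i then 0 else j + 1)
    refine forall_congr' fun a => imp_congr_right fun ha => ?_
    rw [key a, update_of_ne hmi]

end Pool.Agent.H94L
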