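import Pool.Agent.Lib.H94L.Base

/-!
# Interface of the hierarchy: the equations of `Lev`, `TT`, `WW`
-/

set_option autoImplicit false

open Set Function

namespace Pool.Agent.H94L

theorem Stg.mem_defs (s : Stg) (x : ZFSet.{0}) : x ∈ s.defs ↔ ∃ k p q, s.IsCode k p q x := by
  unfold Stg.defs
  rw [ZFSet.mem_sep, ZFSet.mem_powerset]
  refine ⟨fun h => h.2, fun h => ⟨?_, h⟩⟩
  obtain ⟨k, p, q, hc⟩ := h
  intro z hz
  exact ((hc.2.2 z).1 hz).1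

theorem stg_lev (β : Ordinal.{0}) : (stg β).lev = mkLev β fun γ => stg γ.1 := by
  rw [stg_eq]; rfl

theorem mem_lev_stg (β : Ordinal.{0}) (x : ZFSet.{0}) :
    x ∈ Lev β ↔ x = ∅ ∨ ∃ γ < β, ∃ k p q, (stg γ).IsCode k p q x := by
  unfold Lev
  rw [stg_lev]
  unfold mkLev
  rw [ZFSet.mem_union, ZFSet.mem_singleton, ZFSet.mem_iUnion]
  refine or_congr Iff.rfl ?_
  constructor
  · rintro ⟨γ, h⟩
    exact ⟨γ.1, γ.2, ((stg γ.1).mem_defs x).1 h⟩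
  · rintro ⟨γ, hγ, h⟩
    exact ⟨⟨γ, hγ⟩, ((stg γ).mem_defs x).2 h⟩

theorem empty_mem_Lev (β : Ordinal.{0}) : ∅ ∈ Lev β := (mem_lev_stg β ∅).2 (Or.inl rfl)

theorem Lev_mono {γ β : Ordinal.{0}} (h : γ ≤ β) {x : ZFSet.{0}} (hx : x ∈ Lev γ) :
    x ∈ Lev β := by
  rw [mem_lev_stg] at hx ⊢
  rcases hx with hx | ⟨δ, hδ, hx⟩
  · exact Or.inl hx
  · exact Or.inr ⟨δ, hδ.trans_le h, hx⟩

theorem code_of_stg {γ : Ordinal.{0}} {k : ℕ} {p q x : ZFSet.{0}} (h : (stg γ).IsCode k p q x)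
    {β : Ordinal.{0}} (hβ : γ < β) : x ∈ Lev β :=
  (mem_lev_stg β x).2 (Or.inr ⟨γ, hβ, k, p, q, h⟩)

/-- the stages are transitive -/
theorem Lev_trans {β : Ordinal.{0}} {x z : ZFSet.{0}} (hx : x ∈ Lev β) (hz : z ∈ x) :
    z ∈ Lev β := by
  rw [mem_lev_stg] at hx
  rcases hx with rfl | ⟨δ, hδ, k, p, q, hx⟩
  · exact absurd hz (ZFSet.notMem_empty z)
  · exact Lev_mono hδ.le ((hx.2.2 z).1 hz).1

theorem stg_tr (γ : Ordinal.{0}) (k : ℕ) (p q z : ZFSet.{0}) : (stg γ).tr k p q z ↔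
    RSat (mkT γ fun δ => stg δ.1) (mkW γ fun δ => stg δ.1) (cl (Lev γ)) (enumF k) (asg z p q) := by
  have h : cl (Lev γ) = fun y => y ∈ mkLev γ fun δ => stg δ.1 := by
    funext y
    unfold cl Lev
    rw [stg_lev]
  rw [h]
  conv_lhs => rw [stg_eq]
  rfl

theorem stg_wo (γ : Ordinal.{0}) : (stg γ).wo = mkW γ fun δ => stg δ.1 := by
  rw [stg_eq]; rfl

/-- every stage is coded by a tautology -/
theorem exists_code_Lev (γ : Ordinal.{0}) : ∃ k, (stg γ).IsCode k ∅ ∅ (Lev γ) := by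
  obtain ⟨k, hk⟩ := enumF_surj (LF.imp LF.bot LF.bot)
  refine ⟨k, empty_mem_Lev γ, empty_mem_Lev γ, fun z => ?_⟩
  rw [stg_tr, hk]
  exact ⟨fun h => ⟨h, fun h' => h'⟩, fun h => h.1⟩

theorem exists_code_empty (γ : Ordinal.{0}) : ∃ k, (stg γ).IsCode k ∅ ∅ ∅ := by
  obtain ⟨k, hk⟩ := enumF_surj LF.bot
  refine ⟨k, empty_mem_Lev γ, empty_mem_Lev γ, fun z => ?_⟩
  rw [stg_tr, hk]
  exact ⟨fun h => absurd h (ZFSet.notMem_empty z), fun h => h.2.elim⟩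

theorem Lev_mem_of_lt {γ β : Ordinal.{0}} (h : γ < β) : Lev γ ∈ Lev β := by
  obtain ⟨k, hk⟩ := exists_code_Lev γ
  exact code_of_stg hk h

theorem lt_of_Lev_mem {γ β : Ordinal.{0}} (h : Lev γ ∈ Lev β) : γ < β := by
  by_contra hc
  exact ZFSet.mem_irrefl _ (Lev_mono (not_lt.1 hc) h)

theorem Lev_mem_Lev {γ β : Ordinal.{0}} : Lev γ ∈ Lev β ↔ γ < β :=
  ⟨lt_of_Lev_mem, Lev_mem_of_lt⟩

theorem Lev_inj {γ β : Ordinal.{0}} (h : Lev γ = Lev β) : γ = β := by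
  rcases lt_trichotomy γ β with hl | hl | hl
  · have := Lev_mem_of_lt hl
    rw [h] at this
    exact absurd this (ZFSet.mem_irrefl _)
  · exact hl
  · have := Lev_mem_of_lt hl
    rw [h] at this
    exact absurd this (ZFSet.mem_irrefl _)

/-- satisfaction depends only on the restriction of the predicates to the class -/
theorem RSat_congr_pred {T T' : ZFSet.{0} → ZFSet.{0} → ZFSet.{0} → ZFSet.{0} → ZFSet.{0} → Prop}
    {W W' : ZFSet.{0} → ZFSet.{0} → Prop} {A : ZFSet.{0} → Prop}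
    (hT : ∀ u n p q z, A u → A n → A p → A q → A z → (T u n p q z ↔ T' u n p q z))
    (hW : ∀ x y, A x → A y → (W x y ↔ W' x y)) (φ : LF) (v : ℕ → ZFSet.{0})
    (hv : ∀ i, A (v i)) : RSat T W A φ v ↔ RSat T' W' A φ v := by
  induction φ generalizing v with
  | mem i j => exact Iff.rfl
  | eq i j => exact Iff.rfl
  | tr i j k l m => exact hT _ _ _ _ _ (hv _) (hv _) (hv _) (hv _) (hv _)
  | wo i j => exact hW _ _ (hv _) (hv _)
  | bot => exact Iff.rfl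
  | imp φ ψ ih ih' => exact imp_congr (ih v hv) (ih' v hv)
  | all i φ ih =>
    refine forall_congr' fun a => imp_congr_right fun ha => ih _ fun j => ?_
    by_cases h : j = i
    · rw [h, update_self]; exact ha
    · rw [update_of_ne h]; exact hv j

theorem asg_mem {A : ZFSet.{0} → Prop} {z p q : ZFSet.{0}} (hz : A z) (hp : A p) (hq : A q)
    (i : ℕ) : A (asg z p q i) := by
  unfold asg
  split_ifs
  · exact hz
  · exact hp
  · exact hq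

theorem mkT_iff (γ : Ordinal.{0}) (u n p q z : ZFSet.{0}) (hu : u ∈ Lev γ) :
    mkT γ (fun δ => stg δ.1) u n p q z ↔ TT u n p q z := by
  constructor
  · rintro ⟨δ, rfl, k, h⟩
    exact ⟨δ.1, rfl, k, h⟩
  · rintro ⟨δ, rfl, k, h⟩
    exact ⟨⟨δ, lt_of_Lev_mem hu⟩, rfl, k, h⟩

/-- the stage in terms of `stg` -/
def StgStage (γ : Ordinal.{0}) (x : ZFSet.{0}) : Prop :=
  (∃ k p q, (stg γ).IsCode k p q x) ∧ ∀ δ < γ, ¬ ∃ k p q, (stg δ).IsCode k p q x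

theorem StgStage.lt {γ δ : Ordinal.{0}} {x : ZFSet.{0}} (h : StgStage δ x) (hx : x ∈ Lev γ)
    (hγ : 0 < γ) : δ < γ := by
  rw [mem_lev_stg] at hx
  rcases hx with rfl | ⟨ε, hε, hx⟩
  · by_contra hc
    refine h.2 0 (hγ.trans_le (not_lt.1 hc)) ?_
    obtain ⟨k, hk⟩ := exists_code_empty 0
    exact ⟨k, ∅, ∅, hk⟩
  · by_contra hc
    exact h.2 ε (hε.trans_le (not_lt.1 hc)) hx

theorem mkStage_iff (γ : Ordinal.{0}) (δ : Set.Iio γ) (x : ZFSet.{0}) :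
    mkStage γ (fun δ => stg δ.1) δ x ↔ StgStage δ.1 x := by
  constructor
  · rintro ⟨h, h'⟩
    exact ⟨h, fun ε hε => h' ⟨ε, lt_trans hε δ.2⟩ hε⟩
  · rintro ⟨h, h'⟩
    exact ⟨h, fun ε hε => h' ε.1 hε⟩

theorem WW_irrefl (x : ZFSet.{0}) : ¬ WW x x := by
  rintro ⟨γ, γ', h, h', h3⟩
  have hγ : γ = γ' := by
    rcases lt_trichotomy γ γ' with hl | hl | hl
    · exact absurd h.1 (h'.2 γ hl)
    · exact hl
    · exact absurd h'.1 (h.2 γ' hl)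
  subst hγ
  rcases h3 with h3 | ⟨-, k, p, q, k', p', q', hc, hc', hl⟩
  · exact lt_irrefl _ h3
  · exact hc'.2 k p q hc.1 hl

theorem mem_Lev_zero (x : ZFSet.{0}) : x ∈ Lev 0 ↔ x = ∅ := by
  rw [mem_lev_stg]
  constructor
  · rintro (h | ⟨γ, hγ, -⟩)
    · exact h
    · exact absurd hγ (not_lt.2 zero_le)
  · exact Or.inl

theorem mkW_iff (γ : Ordinal.{0}) (x y : ZFSet.{0}) (hx : x ∈ Lev γ) (hy : y ∈ Lev γ) :
    mkW γ (fun δ => stg δ.1) x y ↔ WW x y := by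
  constructor
  · rintro ⟨δ, δ', h, h', h3⟩
    refine ⟨δ.1, δ'.1, (mkStage_iff γ δ x).1 h, (mkStage_iff γ δ' y).1 h', ?_⟩
    rcases h3 with h3 | ⟨h3, h4⟩
    · exact Or.inl h3
    · exact Or.inr ⟨congrArg Subtype.val h3, h4⟩
  · intro hW
    rcases eq_or_ne γ 0 with rfl | h0
    · rw [mem_Lev_zero] at hx hy
      rw [hx, hy] at hW
      exact absurd hW (WW_irrefl _)
    · obtain ⟨δ, δ', h, h', h3⟩ := hW
      have hγ : 0 < γ := pos_iff_ne_zero.2 h0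
      have h1 : δ < γ := StgStage.lt h hx hγ
      have h2 : δ' < γ := StgStage.lt h' hy hγ
      refine ⟨⟨δ, h1⟩, ⟨δ', h2⟩, (mkStage_iff γ ⟨δ, h1⟩ x).2 h, (mkStage_iff γ ⟨δ', h2⟩ y).2 h', ?_⟩
      rcases h3 with h3 | ⟨h3, h4⟩
      · exact Or.inl h3
      · exact Or.inr ⟨Subtype.ext h3, h4⟩

/-- coherence of the truth predicate -/
theorem stg_tr_iff (γ : Ordinal.{0}) (k : ℕ) (p q z : ZFSet.{0}) (hp : p ∈ Lev γ) (hq : q ∈ Lev γ)
    (hz : z ∈ Lev γ) : (stg γ).tr k p q z ↔ SatL (cl (Lev γ)) (enumF k) (asg z p q) := by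
  rw [stg_tr]
  unfold SatL
  refine RSat_congr_pred ?_ ?_ _ _ ?_
  · intro u n p q z hu _ _ _ _
    exact mkT_iff γ u n p q z hu
  · intro x y hx hy
    exact mkW_iff γ x y hx hy
  · exact asg_mem (A := cl (Lev γ)) hz hp hq

theorem stg_isCode (γ : Ordinal.{0}) (k : ℕ) (p q x : ZFSet.{0}) :
    (stg γ).IsCode k p q x ↔ IsCode γ k p q x := by
  constructor
  · rintro ⟨hp, hq, h⟩
    refine ⟨hp, hq, fun z => (h z).trans (and_congr_right fun hz => ?_)⟩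
    exact stg_tr_iff γ k p q z hp hq hz
  · rintro ⟨hp, hq, h⟩
    refine ⟨hp, hq, fun z => (h z).trans (and_congr_right fun hz => ?_)⟩
    exact (stg_tr_iff γ k p q z hp hq hz).symm

theorem stg_wo_iff (γ : Ordinal.{0}) (x y : ZFSet.{0}) (hx : x ∈ Lev γ) (hy : y ∈ Lev γ) :
    (stg γ).wo x y ↔ WW x y := by
  rw [stg_wo]
  exact mkW_iff γ x y hx hy

theorem stg_lexlt (γ : Ordinal.{0}) (k k' : ℕ) (p q p' q' : ZFSet.{0}) (hp : p ∈ Lev γ)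
    (hq : q ∈ Lev γ) (hp' : p' ∈ Lev γ) (hq' : q' ∈ Lev γ) :
    lexlt (stg γ).wo k p q k' p' q' ↔ lexlt WW k p q k' p' q' := by
  unfold lexlt
  rw [stg_wo_iff γ p p' hp hp', stg_wo_iff γ q q' hq hq']

theorem stg_leastCode (γ : Ordinal.{0}) (k : ℕ) (p q x : ZFSet.{0}) :
    (stg γ).LeastCode k p q x ↔ LeastCode γ k p q x := by
  constructor
  · rintro ⟨h, h'⟩
    rw [stg_isCode] at h
    refine ⟨h, fun k' p' q' hc hl => ?_⟩
    refine h' k' p' q' ((stg_isCode _ _ _ _ _).2 hc) ?_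
    exact (stg_lexlt γ k' k p' q' p q hc.1 hc.2.1 h.1 h.2.1).2 hl
  · rintro ⟨h, h'⟩
    refine ⟨(stg_isCode _ _ _ _ _).2 h, fun k' p' q' hc hl => ?_⟩
    rw [stg_isCode] at hc
    exact h' k' p' q' hc ((stg_lexlt γ k' k p' q' p q hc.1 hc.2.1 h.1 h.2.1).1 hl)

/-! ### The interface -/

/-- (L1) -/
theorem mem_Lev (β : Ordinal.{0}) (x : ZFSet.{0}) :
    x ∈ Lev β ↔ x = ∅ ∨ ∃ γ < β, ∃ k p q, IsCode γ k p q x := by
  rw [mem_lev_stg]
  simp only [stg_isCode]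

/-- (T1) -/
theorem TT_iff (u n p q z : ZFSet.{0}) : TT u n p q z ↔ ∃ γ k, u = Lev γ ∧ n = nat k ∧
    p ∈ Lev γ ∧ q ∈ Lev γ ∧
      (z = Lev γ ∨ z ∈ Lev γ ∧ SatL (cl (Lev γ)) (enumF k) (asg z p q)) := by
  constructor
  · rintro ⟨γ, rfl, k, rfl, hp, hq, h⟩
    refine ⟨γ, k, rfl, rfl, hp, hq, ?_⟩
    rcases h with h | ⟨hz, h⟩
    · exact Or.inl h
    · exact Or.inr ⟨hz, (stg_tr_iff γ k p q z hp hq hz).1 h⟩
  · rintro ⟨γ, k, rfl, rfl, hp, hq, h⟩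
    refine ⟨γ, rfl, k, rfl, hp, hq, ?_⟩
    rcases h with h | ⟨hz, h⟩
    · exact Or.inl h
    · exact Or.inr ⟨hz, (stg_tr_iff γ k p q z hp hq hz).2 h⟩

theorem stgStage_iff (γ : Ordinal.{0}) (x : ZFSet.{0}) : StgStage γ x ↔ HasStage γ x := by
  unfold StgStage HasStage
  simp only [stg_isCode]

/-- (W1) -/
theorem WW_iff (x y : ZFSet.{0}) : WW x y ↔ ∃ γ γ', HasStage γ x ∧ HasStage γ' y ∧
    (γ < γ' ∨ γ = γ' ∧ ∃ k p q k' p' q', LeastCode γ k p q x ∧ LeastCode γ k' p' q' y ∧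
      lexlt WW k p q k' p' q') := by
  constructor
  · rintro ⟨γ, γ', h, h', h3⟩
    refine ⟨γ, γ', (stgStage_iff γ x).1 h, (stgStage_iff γ' y).1 h', ?_⟩
    rcases h3 with h3 | ⟨rfl, k, p, q, k', p', q', hc, hc', hl⟩
    · exact Or.inl h3
    · rw [stg_leastCode] at hc hc'
      refine Or.inr ⟨rfl, k, p, q, k', p', q', hc, hc', ?_⟩
      exact (stg_lexlt γ k k' p q p' q' hc.1.1 hc.1.2.1 hc'.1.1 hc'.1.2.1).1 hl
  · rintro ⟨γ, γ', h, h', h3⟩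
    refine ⟨γ, γ', (stgStage_iff γ x).2 h, (stgStage_iff γ' y).2 h', ?_⟩
    rcases h3 with h3 | ⟨rfl, k, p, q, k', p', q', hc, hc', hl⟩
    · exact Or.inl h3
    · refine Or.inr ⟨rfl, k, p, q, k', p', q', (stg_leastCode _ _ _ _ _).2 hc,
        (stg_leastCode _ _ _ _ _).2 hc', ?_⟩
      exact (stg_lexlt γ k k' p q p' q' hc.1.1 hc.1.2.1 hc'.1.1 hc'.1.2.1).2 hl

theorem HasStage.lt {γ δ : Ordinal.{0}} {x : ZFSet.{0}} (h : HasStage δ x) (hx : x ∈ Lev γ)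
    (hγ : 0 < γ) : δ < γ :=
  StgStage.lt ((stgStage_iff δ x).2 h) hx hγ

theorem HasStage.unique {γ δ : Ordinal.{0}} {x : ZFSet.{0}} (h : HasStage γ x)
    (h' : HasStage δ x) : γ = δ := by
  rcases lt_trichotomy γ δ with hl | hl | hl
  · exact absurd h.1 (h'.2 γ hl)
  · exact hl
  · exact absurd h'.1 (h.2 δ hl)

theorem IsCode.mem_Lev {γ β : Ordinal.{0}} {k : ℕ} {p q x : ZFSet.{0}} (h : IsCode γ k p q x)
    (hβ : γ < β) : x ∈ Lev β :=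
  (Pool.Agent.H94L.mem_Lev β x).2 (Or.inr ⟨γ, hβ, k, p, q, h⟩)

theorem HasStage.mem_Lev {γ β : Ordinal.{0}} {x : ZFSet.{0}} (h : HasStage γ x) (hβ : γ < β) :
    x ∈ Lev β := by
  obtain ⟨k, p, q, hc⟩ := h.1
  exact hc.mem_Lev hβ

theorem LL.exists_stage {x : ZFSet.{0}} (h : LL x) : ∃ γ, HasStage γ x := by
  have h1 : ∃ γ, ∃ k p q, IsCode γ k p q x := by
    obtain ⟨β, hβ⟩ := h
    rw [Pool.Agent.H94L.mem_Lev] at hβ
    rcases hβ with rfl | ⟨γ, -, hc⟩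
    · obtain ⟨k, hk⟩ := exists_code_empty 0
      exact ⟨0, k, ∅, ∅, (stg_isCode _ _ _ _ _).1 hk⟩
    · exact ⟨γ, hc⟩
  obtain ⟨γ, h2, h3⟩ := WellFounded.has_min (wellFounded_lt (α := Ordinal.{0}))
    {γ | ∃ k p q, IsCode γ k p q x} h1
  exact ⟨γ, h2, fun δ hδ hc => h3 δ hc hδ⟩

end Pool.Agent.H94L
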