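import Pool.Agent.Lib.H94L.Sep
import Pool.Agent.Lib.H94L.WO

/-! # Chunk GC1 -/

set_option autoImplicit false

open Set Function

namespace Pool.Agent.H94L

/-- Chunk GC1: the set `w` of pairs (`LL_sep'`; the bound from `LL_bound_set (ZFSet.powerset x) LL` and
a level above closed under pairs). -/
theorem exists_w (x : ZFSet.{0}) (hx : LL x) : ∃ w, LL w ∧ ∀ a b, LL a → LL b →
    (ZFSet.pair a b ∈ w ↔ a ⊆ x ∧ b ⊆ x ∧ WW a b) := by
  have hP : Dfn LL fun v => ∃ a, LL a ∧ ∃ b, LL b ∧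
      (v 0 = ZFSet.pair a b ∧ a ⊆ v 1 ∧ b ⊆ v 1 ∧ WW a b) :=
    Dfn.ex (Dfn.ex ((nice_LL.dfn_pair 2 1 0).and ((nice_LL.dfn_sub 1 3).and
      ((nice_LL.dfn_sub 0 3).and (Dfn.ww 1 0)))))
  obtain ⟨β, hβ⟩ := LL_bound_set (ZFSet.powerset x) LL fun _ _ h => h
  obtain ⟨δ, hβδ, hδ, -⟩ := exists_closed (fun _ => 0) β
  obtain ⟨w, hw, hz⟩ := LL_sep' hP (v := fun _ => x) (fun _ => hx) δ (by
    rintro z - ⟨a, ha, b, hb, he, h1, h2, -⟩
    have he' : z = ZFSet.pair a b := he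
    rw [he']
    exact (nice_Lev hδ).kpair
      (Lev_mono hβδ.le (hβ a (ZFSet.mem_powerset.2 h1) ha))
      (Lev_mono hβδ.le (hβ b (ZFSet.mem_powerset.2 h2) hb)))
  refine ⟨w, hw, fun a b ha hb => ?_⟩
  rw [hz]
  constructor
  · rintro ⟨-, a', -, b', -, he, h1, h2, h3⟩
    have he' : ZFSet.pair a b = ZFSet.pair a' b' := he
    obtain ⟨rfl, rfl⟩ := ZFSet.pair_injective he'
    exact ⟨h1, h2, h3⟩
  · rintro ⟨h1, h2, h3⟩
    exact ⟨nice_LL.kpair ha hb, a, ha, b, hb, rfl, h1, h2, h3⟩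

end Pool.Agent.H94L
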