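import Pool.Agent.Lib.H94L.HullB

/-! # Chunk HU3 -/

set_option autoImplicit false

open Set Function

namespace Pool.Agent.H94L

variable {δ : Ordinal.{0}}

/-- Chunk HU3.  The hull of `x ∪ {(x, a)}`.  `C y` is `y ∈ x ∨ y = pair x a`; `x` and `a` are in the
hull by `TV.uniq` (`z` is the unique element with `∃ b, pair x a = pair z b`); the last clause is
`param_red` with the class of the elements of `x` and `q = pair x a`. -/
theorem exists_hull (hδ : Lim δ) {x a : ZFSet.{0}} (hx : x ∈ Lev δ) (ha : a ∈ Lev δ)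
    (hx1 : ∀ y z, y ∈ x → z ∈ x → ({y, z} : ZFSet.{0}) ∈ x) (hx2 : ∅ ∈ x) :
    ∃ N, TV δ N ∧ (∀ z ∈ x, N z) ∧ N x ∧ N a ∧ N (ZFSet.pair x a) ∧
      ∀ y, N y → ∃ k p, p ∈ x ∧ ∀ z ∈ Lev δ,
        (SatL (cl (Lev δ)) (enumF k) (asg z p (ZFSet.pair x a)) ↔ z = y) := by
  have hA : Nice (cl (Lev δ)) := nice_Lev hδ
  have hxa : ZFSet.pair x a ∈ Lev δ := hA.kpair (x := x) (y := a) hx ha
  have hC : ∀ y, (y ∈ x ∨ y = ZFSet.pair x a) → y ∈ Lev δ := by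
    rintro y (hy | rfl)
    · exact Lev_trans hx hy
    · exact hxa
  have hT : TV δ (HN δ fun y => y ∈ x ∨ y = ZFSet.pair x a) := hull_TV hC ⟨∅, Or.inl hx2⟩
  have hNp : HN δ (fun y => y ∈ x ∨ y = ZFSet.pair x a) (ZFSet.pair x a) :=
    HN.of_mem hC (Or.inr rfl)
  refine ⟨HN δ fun y => y ∈ x ∨ y = ZFSet.pair x a, hT, fun z hz => HN.of_mem hC (Or.inl hz),
    ?_, ?_, hNp, ?_⟩
  · refine hT.uniq (Q := fun u => ∃ b, cl (Lev δ) b ∧ (cons b u) 2 =
      ZFSet.pair ((cons b u) 1) ((cons b u) 0))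
      (Dfn.ex (P := fun t => t 2 = ZFSet.pair (t 1) (t 0)) (hA.dfn_pair 2 1 0))
      (v := fun _ => ZFSet.pair x a) (fun _ => hNp) hx ⟨a, ha, rfl⟩ ?_
    rintro b hb ⟨c, -, hc⟩
    exact (ZFSet.pair_injective (show ZFSet.pair x a = ZFSet.pair b c from hc)).1.symm
  · refine hT.uniq (Q := fun u => ∃ b, cl (Lev δ) b ∧ (cons b u) 2 =
      ZFSet.pair ((cons b u) 0) ((cons b u) 1))
      (Dfn.ex (P := fun t => t 2 = ZFSet.pair (t 0) (t 1)) (hA.dfn_pair 2 0 1))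
      (v := fun _ => ZFSet.pair x a) (fun _ => hNp) ha ⟨x, hx, rfl⟩ ?_
    rintro b hb ⟨c, -, hc⟩
    exact (ZFSet.pair_injective (show ZFSet.pair x a = ZFSet.pair c b from hc)).2.symm
  · rintro y ⟨hy, Q, hQ, w, hw, h1⟩
    obtain ⟨k, p, hp, h2⟩ := param_red hδ (C := fun y => y ∈ x)
      (fun y hy => Lev_trans hx hy)
      (fun y z hy hz => by
        have h3 : ({y} : ZFSet.{0}) ∈ x := by
          have := hx1 y y hy hy
          rwa [ZFSet.pair_eq_singleton] at this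
        exact hx1 _ _ h3 (hx1 y z hy hz))
      ⟨∅, hx2⟩ hxa hQ hw
    exact ⟨k, p, hp, fun z hz => (h2 z hz).symm.trans (h1 z hz)⟩

end Pool.Agent.H94L
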