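import Pool.Agent.Lib.H94L.DfnS

/-!
# Chunk CO1: Tarski-Vaught substructures of limit levels and their collapse
-/

set_option autoImplicit false

open Set Function

namespace Pool.Agent.H94L

/-- `N` is a substructure of `Lev δ` with the Tarski-Vaught property -/
structure TV (δ : Ordinal.{0}) (N : ZFSet.{0} → Prop) : Prop where
  sub : ∀ x, N x → x ∈ Lev δ
  ne : ∃ x, N x
  wit : ∀ Q, Dfn (cl (Lev δ)) Q → ∀ v, (∀ i, N (v i)) →
    (∃ a ∈ Lev δ, Q (cons a v)) → ∃ a, N a ∧ Q (cons a v)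

/-- the Mostowski collapse of the class `N` -/
noncomputable def coll (N : ZFSet.{0} → Prop) (x : ZFSet.{0}) : ZFSet.{0} :=
  ZFSet.range fun z : {z // z ∈ ZFSet.sep N x} => coll N z.1
termination_by x
decreasing_by exact (ZFSet.mem_sep.1 z.2).1

theorem mem_coll {N : ZFSet.{0} → Prop} {x w : ZFSet.{0}} :
    w ∈ coll N x ↔ ∃ z, z ∈ x ∧ N z ∧ w = coll N z := by
  rw [coll, ZFSet.mem_range]
  constructor
  · rintro ⟨⟨z, hz⟩, rfl⟩
    have h := ZFSet.mem_sep.1 hz
    exact ⟨z, h.1, h.2, rfl⟩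
  · rintro ⟨z, h1, h2, rfl⟩
    exact ⟨⟨z, ZFSet.mem_sep.2 ⟨h1, h2⟩⟩, rfl⟩

/-- the index map moving the variable `i` to `0` (chunk CO1) -/
def co1g (i : ℕ) : ℕ → ℕ := fun j => if j = i then 0 else j + 1

theorem co1_cons_comp (i : ℕ) (a : ZFSet.{0}) (v : ℕ → ZFSet.{0}) :
    cons a v ∘ co1g i = update v i a := by
  funext j
  by_cases h : j = i
  · subst h
    simp [co1g, cons]
  · simp [co1g, cons, h]

theorem co1_update {A : ZFSet.{0} → Prop} {v : ℕ → ZFSet.{0}} (hv : ∀ i, A (v i)) (i : ℕ)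
    {a : ZFSet.{0}} (ha : A a) (j : ℕ) : A (update v i a j) := by
  by_cases h : j = i
  · rw [h, update_self]; exact ha
  · rw [update_of_ne h]; exact hv j

section

variable {δ : Ordinal.{0}} {N : ZFSet.{0} → Prop}

/-- elementarity; induction on `φ`, in the case `all` use `wit` for the negation
(`update v i a` is `(cons a v) ∘ g` with `g i = 0`, `g j = j + 1`). -/
theorem TV.elem (h : TV δ N) (φ : LF) (v : ℕ → ZFSet.{0}) (hv : ∀ i, N (v i)) :
    SatL N φ v ↔ SatL (cl (Lev δ)) φ v := by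
  induction φ generalizing v with
  | mem i j => exact Iff.rfl
  | eq i j => exact Iff.rfl
  | tr i j k l m => exact Iff.rfl
  | wo i j => exact Iff.rfl
  | bot => exact Iff.rfl
  | imp φ ψ ih ih' => exact imp_congr (ih v hv) (ih' v hv)
  | all i φ ih =>
    have h1 : SatL N (LF.all i φ) v ↔ ∀ a, N a → SatL (cl (Lev δ)) φ (update v i a) :=
      forall_congr' fun a => imp_congr_right fun ha => ih _ (co1_update hv i ha)
    rw [h1]
    constructor
    · intro h2
      by_contra hc
      have hc' : ¬ ∀ a, a ∈ Lev δ → SatL (cl (Lev δ)) φ (update v i a) := hc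
      push Not at hc'
      obtain ⟨a, ha, hna⟩ := hc'
      obtain ⟨b, hb, hnb⟩ := h.wit (fun w => ¬ SatL (cl (Lev δ)) φ (w ∘ co1g i))
        (((Dfn.sat φ).comp (co1g i)).not) v hv
        ⟨a, ha, by simpa only [co1_cons_comp] using hna⟩
      rw [co1_cons_comp] at hnb
      exact hnb (h2 b hb)
    · intro h2 a ha
      exact h2 a (h.sub a ha)

/-- an element defined from elements of `N` is in `N` -/
theorem TV.uniq (h : TV δ N) {Q : (ℕ → ZFSet.{0}) → Prop} (hQ : Dfn (cl (Lev δ)) Q)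
    {v : ℕ → ZFSet.{0}} (hv : ∀ i, N (v i)) {a : ZFSet.{0}} (ha : a ∈ Lev δ)
    (hQa : Q (cons a v)) (hu : ∀ b ∈ Lev δ, Q (cons b v) → b = a) : N a := by
  obtain ⟨b, hb, hQb⟩ := h.wit Q hQ v hv ⟨a, ha, hQa⟩
  rw [← hu b (h.sub b hb) hQb]
  exact hb

theorem TV.natN (h : TV δ N) (hδ : Lim δ) (k : ℕ) : N (nat k) := by
  obtain ⟨x0, hx0⟩ := h.ne
  exact h.uniq ((nice_Lev hδ).dfn_nat 0 k) (v := fun _ => x0) (fun _ => hx0)
    ((nice_Lev hδ).natMem k) rfl (fun b _ hb => hb)

theorem TV.emptyN (h : TV δ N) (hδ : Lim δ) : N ∅ := h.natN hδ 0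

theorem TV.upair (h : TV δ N) (hδ : Lim δ) {x y : ZFSet.{0}} (hx : N x) (hy : N y) :
    N {x, y} := by
  refine h.uniq ((nice_Lev hδ).dfn_upair 0 1 2) (v := cons x fun _ => y)
    (cons_mem hx fun _ => hy) ?_ rfl (fun b _ hb => hb)
  exact (nice_Lev hδ).pair x y (h.sub x hx) (h.sub y hy)

/-- the same for a level which is an element of `N`: induction on `φ` with `Nice.dfn_satIn`
(instantiate the bounding set at an index `≥ φ.bd`) -/
theorem TV.satIn (h : TV δ N) (hδ : Lim δ) {β : Ordinal.{0}} (hβ : N (Lev β)) (φ : LF)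
    (v : ℕ → ZFSet.{0}) (hv : ∀ i, N (v i) ∧ v i ∈ Lev β) :
    SatL (cl (Lev β)) φ v ↔ SatL (fun y => N y ∧ y ∈ Lev β) φ v := by
  induction φ generalizing v with
  | mem i j => exact Iff.rfl
  | eq i j => exact Iff.rfl
  | tr i j k l m => exact Iff.rfl
  | wo i j => exact Iff.rfl
  | bot => exact Iff.rfl
  | imp φ ψ ih ih' => exact imp_congr (ih v hv) (ih' v hv)
  | all i φ ih =>
    have h1 : SatL (fun y => N y ∧ y ∈ Lev β) (LF.all i φ) v ↔
        ∀ a, N a ∧ a ∈ Lev β → SatL (cl (Lev β)) φ (update v i a) :=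
      forall_congr' fun a => imp_congr_right fun ha =>
        (ih _ (co1_update (A := fun y => N y ∧ y ∈ Lev β) hv i ha)).symm
    rw [h1]
    constructor
    · intro h2 a ha
      exact h2 a ha.2
    · intro h2
      by_contra hc
      have hc' : ¬ ∀ a, a ∈ Lev β → SatL (cl (Lev β)) φ (update v i a) := hc
      push Not at hc'
      obtain ⟨a, ha, hna⟩ := hc'
      have hm : φ.bd ≤ max φ.bd (i + 1) := le_max_left _ _
      have hmi : i < max φ.bd (i + 1) := lt_of_lt_of_le (Nat.lt_succ_self i) (le_max_right _ _)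
      generalize max φ.bd (i + 1) = m at hm hmi
      have hP := (nice_Lev hδ).dfn_satIn φ m hm
      have hQ : Dfn (cl (Lev δ)) fun w => w 0 ∈ w (m + 1) ∧
          ¬ SatL (cl ((w ∘ co1g i) m)) φ (w ∘ co1g i) :=
        (Dfn.mem 0 (m + 1)).and (hP.comp (co1g i)).not
      have hv' : ∀ j, N (update v m (Lev β) j) := co1_update (fun j => (hv j).1) m hβ
      have key : ∀ b, (cons b (update v m (Lev β)) 0 ∈ cons b (update v m (Lev β)) (m + 1) ∧
          ¬ SatL (cl ((cons b (update v m (Lev β)) ∘ co1g i) m)) φ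
            (cons b (update v m (Lev β)) ∘ co1g i)) ↔
          (b ∈ Lev β ∧ ¬ SatL (cl (Lev β)) φ (update v i b)) := by
        intro b
        have e1 : cons b (update v m (Lev β)) (m + 1) = Lev β := by
          show update v m (Lev β) m = Lev β
          rw [update_self]
        have e2 : update (update v m (Lev β)) i b m = Lev β := by
          rw [update_of_ne hmi.ne', update_self]
        rw [e1, co1_cons_comp, e2]
        refine and_congr Iff.rfl (not_congr (SatL_congr _ φ _ _ fun j hj => ?_))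
        by_cases hji : j = i
        · rw [hji, update_self, update_self]
        · rw [update_of_ne hji, update_of_ne hji, update_of_ne (hj.trans_le hm).ne]
      obtain ⟨b, hb, hnb⟩ := h.wit _ hQ (update v m (Lev β)) hv'
        ⟨a, Lev_trans (h.sub _ hβ) ha, (key a).2 ⟨ha, hna⟩⟩
      have hnb' := (key b).1 hnb
      exact hnb'.2 (h2 b ⟨hb, hnb'.1⟩)

end

end Pool.Agent.H94L
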