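import Pool.Agent.Lib.H94L.PR
import Pool.Agent.Lib.H94L.TV
import Pool.Agent.Lib.H94L.WO

/-!
# Hulls: definition, chunk HU1
-/

set_option autoImplicit false

open Set Function

namespace Pool.Agent.H94L

/-- `y` is definable in `Lev δ` with parameters in `C` -/
def HN (δ : Ordinal.{0}) (C : ZFSet.{0} → Prop) (y : ZFSet.{0}) : Prop :=
  y ∈ Lev δ ∧ ∃ Q, Dfn (cl (Lev δ)) Q ∧ ∃ w : ℕ → ZFSet.{0}, (∀ i, C (w i)) ∧
    ∀ z ∈ Lev δ, (Q (cons z w) ↔ z = y)

variable {δ : Ordinal.{0}} {C : ZFSet.{0} → Prop}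

theorem HN.of_mem (hC : ∀ y, C y → y ∈ Lev δ) {y : ZFSet.{0}} (hy : C y) : HN δ C y :=
  ⟨hC y hy, fun v => v 0 = v 1, Dfn.eq 0 1, fun _ => y, fun _ => hy, fun _ _ => Iff.rfl⟩

/-- the induction behind `hull_subst`: the positions outside the finite set `S` are in `C` -/
theorem HU1_aux (hC : ∀ y, C y → y ∈ Lev δ) (hne : ∃ c, C c) (n : ℕ) :
    ∀ (Q : (ℕ → ZFSet.{0}) → Prop), Dfn (cl (Lev δ)) Q → ∀ v : ℕ → ZFSet.{0},
      (∀ i, HN δ C (v i)) → ∀ S : Finset ℕ, S.card ≤ n → (∀ j, j ∉ S → C (v j)) →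
      ∃ Q', Dfn (cl (Lev δ)) Q' ∧ ∃ w : ℕ → ZFSet.{0}, (∀ i, C (w i)) ∧
        ∀ z ∈ Lev δ, (Q (cons z v) ↔ Q' (cons z w)) := by
  obtain ⟨c, hc⟩ := hne
  induction n with
  | zero =>
    intro Q hQ v hv S hS hj
    have hS0 : S = ∅ := Finset.card_eq_zero.1 (Nat.le_zero.1 hS)
    subst hS0
    exact ⟨Q, hQ, v, fun i => hj i (Finset.notMem_empty i), fun _ _ => Iff.rfl⟩
  | succ n ih =>
    intro Q hQ v hv S hS hj
    rcases S.eq_empty_or_nonempty with hS0 | ⟨i, hi⟩
    · subst hS0
      exact ⟨Q, hQ, v, fun i => hj i (Finset.notMem_empty i), fun _ _ => Iff.rfl⟩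
    obtain ⟨hvi, Q1, hQ1, w1, hw1, h1⟩ := hv i
    let f1 : ℕ → ℕ := fun j => match j with
      | 0 => 0
      | j + 1 => 2 * j + 3
    let f2 : ℕ → ℕ := fun j => match j with
      | 0 => 1
      | j + 1 => if j = i then 0 else 2 * j + 2
    let Q2 : (ℕ → ZFSet.{0}) → Prop := fun w =>
      ∃ y, cl (Lev δ) y ∧ (Q1 (cons y w ∘ f1) ∧ Q (cons y w ∘ f2))
    have hQ2 : Dfn (cl (Lev δ)) Q2 := Dfn.ex ((hQ1.comp f1).and (hQ.comp f2))
    let v2 : ℕ → ZFSet.{0} := fun j =>
      if j % 2 = 1 then w1 (j / 2) else if j / 2 = i then c else v (j / 2)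
    have e1 : ∀ j, v2 (2 * j + 1) = w1 j := by
      intro j
      have a1 : (2 * j + 1) % 2 = 1 := by omega
      have a2 : (2 * j + 1) / 2 = j := by omega
      simp only [v2, a1, a2, if_true]
    have e2 : ∀ j, v2 (2 * j) = if j = i then c else v j := by
      intro j
      have a1 : ¬ (2 * j) % 2 = 1 := by omega
      have a2 : (2 * j) / 2 = j := by omega
      simp only [v2, a1, a2, if_false]
    have hv2 : ∀ j, HN δ C (v2 j) := by
      intro j
      rcases Nat.even_or_odd' j with ⟨k, rfl | rfl⟩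
      · rw [e2]
        split_ifs with h
        · exact HN.of_mem hC hc
        · exact hv k
      · rw [e1]
        exact HN.of_mem hC (hw1 k)
    obtain ⟨Q', hQ', w, hw, hz⟩ := ih Q2 hQ2 v2 hv2 ((S.erase i).image fun j => 2 * j) (by
      refine Finset.card_image_le.trans ?_
      rw [Finset.card_erase_of_mem hi]
      omega) (by
      intro j hjS
      rcases Nat.even_or_odd' j with ⟨k, rfl | rfl⟩
      · rw [e2]
        split_ifs with h
        · exact hc
        · refine hj k fun hk => hjS ?_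
          exact Finset.mem_image.2 ⟨k, Finset.mem_erase.2 ⟨h, hk⟩, rfl⟩
      · rw [e1]
        exact hw1 k)
    refine ⟨Q', hQ', w, hw, fun z hz' => ?_⟩
    rw [← hz z hz']
    have c1 : ∀ y, cons y (cons z v2) ∘ f1 = cons y w1 := by
      intro y
      funext j
      cases j with
      | zero => rfl
      | succ j =>
        show cons y (cons z v2) (2 * j + 3) = w1 j
        exact e1 j
    have c2 : cons (v i) (cons z v2) ∘ f2 = cons z v := by
      funext j
      cases j with
      | zero => rfl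
      | succ j =>
        show cons (v i) (cons z v2) (if j = i then 0 else 2 * j + 2) = v j
        split_ifs with h
        · rw [h]; rfl
        · show v2 (2 * j) = v j
          rw [e2, if_neg h]
    constructor
    · intro h
      refine ⟨v i, hvi, ?_, ?_⟩
      · rw [c1]
        exact (h1 _ hvi).2 rfl
      · rw [c2]
        exact h
    · rintro ⟨y, hy, h2, h3⟩
      rw [c1] at h2
      have hyv : y = v i := (h1 y hy).1 h2
      rw [hyv, c2] at h3
      exact h3

/-- Chunk HU1.  Parameters in the hull can be replaced by parameters in `C`.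
By `Dfn.finite` only the positions `i < m` matter.  Induction on the cardinality of the finite set
of positions `i < m` with `v i` not in `C`, for all definable `Q`.  Step: let `i` be such a
position, `v i` defined by `Q1` with parameters `w1`.  Put
`Q2 w = ∃ y, Q1 (cons y (odd part of w')) ∧ Q (cons (w 0) (update (even part of w') i y))` where
`w' n = w (n + 1)`, even part `j ↦ w' (2 j)`, odd part `j ↦ w' (2 j + 1)`; apply the induction
hypothesis to `Q2` and to the assignment `2 j ↦ v j` (`j ≠ i`; some element of `C` for `j = i`, and for `j ≥ m`),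
`2 j + 1 ↦ w1 j`. -/
theorem hull_subst (hC : ∀ y, C y → y ∈ Lev δ) (hne : ∃ c, C c)
    {Q : (ℕ → ZFSet.{0}) → Prop} (hQ : Dfn (cl (Lev δ)) Q) {v : ℕ → ZFSet.{0}}
    (hv : ∀ i, HN δ C (v i)) :
    ∃ Q', Dfn (cl (Lev δ)) Q' ∧ ∃ w : ℕ → ZFSet.{0}, (∀ i, C (w i)) ∧
      ∀ z ∈ Lev δ, (Q (cons z v) ↔ Q' (cons z w)) := by
  obtain ⟨c, hc⟩ := hne
  obtain ⟨m, hm⟩ := hQ.finite
  have hv' : ∀ j, HN δ C ((fun j => if j < m then v j else c) j) := by
    intro j
    show HN δ C (if j < m then v j else c)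
    split_ifs with h
    · exact hv j
    · exact HN.of_mem hC hc
  obtain ⟨Q', hQ', w, hw, hz⟩ := HU1_aux hC ⟨c, hc⟩ m Q hQ
    (fun j => if j < m then v j else c) hv' (Finset.range m) (by simp) (by
      intro j hj
      have h : ¬ j < m := fun h => hj (Finset.mem_range.2 h)
      show C (if j < m then v j else c)
      rw [if_neg h]
      exact hc)
  refine ⟨Q', hQ', w, hw, fun z hzδ => ?_⟩
  rw [← hz z hzδ]
  refine hm _ _ (cons_mem hzδ fun i => (hv i).1) (cons_mem hzδ fun i => (hv' i).1) ?_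
  intro j hj
  cases j with
  | zero => rfl
  | succ j =>
    show v j = if j < m then v j else c
    rw [if_pos (by omega)]

end Pool.Agent.H94L
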