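import Pool.Agent.Lib.H94L.HullA

/-! # Chunk HU2 -/

set_option autoImplicit false

open Set Function

namespace Pool.Agent.H94L

variable {δ : Ordinal.{0}} {C : ZFSet.{0} → Prop}

/-- Chunk HU2.  The hull has the Tarski-Vaught property: by `hull_subst` the class of witnesses is
defined by some `Q'` with parameters in `C`; the `WW`-least witness (`WW_good`) is defined by
`Q' w ∧ ∀ y, WW y (w 0) → ¬ Q' (cons y fun n => w (n + 1))`. -/
theorem hull_TV (hC : ∀ y, C y → y ∈ Lev δ) (hne : ∃ c, C c) : TV δ (HN δ C) := by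
  refine ⟨fun x hx => hx.1, ?_, ?_⟩
  · obtain ⟨c, hc⟩ := hne
    exact ⟨c, HN.of_mem hC hc⟩
  · rintro Q hQ v hv ⟨a, ha, hQa⟩
    obtain ⟨Q', hQ', w, hw, hQQ⟩ := hull_subst hC hne hQ hv
    obtain ⟨x, hx, hSx, hmin⟩ := (WW_good δ).2 (fun z => Q' (cons z w)) ⟨a, ha, (hQQ a ha).1 hQa⟩
    refine ⟨x, ⟨hx, fun u => Q' u ∧ ∀ y, cl (Lev δ) y → WW y (u 0) →
      ¬ Q' (cons y fun n => u (n + 1)), ?_, w, hw, ?_⟩, (hQQ x hx).2 hSx⟩
    · refine hQ'.and ?_
      have h1 : Dfn (cl (Lev δ)) fun u => WW (u 0) (u 1) →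
          ¬ Q' (u ∘ fun n => if n = 0 then 0 else n + 1) :=
        (Dfn.ww 0 1).imp (hQ'.comp _).not
      refine (Dfn.all h1).congr fun u _ => forall_congr' fun y => imp_congr_right fun _ => ?_
      have h2 : (cons y u ∘ fun n => if n = 0 then 0 else n + 1) = cons y fun n => u (n + 1) := by
        funext n
        cases n with
        | zero => rfl
        | succ n => rfl
      rw [h2]
      exact Iff.rfl
    · intro z hz
      constructor
      · rintro ⟨hz1, hz2⟩
        by_contra hne'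
        rcases (WW_good δ).1 z x hz hx hne' with h | h
        · exact hmin z hz hz1 h
        · exact hz2 x hx h hSx
      · rintro rfl
        exact ⟨hSx, fun y hy hW hQy => hmin y hy hQy hW⟩

end Pool.Agent.H94L
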