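import Pool.Agent.Lib.H94L.DfnC

/-!
# Chunk NICE: classes closed under pairs and successors

For `x, y ∈ Lev γ` the sets `{x, y}` and `insert x x` are subsets of `Lev γ` defined by
`z = p ∨ z = q`, `z ∈ p ∨ z = p` from the parameters `p = x`, `q = y`, so they are in
`Lev (γ + 1)` (`IsCode.mem_Lev` and `enumF_surj`).
-/

set_option autoImplicit false

open Set Function

namespace Pool.Agent.H94L

/-- a limit ordinal (nonzero) -/
def Lim (δ : Ordinal.{0}) : Prop := 0 < δ ∧ ∀ γ < δ, γ + 1 < δ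

structure Nice (A : ZFSet.{0} → Prop) : Prop where
  trans : ∀ x y, A x → y ∈ x → A y
  empty : A ∅
  pair : ∀ x y, A x → A y → A {x, y}
  succ : ∀ x, A x → A (insert x x)

theorem NICE_lt (γ : Ordinal.{0}) : γ < γ + 1 := by
  simp

theorem pair_mem_Lev {γ : Ordinal.{0}} {x y : ZFSet.{0}} (hx : x ∈ Lev γ) (hy : y ∈ Lev γ) :
    ({x, y} : ZFSet.{0}) ∈ Lev (γ + 1) := by
  obtain ⟨k, hk⟩ := enumF_surj (LF.imp (LF.imp (LF.eq 0 1) LF.bot) (LF.eq 0 2))
  have hc : IsCode γ k x y {x, y} := by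
    refine ⟨hx, hy, fun z => ?_⟩
    rw [hk, ZFSet.mem_pair]
    change z = x ∨ z = y ↔ z ∈ Lev γ ∧ ((z = x → False) → z = y)
    constructor
    · rintro (rfl | rfl)
      · exact ⟨hx, fun h => absurd rfl h⟩
      · exact ⟨hy, fun _ => rfl⟩
    · rintro ⟨_, h⟩
      by_cases hz : z = x
      · exact Or.inl hz
      · exact Or.inr (h hz)
  exact hc.mem_Lev (NICE_lt γ)

theorem succ_mem_Lev {γ : Ordinal.{0}} {x : ZFSet.{0}} (hx : x ∈ Lev γ) :
    insert x x ∈ Lev (γ + 1) := by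
  obtain ⟨k, hk⟩ := enumF_surj (LF.imp (LF.imp (LF.eq 0 1) LF.bot) (LF.mem 0 1))
  have hc : IsCode γ k x x (insert x x) := by
    refine ⟨hx, hx, fun z => ?_⟩
    rw [hk, ZFSet.mem_insert_iff]
    change z = x ∨ z ∈ x ↔ z ∈ Lev γ ∧ ((z = x → False) → z ∈ x)
    constructor
    · rintro (rfl | h)
      · exact ⟨hx, fun h => absurd rfl h⟩
      · exact ⟨Lev_trans hx h, fun _ => h⟩
    · rintro ⟨_, h⟩
      by_cases hz : z = x
      · exact Or.inl hz
      · exact Or.inr (h hz)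
  exact hc.mem_Lev (NICE_lt γ)

/-- an element of a limit level is in a smaller level -/
theorem Lim.exists_lt {δ : Ordinal.{0}} (hδ : Lim δ) {x : ZFSet.{0}} (hx : x ∈ Lev δ) :
    ∃ γ < δ, x ∈ Lev γ := by
  rw [mem_Lev] at hx
  rcases hx with rfl | ⟨γ, hγ, k, p, q, hc⟩
  · exact ⟨0, hδ.1, empty_mem_Lev 0⟩
  · exact ⟨γ + 1, hδ.2 γ hγ, hc.mem_Lev (NICE_lt γ)⟩

theorem nice_Lev {δ : Ordinal.{0}} (hδ : Lim δ) : Nice (cl (Lev δ)) where
  trans x y hx hy := Lev_trans hx hy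
  empty := empty_mem_Lev δ
  pair x y hx hy := by
    obtain ⟨γ, hγ, hxγ⟩ := hδ.exists_lt hx
    obtain ⟨γ', hγ', hyγ'⟩ := hδ.exists_lt hy
    have hm : max γ γ' < δ := max_lt hγ hγ'
    exact Lev_mono (hδ.2 _ hm).le (pair_mem_Lev (Lev_mono (le_max_left _ _) hxγ)
      (Lev_mono (le_max_right _ _) hyγ'))
  succ x hx := by
    obtain ⟨γ, hγ, hxγ⟩ := hδ.exists_lt hx
    exact Lev_mono (hδ.2 _ hγ).le (succ_mem_Lev hxγ)

theorem nice_LL : Nice LL where
  trans := by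
    rintro x y ⟨β, hx⟩ hy
    exact ⟨β, Lev_trans hx hy⟩
  empty := ⟨0, empty_mem_Lev 0⟩
  pair := by
    rintro x y ⟨β, hx⟩ ⟨β', hy⟩
    exact ⟨max β β' + 1, pair_mem_Lev (Lev_mono (le_max_left _ _) hx)
      (Lev_mono (le_max_right _ _) hy)⟩
  succ := by
    rintro x ⟨β, hx⟩
    exact ⟨β + 1, succ_mem_Lev hx⟩

theorem NICE_single (x : ZFSet.{0}) : ({x, x} : ZFSet.{0}) = {x} := by
  ext z
  rw [ZFSet.mem_pair, ZFSet.mem_singleton, or_self]

theorem Nice.kpair {A : ZFSet.{0} → Prop} (hA : Nice A) {x y : ZFSet.{0}} (hx : A x) (hy : A y) :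
    A (ZFSet.pair x y) := by
  have h1 : A ({x} : ZFSet.{0}) := by
    rw [← NICE_single]
    exact hA.pair x x hx hx
  exact hA.pair _ _ h1 (hA.pair x y hx hy)

theorem Nice.of_kpair {A : ZFSet.{0} → Prop} (hA : Nice A) {x y : ZFSet.{0}}
    (h : A (ZFSet.pair x y)) : A x ∧ A y := by
  have h1 : A ({x, y} : ZFSet.{0}) := by
    refine hA.trans _ _ h ?_
    unfold ZFSet.pair
    rw [ZFSet.mem_pair]
    exact Or.inr rfl
  exact ⟨hA.trans _ _ h1 (ZFSet.mem_pair.2 (Or.inl rfl)),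
    hA.trans _ _ h1 (ZFSet.mem_pair.2 (Or.inr rfl))⟩

theorem Nice.natMem {A : ZFSet.{0} → Prop} (hA : Nice A) (k : ℕ) : A (nat k) := by
  induction k with
  | zero => exact hA.empty
  | succ k ih => exact hA.succ _ ih

theorem NICE_mem_nat (l : ℕ) (z : ZFSet.{0}) : z ∈ nat l ↔ ∃ k < l, z = nat k := by
  induction l with
  | zero =>
    constructor
    · intro h
      exact absurd h (ZFSet.notMem_empty z)
    · rintro ⟨k, hk, _⟩
      omega
  | succ l ih =>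
    change z ∈ insert (nat l) (nat l) ↔ _
    rw [ZFSet.mem_insert_iff, ih]
    constructor
    · rintro (rfl | ⟨k, hk, rfl⟩)
      · exact ⟨l, by omega, rfl⟩
      · exact ⟨k, by omega, rfl⟩
    · rintro ⟨k, hk, rfl⟩
      rcases Nat.lt_succ_iff_lt_or_eq.1 hk with h | h
      · exact Or.inr ⟨k, h, rfl⟩
      · exact Or.inl (by rw [h])

theorem nat_inj {k l : ℕ} (h : nat k = nat l) : k = l := by
  rcases lt_trichotomy k l with hl | hl | hl
  · have h1 : nat k ∈ nat l := (NICE_mem_nat l _).2 ⟨k, hl, rfl⟩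
    rw [h] at h1
    exact absurd h1 (ZFSet.mem_irrefl _)
  · exact hl
  · have h1 : nat l ∈ nat k := (NICE_mem_nat k _).2 ⟨l, hl, rfl⟩
    rw [h] at h1
    exact absurd h1 (ZFSet.mem_irrefl _)

theorem nat_mem_nat {k l : ℕ} : nat k ∈ nat l ↔ k < l := by
  rw [NICE_mem_nat]
  constructor
  · rintro ⟨j, hj, h⟩
    rw [nat_inj h]
    exact hj
  · intro h
    exact ⟨k, h, rfl⟩

end Pool.Agent.H94L
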