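import Pool.Agent.Lib.H94L.Nice

/-!
# Chunk BND: bounds for small families of levels

`LL_bound`: the index type is small, use `Ordinal.iSup` / `bddAbove_range` for the levels of `f i`.
`exists_closed`: iterate `b ↦ sup (b + 1, F γ + 1 for γ ≤ b)` from `α + 1` and take the supremum of the
sequence.
-/

set_option autoImplicit false

open Set Function

namespace Pool.Agent.H94L

/-- a set of ordinals is bounded: small families of elements of `LL` are in one level -/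
theorem LL_bound {ι : Type} (f : ι → ZFSet.{0}) (hf : ∀ i, LL (f i)) : ∃ β, ∀ i, f i ∈ Lev β := by
  choose b hb using hf
  exact ⟨⨆ i, b i, fun i => Lev_mono (Ordinal.le_iSup b i) (hb i)⟩

/-- the same for a subclass of a set -/
theorem LL_bound_set (u : ZFSet.{0}) (P : ZFSet.{0} → Prop) (h : ∀ x ∈ u, P x → LL x) :
    ∃ β, ∀ x ∈ u, P x → x ∈ Lev β := by
  classical
  have h1 : ∀ x : {x : ZFSet.{0} // x ∈ u}, ∃ b : Ordinal.{0}, P x.1 → x.1 ∈ Lev b := by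
    intro x
    by_cases hx : P x.1
    · obtain ⟨b, hb⟩ := h x.1 x.2 hx
      exact ⟨b, fun _ => hb⟩
    · exact ⟨0, fun h' => absurd h' hx⟩
  choose b hb using h1
  have : Small.{0} {x : ZFSet.{0} // x ∈ u} := ZFSet.small_coe u
  exact ⟨⨆ i, b i, fun x hx hP => Lev_mono (Ordinal.le_iSup b ⟨x, hx⟩) (hb ⟨x, hx⟩ hP)⟩

/-- above every ordinal there is a limit ordinal closed under a given function -/
theorem exists_closed (F : Ordinal.{0} → Ordinal.{0}) (α : Ordinal.{0}) :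
    ∃ δ, α < δ ∧ Lim δ ∧ ∀ γ < δ, F γ < δ := by
  obtain ⟨s, hs0, hs⟩ : ∃ s : ℕ → Ordinal.{0}, s 0 = α + 1 ∧
      ∀ n, s n + 1 ≤ s (n + 1) ∧ ∀ γ ≤ s n, F γ + 1 ≤ s (n + 1) := by
    refine ⟨fun n => Nat.rec (α + 1)
      (fun _ b => max (b + 1) (⨆ γ : Set.Iic b, (F γ.1 + 1))) n, rfl, fun n => ⟨?_, ?_⟩⟩
    · exact le_max_left _ _
    · intro γ hγ
      refine le_trans ?_ (le_max_right _ _)
      exact Ordinal.le_iSup (fun γ : Set.Iic _ => F γ.1 + 1) ⟨γ, hγ⟩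
  have hle : ∀ n, s n ≤ ⨆ n, s n := Ordinal.le_iSup s
  have hlt : ∀ n, s n < ⨆ n, s n := fun n =>
    lt_of_lt_of_le (lt_of_lt_of_le (lt_add_one _) (hs n).1) (hle (n + 1))
  refine ⟨⨆ n, s n, ?_, ⟨?_, ?_⟩, ?_⟩
  · refine lt_of_lt_of_le ?_ (hle 0)
    rw [hs0]
    exact lt_add_one α
  · exact lt_of_le_of_lt zero_le (hlt 0)
  · intro γ hγ
    obtain ⟨n, hn⟩ := Ordinal.lt_iSup_iff.1 hγ
    exact lt_of_le_of_lt (Order.add_one_le_of_lt hn) (hlt n)
  · intro γ hγ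
    obtain ⟨n, hn⟩ := Ordinal.lt_iSup_iff.1 hγ
    exact lt_of_lt_of_le (lt_of_lt_of_le (lt_add_one _) ((hs n).2 γ hn.le)) (hle (n + 1))

end Pool.Agent.H94L
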