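import Pool.Agent.Lib.H94L.DfnS

/-!
# Chunk PR: reduction of the parameters to one pair code and one fixed parameter

Let `C` be a class contained in `Lev δ` (`δ` limit), closed under Kuratowski pairs, nonempty, and
`q ∈ Lev δ`.  A predicate of `z` defined over `Lev δ` with (finitely many relevant) parameters in
`C ∪ {q}` is of the form `z ↦ SatL (cl (Lev δ)) (enumF k) (asg z p q)` with one `p` in `C`.

Proof.  `Dfn.finite` gives `m`.  Show by induction on the cardinality of the finite set `s` of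
positions `i < m` with `v i ≠ q`, for ALL definable `Q`: there are a definable `Q'` and `p` in `C`
with `Q (cons z v) ↔ Q' (cons z (cons p fun _ => q))` for all `z ∈ Lev δ`.
`s = ∅`: `Q' = Q` composed with `0 ↦ 0, i + 1 ↦ 2` (and `C` has some element `c0`).
Step: let `i ∈ s`, `b = v i`; put
`Q1 (w) = ∃ z' b', w 0 = pair z' b' ∧ Q (cons z' (update (fun n => w (n + 1)) i b'))`
(definable, and position `i` of `v` is irrelevant for it, so replace `v i` by `q`); the induction
hypothesis gives `Q1'` and `p1`; then `Q (cons z v) ↔ Q1 (cons (pair z b) v')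
↔ Q1' (cons (pair z b) (cons p1 q..))` and one takes `p = pair b p1` and
`Q' (w) = ∃ b' p' z1, w 1 = pair b' p' ∧ z1 = pair (w 0) b' ∧ Q1' (cons z1 (cons p' fun _ => w 2))`.
Finally `enumF_surj`, `asg_eq`.
-/

set_option autoImplicit false

open Set Function

namespace Pool.Agent.H94L

/-- finite dependence -/
def PRdep (A : ZFSet.{0} → Prop) (R : (ℕ → ZFSet.{0}) → Prop) (m : ℕ) : Prop :=
  ∀ v v', (∀ i, A (v i)) → (∀ i, A (v' i)) → (∀ i < m, v i = v' i) → (R v ↔ R v')

/-- renaming for the base case -/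
def PRf0 : ℕ → ℕ
  | 0 => 0
  | _ + 1 => 2

/-- renaming for the first part of the step -/
def PRf1 : ℕ → ℕ
  | 0 => 1
  | 1 => 3
  | 2 => 0
  | n + 3 => n + 4

/-- renaming for the second part of the step -/
def PRf2 : ℕ → ℕ
  | 0 => 0
  | 1 => 1
  | _ + 2 => 5

theorem PR_comp1 (u : ℕ → ZFSet.{0}) (z b : ZFSet.{0}) :
    cons b (cons z u) ∘ PRf1 = cons z (cons (u 1) (cons b fun n => u (n + 2))) := by
  funext i
  match i with
  | 0 => rfl
  | 1 => rfl
  | 2 => rfl
  | n + 3 => rfl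

theorem PR_comp2 (u : ℕ → ZFSet.{0}) (z b p : ZFSet.{0}) :
    cons z (cons p (cons b u)) ∘ PRf2 = cons z (cons p fun _ => u 2) := by
  funext i
  match i with
  | 0 => rfl
  | 1 => rfl
  | n + 2 => rfl

theorem PR_cons_tail (w : ℕ → ZFSet.{0}) : cons (w 0) (fun n => w (n + 1)) = w := by
  funext i
  match i with
  | 0 => rfl
  | n + 1 => rfl

theorem PR_ind {A : ZFSet.{0} → Prop} (hA : Nice A) {C : ZFSet.{0} → Prop}
    (hC : ∀ x, C x → A x) (hCp : ∀ x y, C x → C y → C (ZFSet.pair x y)) (hne : ∃ x, C x)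
    {q : ZFSet.{0}} (hq : A q) (m : ℕ) : ∀ R : (ℕ → ZFSet.{0}) → Prop, Dfn A R →
      PRdep A R (m + 2) →
      ∃ R', Dfn A R' ∧ ∀ w : ℕ → ZFSet.{0}, (∀ i, C (w i)) → ∃ p, C p ∧ ∀ z, A z →
        (R (cons z (cons q w)) ↔ R' (cons z (cons p fun _ => q))) := by
  induction m with
  | zero =>
    intro R hR hd
    obtain ⟨c, hc⟩ := hne
    refine ⟨fun u => R (u ∘ PRf0), hR.comp _, fun w hw => ⟨c, hc, fun z hz => ?_⟩⟩
    refine hd _ _ (cons_mem hz (cons_mem hq fun i => hC _ (hw i))) ?_ ?_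
    · intro i
      exact cons_mem hz (cons_mem (hC _ hc) fun _ => hq) (PRf0 i)
    · intro i hi
      interval_cases i <;> rfl
  | succ m ih =>
    intro R hR hd
    obtain ⟨R1', hR1', h1⟩ := ih (fun u => ∃ z, A z ∧ ∃ b, A b ∧
        ((cons b (cons z u)) 2 = ZFSet.pair ((cons b (cons z u)) 1) ((cons b (cons z u)) 0) ∧
          R (cons b (cons z u) ∘ PRf1)))
      (Dfn.ex (P := fun t => ∃ b, A b ∧ ((cons b t) 2 = ZFSet.pair ((cons b t) 1) ((cons b t) 0) ∧
          R (cons b t ∘ PRf1)))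
        (Dfn.ex (P := fun t => t 2 = ZFSet.pair (t 1) (t 0) ∧ R (t ∘ PRf1))
          ((hA.dfn_pair 2 1 0).and (hR.comp PRf1))))
      (by
        intro v v' hv hv' hvv
        refine exists_congr fun z => and_congr_right fun hz => exists_congr fun b =>
          and_congr_right fun hb => ?_
        refine and_congr ?_ ?_
        · change v 0 = _ ↔ v' 0 = _
          rw [hvv 0 (by omega)]
          rfl
        · refine hd _ _ (fun i => cons_mem hb (cons_mem hz hv) _)
            (fun i => cons_mem hb (cons_mem hz hv') _) ?_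
          intro i hi
          match i, hi with
          | 0, _ => rfl
          | 1, _ => exact hvv 1 (by omega)
          | 2, _ => rfl
          | n + 3, hi => exact hvv (n + 2) (by omega))
    refine ⟨fun u => ∃ b, A b ∧ ∃ p, A p ∧ ∃ z, A z ∧
        ((cons z (cons p (cons b u))) 4 =
            ZFSet.pair ((cons z (cons p (cons b u))) 2) ((cons z (cons p (cons b u))) 1) ∧
          ((cons z (cons p (cons b u))) 0 =
            ZFSet.pair ((cons z (cons p (cons b u))) 3) ((cons z (cons p (cons b u))) 2) ∧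
          R1' (cons z (cons p (cons b u)) ∘ PRf2))),
      Dfn.ex (P := fun s => ∃ p, A p ∧ ∃ z, A z ∧ ((cons z (cons p s)) 4 =
            ZFSet.pair ((cons z (cons p s)) 2) ((cons z (cons p s)) 1) ∧
          ((cons z (cons p s)) 0 = ZFSet.pair ((cons z (cons p s)) 3) ((cons z (cons p s)) 2) ∧
          R1' (cons z (cons p s) ∘ PRf2))))
        (Dfn.ex (P := fun s => ∃ z, A z ∧ ((cons z s) 4 =
            ZFSet.pair ((cons z s) 2) ((cons z s) 1) ∧
          ((cons z s) 0 = ZFSet.pair ((cons z s) 3) ((cons z s) 2) ∧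
          R1' (cons z s ∘ PRf2))))
          (Dfn.ex (P := fun s => s 4 = ZFSet.pair (s 2) (s 1) ∧ (s 0 = ZFSet.pair (s 3) (s 2) ∧
            R1' (s ∘ PRf2)))
            ((hA.dfn_pair 4 2 1).and ((hA.dfn_pair 0 3 2).and (hR1'.comp PRf2))))), ?_⟩
    intro w hw
    obtain ⟨p1, hp1, h2⟩ := h1 (fun n => w (n + 1)) fun i => hw _
    refine ⟨ZFSet.pair (w 0) p1, hCp _ _ (hw 0) hp1, fun z hz => ?_⟩
    have hz1 : A (ZFSet.pair z (w 0)) := hA.kpair hz (hC _ (hw 0))
    have h3 := h2 _ hz1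
    constructor
    · intro h
      refine ⟨w 0, hC _ (hw 0), p1, hC _ hp1, ZFSet.pair z (w 0), hz1, rfl, rfl, ?_⟩
      rw [PR_comp2]
      refine h3.1 ⟨z, hz, w 0, hC _ (hw 0), rfl, ?_⟩
      rw [PR_comp1]
      change R (cons z (cons q (cons (w 0) fun n => w (n + 1))))
      rw [PR_cons_tail]
      exact h
    · rintro ⟨b, hb, p, hp, z1, hz1', h4, h5, h6⟩
      change ZFSet.pair (w 0) p1 = ZFSet.pair b p at h4
      change z1 = ZFSet.pair z b at h5
      obtain ⟨rfl, rfl⟩ := ZFSet.pair_injective h4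
      subst h5
      rw [PR_comp2] at h6
      obtain ⟨z2, hz2, b2, hb2, h7, h8⟩ := h3.2 h6
      change ZFSet.pair z (w 0) = ZFSet.pair z2 b2 at h7
      obtain ⟨rfl, rfl⟩ := ZFSet.pair_injective h7
      rw [PR_comp1] at h8
      change R (cons z (cons q (cons (w 0) fun n => w (n + 1)))) at h8
      rw [PR_cons_tail] at h8
      exact h8

theorem param_red {δ : Ordinal.{0}} (hδ : Lim δ) {C : ZFSet.{0} → Prop}
    (hC : ∀ x, C x → x ∈ Lev δ) (hCp : ∀ x y, C x → C y → C (ZFSet.pair x y)) (hne : ∃ x, C x)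
    {q : ZFSet.{0}} (hq : q ∈ Lev δ) {Q : (ℕ → ZFSet.{0}) → Prop} (hQ : Dfn (cl (Lev δ)) Q)
    {v : ℕ → ZFSet.{0}} (hv : ∀ i, C (v i) ∨ v i = q) :
    ∃ k p, C p ∧ ∀ z ∈ Lev δ,
      (Q (cons z v) ↔ SatL (cl (Lev δ)) (enumF k) (asg z p q)) := by
  classical
  have hA : Nice (cl (Lev δ)) := nice_Lev hδ
  have hq' : cl (Lev δ) q := hq
  have hC' : ∀ x, C x → cl (Lev δ) x := hC
  obtain ⟨c, hc⟩ := hne
  -- the renaming which inserts `q` in the positions of `v` outside `C`
  let f : ℕ → ℕ := fun i => match i with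
    | 0 => 0
    | n + 1 => if C (v n) then n + 2 else 1
  let w : ℕ → ZFSet.{0} := fun n => if C (v n) then v n else c
  have hw : ∀ i, C (w i) := by
    intro i
    change C (if C (v i) then v i else c)
    split_ifs with h
    · exact h
    · exact hc
  have hR : Dfn (cl (Lev δ)) fun u => Q (u ∘ f) := hQ.comp f
  obtain ⟨m, hm⟩ := Dfn.finite hR
  obtain ⟨R', ⟨φ, hφ⟩, h1⟩ := PR_ind hA hC' hCp ⟨c, hc⟩ hq' m _ hR
    (fun u u' hu hu' h => hm u u' hu hu' fun i hi => h i (by omega))
  obtain ⟨p, hp, h2⟩ := h1 w hw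
  obtain ⟨k, hk⟩ := enumF_surj φ
  refine ⟨k, p, hp, fun z hz => ?_⟩
  have h3 : cons z (cons q w) ∘ f = cons z v := by
    funext i
    match i with
    | 0 => rfl
    | n + 1 =>
      change cons z (cons q w) (if C (v n) then n + 2 else 1) = v n
      split_ifs with h
      · change (if C (v n) then v n else c) = v n
        rw [if_pos h]
      · change q = v n
        exact ((hv n).resolve_left h).symm
  have h4 := h2 z hz
  rw [h3] at h4
  rw [h4, hk, asg_eq]
  exact hφ _ (cons_mem (A := cl (Lev δ)) hz (cons_mem (hC' _ hp) fun _ => hq'))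

end Pool.Agent.H94L
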