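import Pool.Agent.Lib.H94L.CL
import Pool.Agent.Lib.H94L.NiceB

/-!
# Chunk REFL: the reflection theorem for the hierarchy

Show first: for every `φ` there is `F : Ordinal → Ordinal` such that every limit `δ` closed under `F`
(`∀ γ < δ, F γ < δ`) reflects `φ`.  Induction on `φ`; for `imp` take the maximum; for `all i ψ` take
the maximum of the function for `ψ` and of `G`, where `G γ` is such that for every
`w : Fin m → Lev γ` (`m = ψ.bd`; a small type), extended by `∅`, if some `a` in `LL` fails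
`ψ (update w i a)` in `LL` then some such `a` is in `Lev (G γ)` (`LL_bound`).  If `δ` is a limit, finitely
many elements of `Lev δ` are in a common `Lev γ`, `γ < δ`; `SatL_congr`.
Then `exists_closed`.
-/

set_option autoImplicit false

open Set Function

namespace Pool.Agent.H94L

/-- an assignment on finitely many variables, extended by `∅` -/
def REFL_ext {m : ℕ} (w : Fin m → ZFSet.{0}) : ℕ → ZFSet.{0} :=
  fun j => if h : j < m then w ⟨j, h⟩ else ∅

theorem REFL_bound (ψ : LF) (i : ℕ) (γ : Ordinal.{0}) : ∃ β : Ordinal.{0},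
    ∀ w : Fin ψ.bd → ZFSet.{0}, (∀ j, w j ∈ Lev γ) →
      (∃ a, LL a ∧ ¬ SatL LL ψ (update (REFL_ext w) i a)) →
        ∃ a ∈ Lev β, ¬ SatL LL ψ (update (REFL_ext w) i a) := by
  classical
  have : Small.{0} {x : ZFSet.{0} // x ∈ Lev γ} := ZFSet.small_coe (Lev γ)
  let I := Shrink.{0} (Fin ψ.bd → {x : ZFSet.{0} // x ∈ Lev γ})
  let eq : (Fin ψ.bd → {x : ZFSet.{0} // x ∈ Lev γ}) ≃ I := equivShrink.{0} _
  let e : I → Fin ψ.bd → ZFSet.{0} := fun t j => (eq.symm t j).1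
  let f : I → ZFSet.{0} := fun t =>
    if h : ∃ a, LL a ∧ ¬ SatL LL ψ (update (REFL_ext (e t)) i a) then h.choose else ∅
  have hf : ∀ t, LL (f t) := by
    intro t
    by_cases h : ∃ a, LL a ∧ ¬ SatL LL ψ (update (REFL_ext (e t)) i a)
    · have : f t = h.choose := dif_pos h
      rw [this]
      exact h.choose_spec.1
    · have : f t = ∅ := dif_neg h
      rw [this]
      exact ⟨0, empty_mem_Lev 0⟩
  obtain ⟨β, hβ⟩ := LL_bound f hf
  refine ⟨β, fun w hw h => ?_⟩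
  let w' : Fin ψ.bd → {x : ZFSet.{0} // x ∈ Lev γ} := fun j => ⟨w j, hw j⟩
  have he : e (eq w') = w := by
    funext j
    show (eq.symm (eq w') j).1 = w j
    rw [Equiv.symm_apply_apply]
  have h' : ∃ a, LL a ∧ ¬ SatL LL ψ (update (REFL_ext (e (eq w'))) i a) := by
    rw [he]; exact h
  refine ⟨f (eq w'), hβ _, ?_⟩
  have h1 : f (eq w') = h'.choose := dif_pos h'
  have h2 : ¬ SatL LL ψ (update (REFL_ext (e (eq w'))) i (f (eq w'))) := by
    rw [h1]
    exact h'.choose_spec.2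
  generalize f (eq w') = b at h2 ⊢
  rw [he] at h2
  exact h2

theorem REFL_common {δ : Ordinal.{0}} (hδ : Lim δ) (v : ℕ → ZFSet.{0}) (hv : ∀ i, v i ∈ Lev δ)
    (m : ℕ) : ∃ γ < δ, ∀ j < m, v j ∈ Lev γ := by
  induction m with
  | zero => exact ⟨0, hδ.1, fun j hj => absurd hj (Nat.not_lt_zero j)⟩
  | succ m ih =>
    obtain ⟨γ, hγ, h⟩ := ih
    obtain ⟨γ', hγ', h'⟩ := hδ.exists_lt (hv m)
    refine ⟨max γ γ', max_lt hγ hγ', fun j hj => ?_⟩
    rcases Nat.lt_succ_iff_lt_or_eq.1 hj with hj | rfl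
    · exact Lev_mono (le_max_left _ _) (h j hj)
    · exact Lev_mono (le_max_right _ _) h'

theorem reflect_fun (φ : LF) : ∃ F : Ordinal.{0} → Ordinal.{0}, ∀ δ, Lim δ →
    (∀ γ < δ, F γ < δ) → ∀ v : ℕ → ZFSet.{0}, (∀ i, v i ∈ Lev δ) →
      (SatL (cl (Lev δ)) φ v ↔ SatL LL φ v) := by
  induction φ with
  | mem i j => exact ⟨fun _ => 0, fun δ _ _ v _ => Iff.rfl⟩
  | eq i j => exact ⟨fun _ => 0, fun δ _ _ v _ => Iff.rfl⟩
  | tr i j k l m => exact ⟨fun _ => 0, fun δ _ _ v _ => Iff.rfl⟩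
  | wo i j => exact ⟨fun _ => 0, fun δ _ _ v _ => Iff.rfl⟩
  | bot => exact ⟨fun _ => 0, fun δ _ _ v _ => Iff.rfl⟩
  | imp φ ψ ih ih' =>
    obtain ⟨F, hF⟩ := ih
    obtain ⟨G, hG⟩ := ih'
    refine ⟨fun γ => max (F γ) (G γ), fun δ hδ hc v hv => ?_⟩
    exact imp_congr
      (hF δ hδ (fun γ hγ => (le_max_left _ _).trans_lt (hc γ hγ)) v hv)
      (hG δ hδ (fun γ hγ => (le_max_right _ _).trans_lt (hc γ hγ)) v hv)
  | all i ψ ih =>
    obtain ⟨F, hF⟩ := ih
    choose G hG using REFL_bound ψ i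
    refine ⟨fun γ => max (F γ) (G γ), fun δ hδ hc v hv => ?_⟩
    have hup : ∀ a ∈ Lev δ, ∀ j, update v i a j ∈ Lev δ := by
      intro a ha j
      by_cases h : j = i
      · rw [h, update_self]; exact ha
      · rw [update_of_ne h]; exact hv j
    have hF' : ∀ a ∈ Lev δ, (SatL (cl (Lev δ)) ψ (update v i a) ↔ SatL LL ψ (update v i a)) :=
      fun a ha => hF δ hδ (fun γ hγ => (le_max_left _ _).trans_lt (hc γ hγ)) _ (hup a ha)
    show (∀ a, a ∈ Lev δ → SatL (cl (Lev δ)) ψ (update v i a)) ↔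
      (∀ a, LL a → SatL LL ψ (update v i a))
    constructor
    · intro h
      by_contra hcon
      push Not at hcon
      obtain ⟨a, ha, hna⟩ := hcon
      obtain ⟨γ, hγ, hvγ⟩ := REFL_common hδ v hv ψ.bd
      have hext : ∀ b, SatL LL ψ (update (REFL_ext fun j : Fin ψ.bd => v j) i b) ↔
          SatL LL ψ (update v i b) := by
        intro b
        refine SatL_congr _ _ _ _ fun j hj => ?_
        by_cases h : j = i
        · rw [h, update_self, update_self]
        · rw [update_of_ne h, update_of_ne h]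
          exact dif_pos hj
      obtain ⟨b, hb, hnb⟩ := hG γ (fun j : Fin ψ.bd => v j) (fun j => hvγ j j.2)
        ⟨a, ha, fun h' => hna ((hext a).1 h')⟩
      have hbδ : b ∈ Lev δ := Lev_mono ((le_max_right _ _).trans_lt (hc γ hγ)).le hb
      exact hnb ((hext b).2 ((hF' b hbδ).1 (h b hbδ)))
    · intro h a ha
      exact (hF' a ha).2 (h a ⟨δ, ha⟩)

theorem reflect (φ : LF) (α : Ordinal.{0}) : ∃ δ, α < δ ∧ Lim δ ∧ ∀ v : ℕ → ZFSet.{0},
    (∀ i, v i ∈ Lev δ) → (SatL (cl (Lev δ)) φ v ↔ SatL LL φ v) := by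
  obtain ⟨F, hF⟩ := reflect_fun φ
  obtain ⟨δ, h1, h2, h3⟩ := exists_closed F α
  exact ⟨δ, h1, h2, hF δ h2 h3⟩

end Pool.Agent.H94L
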