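import Pool.Agent.Lib.H94L.Cond
import Pool.Agent.Lib.H94L.Hull
import Pool.Agent.Lib.H94L.NiceB

/-!
# Chunk SMALL: a small level containing a given subset

`x, a` are in a limit level `Lev δ` (`exists_closed`).  Take the hull `N` of `exists_hull` and the level
`Lev γ` onto which it collapses (`condensation`).  `coll N x = x`, `coll N a = a` (`coll_eq_self`),
`coll N (pair x a) = pair x a` (`TV.coll_pair`), `coll N p = p` for `p ∈ x`.  Every `y' ∈ Lev γ` is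
`coll N y`, and `y` is the unique solution of the formula `enumF k` with parameters `p`, `pair x a` in
`Lev δ`; so `y'` is the unique solution in `Lev γ`: `coll N ∘ asg z p q = asg (coll N z) (coll N p) (coll N q)`.
-/

set_option autoImplicit false

open Set Function

namespace Pool.Agent.H94L

theorem small_level {x a : ZFSet.{0}} (hxL : LL x) (haL : LL a)
    (hx0 : ∀ y ∈ x, ∀ z ∈ y, z ∈ x)
    (hx1 : ∀ y z, y ∈ x → z ∈ x → ({y, z} : ZFSet.{0}) ∈ x) (hx2 : ∅ ∈ x)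
    (hax : ∀ z ∈ a, z ∈ x) :
    ∃ γ, 0 < γ ∧ x ∈ Lev γ ∧ a ∈ Lev γ ∧ ZFSet.pair x a ∈ Lev γ ∧ ∀ y ∈ Lev γ, ∃ k p, p ∈ x ∧
      ∀ z ∈ Lev γ, (SatL (cl (Lev γ)) (enumF k) (asg z p (ZFSet.pair x a)) ↔ z = y) := by
  obtain ⟨α, hα⟩ := hxL
  obtain ⟨β, hβ⟩ := haL
  obtain ⟨δ, hδm, hδ, -⟩ := exists_closed (fun _ => 0) (max α β)
  have hx : x ∈ Lev δ := Lev_mono ((le_max_left _ _).trans hδm.le) hα
  have ha : a ∈ Lev δ := Lev_mono ((le_max_right _ _).trans hδm.le) hβ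
  obtain ⟨N, hT, hxN, hNx, hNa, hNp, hdef⟩ := exists_hull hδ hx ha hx1 hx2
  obtain ⟨γ, h1, h2⟩ := condensation hδ hT
  have hcx : coll N x = x := coll_eq_self hx0 hxN fun z hz => hz
  have hca : coll N a = a := coll_eq_self hx0 hxN hax
  have hcp : coll N (ZFSet.pair x a) = ZFSet.pair x a := by
    rw [hT.coll_pair hδ hNx hNa, hcx, hca]
  have hxγ : x ∈ Lev γ := (h1 x).2 ⟨x, hNx, hcx.symm⟩
  have haγ : a ∈ Lev γ := (h1 a).2 ⟨a, hNa, hca.symm⟩
  have hpγ : ZFSet.pair x a ∈ Lev γ := (h1 _).2 ⟨_, hNp, hcp.symm⟩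
  refine ⟨γ, ?_, hxγ, haγ, hpγ, ?_⟩
  · refine pos_iff_ne_zero.2 ?_
    rintro rfl
    rw [mem_Lev_zero] at hxγ
    rw [hxγ] at hx2
    exact ZFSet.notMem_empty _ hx2
  · intro y' hy'
    obtain ⟨y, hy, rfl⟩ := (h1 y').1 hy'
    obtain ⟨k, p, hp, h3⟩ := hdef y hy
    have hcpp : coll N p = p := coll_eq_self hx0 hxN fun z hz => hx0 p hp z hz
    refine ⟨k, p, hp, fun z' hz' => ?_⟩
    obtain ⟨z, hz, rfl⟩ := (h1 z').1 hz'
    have h4 : asg (coll N z) p (ZFSet.pair x a) = coll N ∘ asg z p (ZFSet.pair x a) := by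
      funext i
      match i with
      | 0 => rfl
      | 1 => exact hcpp.symm
      | n + 2 => exact hcp.symm
    rw [h4, h2 _ _ (asg_mem hz (hxN p hp) hNp), h3 z (hT.sub z hz)]
    exact ⟨fun h => by rw [h], fun h => hT.coll_inj hz hy h⟩

end Pool.Agent.H94L
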