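import Pool.Agent.Lib.H94L.Defs

/-!
# Chunk TR1: transitive, pair-closed, inductive sets of every infinite cardinality

Let `ι` be a type with `#ι = μ` (`μ.out`), well-ordered as `μ.ord.toType`, and let `ζ : ι → ZFSet` be
injective with values the von Neumann ordinals below `μ.ord` (`Ordinal.toZFSet`).  Take the inductive
type of terms `base i | pr s t | sc t` over `ι` (cardinality `μ`, e.g. via an injection to
`List (ι ⊕ Bool)` or as a union of `ω` levels) and the `ZFSet.range` of its evaluation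
(`pr s t ↦ {s, t}`, `sc t ↦ insert t t`).
-/

set_option autoImplicit false

open Set Function Cardinal

namespace Pool.Agent.H94L

/-- Arities of the term constructors. -/
def TR1Sh (ι : Type) : ι ⊕ Bool → Type
  | Sum.inl _ => Empty
  | Sum.inr true => Bool
  | Sum.inr false => Unit

instance TR1Sh_finite (ι : Type) (a : ι ⊕ Bool) : Finite (TR1Sh ι a) := by
  rcases a with i | b
  · exact (inferInstance : Finite Empty)
  · cases b
    · exact (inferInstance : Finite Unit)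
    · exact (inferInstance : Finite Bool)

/-- One step of the evaluation of terms. -/
noncomputable def TR1st {ι : Type} (ζ : ι → ZFSet.{0}) :
    (Σ a : ι ⊕ Bool, TR1Sh ι a → ZFSet.{0}) → ZFSet.{0}
  | ⟨Sum.inl i, _⟩ => ζ i
  | ⟨Sum.inr true, f⟩ => {f true, f false}
  | ⟨Sum.inr false, f⟩ => insert (f ()) (f ())

/-- The evaluation of terms. -/
noncomputable def TR1ev {ι : Type} (ζ : ι → ZFSet.{0}) : WType (TR1Sh ι) → ZFSet.{0} :=
  WType.elim _ (TR1st ζ)

theorem TR1ev_base {ι : Type} (ζ : ι → ZFSet.{0}) (i : ι) (f : TR1Sh ι (Sum.inl i) → WType (TR1Sh ι)) :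
    TR1ev ζ (WType.mk (Sum.inl i) f) = ζ i := rfl

theorem TR1ev_pr {ι : Type} (ζ : ι → ZFSet.{0}) (f : TR1Sh ι (Sum.inr true) → WType (TR1Sh ι)) :
    TR1ev ζ (WType.mk (Sum.inr true) f) = {TR1ev ζ (f true), TR1ev ζ (f false)} := rfl

theorem TR1ev_sc {ι : Type} (ζ : ι → ZFSet.{0}) (f : TR1Sh ι (Sum.inr false) → WType (TR1Sh ι)) :
    TR1ev ζ (WType.mk (Sum.inr false) f) = insert (TR1ev ζ (f ())) (TR1ev ζ (f ())) := rfl

theorem TR1_trans {ι : Type} (ζ : ι → ZFSet.{0}) (hζ : ∀ i, ∀ z ∈ ζ i, ∃ j, ζ j = z)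
    (w : WType (TR1Sh ι)) : ∀ z ∈ TR1ev ζ w, ∃ w', TR1ev ζ w' = z := by
  induction w with
  | mk a f ih =>
    intro z hz
    rcases a with i | b
    · rw [TR1ev_base] at hz
      obtain ⟨j, hj⟩ := hζ i z hz
      exact ⟨WType.mk (Sum.inl j) fun e => e.elim, hj⟩
    · cases b
      · rw [TR1ev_sc, ZFSet.mem_insert_iff] at hz
        rcases hz with rfl | hz
        · exact ⟨_, rfl⟩
        · exact ih () z hz
      · rw [TR1ev_pr, ZFSet.mem_pair] at hz
        rcases hz with rfl | rfl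
        · exact ⟨_, rfl⟩
        · exact ⟨_, rfl⟩

theorem exists_closed_set (μ : Cardinal.{0}) (hμ : ℵ₀ ≤ μ) : ∃ x : ZFSet.{0},
    (∀ y ∈ x, ∀ z ∈ y, z ∈ x) ∧ (∀ y z, y ∈ x → z ∈ x → ({y, z} : ZFSet.{0}) ∈ x) ∧
      ∅ ∈ x ∧ (∀ y ∈ x, insert y y ∈ x) ∧ x.card = μ := by
  set X : ZFSet.{0} := μ.ord.toZFSet with hX
  set ζ : Shrink.{0} X → ZFSet.{0} := fun i => ((equivShrink X).symm i).1 with hζ
  have hζ1 : ∀ z ∈ X, ∃ i, ζ i = z := fun z hz =>
    ⟨equivShrink X ⟨z, hz⟩, by simp [hζ]⟩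
  have hζ2 : ∀ i, ζ i ∈ X := fun i => ((equivShrink X).symm i).2
  have hζ3 : ∀ i, ∀ z ∈ ζ i, ∃ j, ζ j = z := fun i z hz =>
    hζ1 z ((ZFSet.isOrdinal_toZFSet _).mem_trans hz (hζ2 i))
  have hcard : #(Shrink.{0} X) = μ := by
    have h := Ordinal.card_toZFSet μ.ord
    rw [Cardinal.card_ord] at h
    exact h
  refine ⟨ZFSet.range (TR1ev ζ), ?_, ?_, ?_, ?_, ?_⟩
  · intro y hy z hz
    obtain ⟨w, rfl⟩ := ZFSet.mem_range.1 hy
    exact ZFSet.mem_range.2 (TR1_trans ζ hζ3 w z hz)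
  · intro y z hy hz
    obtain ⟨w, rfl⟩ := ZFSet.mem_range.1 hy
    obtain ⟨w', rfl⟩ := ZFSet.mem_range.1 hz
    exact ZFSet.mem_range.2 ⟨WType.mk (Sum.inr true) (fun b : Bool => if b then w else w'), rfl⟩
  · have h0 : (∅ : ZFSet.{0}) ∈ X := by
      rw [hX, Ordinal.mem_toZFSet_iff]
      refine ⟨0, ?_, Ordinal.toZFSet_zero⟩
      rw [Cardinal.lt_ord, Ordinal.card_zero]
      exact aleph0_pos.trans_le hμ
    obtain ⟨i, hi⟩ := hζ1 _ h0
    exact ZFSet.mem_range.2 ⟨WType.mk (Sum.inl i) fun e => e.elim, hi⟩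
  · intro y hy
    obtain ⟨w, rfl⟩ := ZFSet.mem_range.1 hy
    exact ZFSet.mem_range.2 ⟨WType.mk (Sum.inr false) (fun _ => w), rfl⟩
  · apply le_antisymm
    · have h1 := ZFSet.lift_card_range_le (f := TR1ev ζ)
      rw [Cardinal.lift_id, Cardinal.lift_id] at h1
      refine h1.trans (WType.cardinalMk_le_max_aleph0_of_finite.trans ?_)
      refine max_le ?_ hμ
      rw [Cardinal.mk_sum, Cardinal.lift_id, Cardinal.lift_id, hcard]
      exact Cardinal.add_le_of_le hμ le_rfl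
        ((Cardinal.lt_aleph0_of_finite Bool).le.trans hμ)
    · have h2 : X ⊆ ZFSet.range (TR1ev ζ) := by
        intro z hz
        obtain ⟨i, hi⟩ := hζ1 z hz
        exact ZFSet.mem_range.2 ⟨WType.mk (Sum.inl i) fun e => e.elim, hi⟩
      have h4 : X.card = μ := hcard
      exact h4.symm.le.trans (ZFSet.card_mono h2)

end Pool.Agent.H94L
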