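import Pool.Agent.Lib.H94L.ZFBase

/-!
# Chunk ZFA: the axioms of ZFC without schemes in the constructible universe

* `ext`, `found`: `LL` is transitive (`nice_LL.trans`), `ZFSet.regularity`.
* `pair`: `nice_LL.pair`.
* `union`, `power`: `LL_sep'` with the predicates `∃ y ∈ x, z ∈ y` and `z ⊆ x`; the bound is a level
  containing `x`, respectively `LL_bound_set (ZFSet.powerset x) LL`.
* `inf`: `Lev δ` for a limit `δ` is in `LL` and inductive (`nice_Lev`).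
* `choice`: the set of the `WW`-least elements of the members of `x`: `LL_sep'` with the predicate
  `∃ y ∈ x, z ∈ y ∧ ∀ z' ∈ y, ¬ WW z' z`; existence by `WW_least`, uniqueness by `WW_total`.
-/

set_option autoImplicit false

open Set Function

namespace Pool.Agent.H94L

theorem ZFA_LL {x : ML} {z : ZFSet.{0}} (hz : z ∈ x.1) : LL z := nice_LL.trans _ _ x.2 hz

theorem zl_ext (x y : ML) (h : ∀ z, EL z x ↔ EL z y) : x = y := by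
  refine ML.ext (ZFSet.ext fun z => ?_)
  constructor
  · intro hz
    exact (h ⟨z, ZFA_LL hz⟩).1 hz
  · intro hz
    exact (h ⟨z, ZFA_LL hz⟩).2 hz

theorem zl_found (x : ML) (h : ∃ y, EL y x) : ∃ y, EL y x ∧ ∀ z, EL z y → ¬ EL z x := by
  obtain ⟨y0, hy0⟩ := h
  have hne : x.1 ≠ ∅ := fun h0 => by
    have h1 : y0.1 ∈ x.1 := hy0
    rw [h0] at h1
    exact ZFSet.notMem_empty _ h1
  obtain ⟨y, hy, hxy⟩ := ZFSet.regularity x.1 hne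
  refine ⟨⟨y, ZFA_LL hy⟩, hy, fun z hz hzx => ?_⟩
  have h1 : z.1 ∈ x.1 ∩ y := ZFSet.mem_inter.2 ⟨hzx, hz⟩
  rw [hxy] at h1
  exact ZFSet.notMem_empty _ h1

theorem zl_pair (x y : ML) : ∃ p, ∀ z, EL z p ↔ z = x ∨ z = y := by
  refine ⟨⟨{x.1, y.1}, nice_LL.pair _ _ x.2 y.2⟩, fun u => ?_⟩
  show u.1 ∈ ({x.1, y.1} : ZFSet.{0}) ↔ _
  rw [ZFSet.mem_pair]
  constructor
  · rintro (h | h)
    · exact Or.inl (ML.ext h)
    · exact Or.inr (ML.ext h)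
  · rintro (h | h)
    · exact Or.inl (congrArg Subtype.val h)
    · exact Or.inr (congrArg Subtype.val h)

theorem zl_union (x : ML) : ∃ u, ∀ z, EL z u ↔ ∃ y, EL y x ∧ EL z y := by
  obtain ⟨β, hβ⟩ := x.2
  obtain ⟨b, hb, hbz⟩ := LL_sep' (nice_LL.dfn_bex (Dfn.mem 1 0) 1) (v := fun _ => x.1)
    (fun _ => x.2) β (by
      rintro z - ⟨y, hy, hz⟩
      exact Lev_trans (Lev_trans hβ hy) hz)
  refine ⟨⟨b, hb⟩, fun z => ?_⟩
  constructor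
  · intro hz
    obtain ⟨-, y, hy, hzy⟩ := (hbz z.1).1 hz
    exact ⟨⟨y, ZFA_LL (x := x) hy⟩, hy, hzy⟩
  · rintro ⟨y, hy, hz⟩
    exact (hbz z.1).2 ⟨z.2, y.1, hy, hz⟩

theorem zl_power (x : ML) : ∃ p, ∀ z, EL z p ↔ ∀ w, EL w z → EL w x := by
  obtain ⟨β, hβ⟩ := LL_bound_set (ZFSet.powerset x.1) LL (fun _ _ h => h)
  obtain ⟨b, hb, hbz⟩ := LL_sep' (nice_LL.dfn_sub 0 1) (v := fun _ => x.1)
    (fun _ => x.2) β (by
      intro z hz hzx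
      exact hβ z (ZFSet.mem_powerset.2 hzx) hz)
  refine ⟨⟨b, hb⟩, fun z => ?_⟩
  constructor
  · intro hz w hw
    exact ((hbz z.1).1 hz).2 hw
  · intro h
    exact (hbz z.1).2 ⟨z.2, fun w hw => h ⟨w, ZFA_LL (x := z) hw⟩ hw⟩

theorem zl_inf : ∃ w : ML, (∃ e, EL e w ∧ ∀ z, ¬ EL z e) ∧
    ∀ x, EL x w → ∃ s, EL s w ∧ ∀ z, EL z s ↔ EL z x ∨ z = x := by
  obtain ⟨δ, -, hδ, -⟩ := exists_closed (fun _ => 0) 0
  have hn := nice_Lev hδ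
  refine ⟨⟨Lev δ, δ + 1, Lev_mem_Lev.2 (by simp)⟩, ⟨⟨∅, nice_LL.empty⟩, hn.empty, ?_⟩, ?_⟩
  · intro z hz
    exact ZFSet.notMem_empty _ hz
  · intro x hx
    refine ⟨⟨insert x.1 x.1, nice_LL.succ _ x.2⟩, hn.succ _ hx, fun z => ?_⟩
    show z.1 ∈ insert x.1 x.1 ↔ _
    rw [ZFSet.mem_insert_iff]
    constructor
    · rintro (h | h)
      · exact Or.inr (ML.ext h)
      · exact Or.inl h
    · rintro (h | h)
      · exact Or.inr h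
      · exact Or.inl (congrArg Subtype.val h)

theorem zl_choice (x : ML) (h : ∀ y, EL y x → ∃ z, EL z y)
    (hd : ∀ y y' z, EL y x → EL y' x → EL z y → EL z y' → y = y') :
    ∃ c, ∀ y, EL y x → ∃! z, EL z c ∧ EL z y := by
  obtain ⟨β, hβ⟩ := x.2
  obtain ⟨c, hc, hcz⟩ := LL_sep' (nice_LL.dfn_bex
    ((Dfn.mem 1 0).and (nice_LL.dfn_ball (Dfn.not (Dfn.ww 0 2)) 0)) 1) (v := fun _ => x.1)
    (fun _ => x.2) β (by
      rintro z - ⟨y, hy, hz, -⟩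
      exact Lev_trans (Lev_trans hβ hy) hz)
  have hcz' : ∀ z, z ∈ c ↔ LL z ∧ ∃ y ∈ x.1, z ∈ y ∧ ∀ z' ∈ y, ¬ WW z' z := hcz
  refine ⟨⟨c, hc⟩, fun y hy => ?_⟩
  obtain ⟨z0, hz0⟩ := h y hy
  obtain ⟨m, hm, hmy, hmin⟩ := WW_least (fun z => z ∈ y.1) ⟨z0.1, z0.2, hz0⟩
  refine ⟨⟨m, hm⟩, ⟨(hcz' m).2 ⟨hm, y.1, hy, hmy, fun z' hz' => hmin z' (ZFA_LL (x := y) hz') hz'⟩,
    hmy⟩, ?_⟩
  rintro z ⟨hz, hzy⟩
  obtain ⟨-, y', hy', hzy', hmin'⟩ := (hcz' z.1).1 hz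
  have hyy : (⟨y', ZFA_LL (x := x) hy'⟩ : ML) = y := hd _ _ z hy' hy hzy' hzy
  have hyy' : y' = y.1 := congrArg Subtype.val hyy
  subst hyy'
  exact ML.ext (WW_least_unique (S := fun z => z ∈ y.1) z.2 hm
    ⟨hzy, fun z' _ hz' => hmin' z' hz'⟩ ⟨hmy, hmin⟩)

end Pool.Agent.H94L
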